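import Mathlib

set_option autoImplicit false

/-!
General position: a continuous family of dimension two can be moved off a closed set all of whose
points have a neighbourhood in which the set lies in a topological submanifold of codimension at
least three.
-/

namespace Pool.Agent.TH227.GE

open Set Filter Topology

/-- the parameter square -/
abbrev Sq : Type := unitInterval × unitInterval

/-- retraction of the plane to the square -/
noncomputable def toSq (z : ℝ × ℝ) : Sq :=
  (projIcc 0 1 zero_le_one z.1, projIcc 0 1 zero_le_one z.2)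

theorem continuous_toSq : Continuous toSq :=
  ((continuous_projIcc (h := zero_le_one)).comp continuous_fst).prodMk
    ((continuous_projIcc (h := zero_le_one)).comp continuous_snd)

theorem toSq_coe (s : Sq) : toSq ((s.1 : ℝ), (s.2 : ℝ)) = s := by
  unfold toSq
  simp only [projIcc_val]

/-- approximation by nowhere vanishing maps -/
theorem approx_avoid {k : ℕ} (hk : 2 < k) (f : C(Sq, Fin k → ℝ)) {δ : ℝ} (hδ : 0 < δ) :
    ∃ g : C(Sq, Fin k → ℝ), (∀ s, dist (g s) (f s) < δ) ∧ ∀ s, g s ≠ 0 := by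
  have hf : Continuous fun z : ℝ × ℝ => f (toSq z) := f.continuous.comp continuous_toSq
  obtain ⟨g, hg1, hg2, -⟩ := hf.exists_contDiff_approx (ε := fun _ => δ / 2) 1
    continuous_const (fun _ => half_pos hδ)
  have hdim : Module.finrank ℝ (ℝ × ℝ) < Module.finrank ℝ (Fin k → ℝ) := by
    simp only [Module.finrank_prod, Module.finrank_self, Module.finrank_fintype_fun_eq_card,
      Fintype.card_fin]
    omega
  have hdense := ContDiff.dense_compl_range_of_finrank_lt_finrank (f := g)
    (by exact_mod_cast hg1) hdim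
  obtain ⟨v, hv1, hv2⟩ := hdense.exists_dist_lt 0 (half_pos hδ)
  refine ⟨⟨fun s => g ((s.1 : ℝ), (s.2 : ℝ)) - v, ?_⟩, ?_, ?_⟩
  · exact (hg1.continuous.comp ((continuous_subtype_val.comp continuous_fst).prodMk
      (continuous_subtype_val.comp continuous_snd))).sub continuous_const
  · intro s
    have h1 := hg2 ((s.1 : ℝ), (s.2 : ℝ))
    rw [toSq_coe] at h1
    have h2 : dist (g ((s.1 : ℝ), (s.2 : ℝ)) - v) (g ((s.1 : ℝ), (s.2 : ℝ))) < δ / 2 := by
      rw [dist_eq_norm, sub_sub_cancel_left, norm_neg]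
      rwa [dist_zero_left] at hv2
    calc dist (g ((s.1 : ℝ), (s.2 : ℝ)) - v) (f s)
        ≤ dist (g ((s.1 : ℝ), (s.2 : ℝ)) - v) (g ((s.1 : ℝ), (s.2 : ℝ)))
          + dist (g ((s.1 : ℝ), (s.2 : ℝ))) (f s) := dist_triangle _ _ _
      _ < δ / 2 + δ / 2 := add_lt_add h2 h1
      _ = δ := add_halves δ
  · intro s h
    have : g ((s.1 : ℝ), (s.2 : ℝ)) = v := sub_eq_zero.1 h
    exact hv1 ⟨_, this⟩

/-- the local step: perturbation in a chart -/
theorem local_step {X : Type*} [PseudoMetricSpace X] {E : Type*} [NormedAddCommGroup E]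
    [NormedSpace ℝ E] {k : ℕ} (hk : 2 < k) {S : Set X}
    (e : OpenPartialHomeomorph X (E × (Fin k → ℝ))) (he : ∀ y ∈ e.source, y ∈ S → (e y).2 = 0)
    (G : C(Sq, X)) (c : Sq) {ρ : ℝ} (hρ : 0 < ρ)
    (hG : ∀ s, dist s c ≤ 2 * ρ → G s ∈ e.source) {ε : ℝ} (hε : 0 < ε) :
    ∃ G' : C(Sq, X), (∀ s, dist (G' s) (G s) < ε) ∧ ∀ s, dist s c ≤ ρ → G' s ∉ S := by
  set B' : Set Sq := {s | dist s c ≤ 2 * ρ} with hB'
  have cd : Continuous fun s : Sq => dist s c := continuous_id.dist continuous_const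
  have cB' : IsClosed B' := isClosed_le cd continuous_const
  have kB' : IsCompact B' := cB'.isCompact
  have ceG : ContinuousOn (fun s => e (G s)) B' :=
    e.continuousOn.comp G.continuous.continuousOn hG
  set Z : Set (E × (Fin k → ℝ)) := (fun s => e (G s)) '' B' with hZ
  have kZ : IsCompact Z := kB'.image_of_continuousOn ceG
  have hZt : Z ⊆ e.target := by
    rintro _ ⟨s, hs, rfl⟩
    exact e.map_source (hG s hs)
  obtain ⟨δ1, hδ1, hthick⟩ := kZ.exists_thickening_subset_open e.open_target hZt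
  have hunif := kZ.uniformContinuousAt_of_continuousAt (r := {p | dist p.1 p.2 < ε}) e.symm
    (fun a ha => e.continuousAt_symm (hZt ha)) (Metric.dist_mem_uniformity hε)
  obtain ⟨δ2, hδ2, hu⟩ := Metric.mem_uniformity_dist.1 hunif
  obtain ⟨δ, hδ, hδ1', hδ2'⟩ : ∃ δ : ℝ, 0 < δ ∧ δ ≤ δ1 ∧ δ ≤ δ2 :=
    ⟨min δ1 δ2, lt_min hδ1 hδ2, min_le_left _ _, min_le_right _ _⟩
  -- the transversal coordinate
  have cr : Continuous (fun s : B' => (e (G s)).2) :=
    continuous_snd.comp (continuousOn_iff_continuous_domRestrict.1 ceG)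
  obtain ⟨rh, hrh⟩ := ContinuousMap.exists_restrict_eq cB' ⟨fun s : B' => (e (G s)).2, cr⟩
  have hrh' : ∀ s ∈ B', rh s = (e (G s)).2 := by
    intro s hs
    have := congrArg (fun f : C(B', Fin k → ℝ) => f ⟨s, hs⟩) hrh
    exact this
  obtain ⟨g, hg1, hg2⟩ := approx_avoid hk rh hδ
  -- cut-off
  let χ : Sq → ℝ := fun s => max 0 (min 1 (2 - dist s c / ρ))
  have cχ : Continuous χ :=
    continuous_const.max (continuous_const.min (continuous_const.sub (cd.div_const ρ)))
  have χ0 : ∀ s, 2 * ρ ≤ dist s c → χ s = 0 := by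
    intro s hs
    have h1 : 2 ≤ dist s c / ρ := by rw [le_div_iff₀ hρ]; exact hs
    have h2 : min 1 (2 - dist s c / ρ) ≤ 0 := (min_le_right _ _).trans (by linarith)
    exact max_eq_left h2
  have χ1 : ∀ s, dist s c ≤ ρ → χ s = 1 := by
    intro s hs
    have h1 : dist s c / ρ ≤ 1 := by rw [div_le_one hρ]; exact hs
    have h2 : min 1 (2 - dist s c / ρ) = 1 := min_eq_left (by linarith)
    show max 0 (min 1 (2 - dist s c / ρ)) = 1
    rw [h2]; exact max_eq_right zero_le_one
  have χm : ∀ s, 0 ≤ χ s ∧ χ s ≤ 1 := fun s =>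
    ⟨le_max_left _ _, max_le zero_le_one (min_le_left _ _)⟩
  let w : Sq → E × (Fin k → ℝ) := fun s => ((e (G s)).1, rh s + χ s • (g s - rh s))
  have cw : ContinuousOn w B' := by
    refine ContinuousOn.prodMk (continuous_fst.comp_continuousOn ceG) ?_
    exact (rh.continuous.add (cχ.smul (g.continuous.sub rh.continuous))).continuousOn
  have hw : ∀ s ∈ B', dist (e (G s)) (w s) < δ := by
    intro s hs
    rw [Prod.dist_eq]
    refine max_lt ?_ ?_
    · show dist (e (G s)).1 (e (G s)).1 < δ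
      rw [dist_self]; exact hδ
    · show dist (e (G s)).2 (rh s + χ s • (g s - rh s)) < δ
      rw [← hrh' s hs, dist_comm, dist_eq_norm, add_sub_cancel_left, norm_smul,
        Real.norm_of_nonneg (χm s).1]
      have h1 : ‖g s - rh s‖ < δ := by rw [← dist_eq_norm]; exact hg1 s
      calc χ s * ‖g s - rh s‖ ≤ 1 * ‖g s - rh s‖ :=
            mul_le_mul_of_nonneg_right (χm s).2 (norm_nonneg _)
        _ < δ := by rw [one_mul]; exact h1
  have hwt : ∀ s ∈ B', w s ∈ e.target := by
    intro s hs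
    apply hthick
    rw [Metric.mem_thickening_iff]
    exact ⟨e (G s), ⟨s, hs, rfl⟩, by rw [dist_comm]; exact (hw s hs).trans_le hδ1'⟩
  have hclose : ∀ s ∈ B', dist (e.symm (w s)) (G s) < ε := by
    intro s hs
    have h1 := @hu (e (G s)) (w s) ((hw s hs).trans_le hδ2')
    have h2 : dist (e.symm (e (G s))) (e.symm (w s)) < ε := h1 ⟨s, hs, rfl⟩
    rw [e.left_inv (hG s hs), dist_comm] at h2
    exact h2
  have hbd : ∀ s ∈ B', 2 * ρ ≤ dist s c → e.symm (w s) = G s := by
    intro s hs h
    have h1 : w s = e (G s) := by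
      show ((e (G s)).1, rh s + χ s • (g s - rh s)) = e (G s)
      rw [χ0 s h, zero_smul, add_zero, hrh' s hs]
    rw [h1, e.left_inv (hG s hs)]
  -- the new map
  classical
  let G1 : Sq → X := fun s => if dist s c ≤ 2 * ρ then e.symm (w s) else G s
  have e1 : EqOn G1 (fun s => e.symm (w s)) B' := by
    intro s hs
    have hs' : dist s c ≤ 2 * ρ := hs
    simp [G1, hs']
  have e2 : EqOn G1 G {s | 2 * ρ ≤ dist s c} := by
    intro s hs
    have hs' : 2 * ρ ≤ dist s c := hs
    by_cases h : dist s c ≤ 2 * ρ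
    · rw [e1 h]
      exact hbd s h hs'
    · simp [G1, h]
  have c1 : ContinuousOn G1 B' :=
    (e.continuousOn_symm.comp cw hwt).congr e1
  have c2 : ContinuousOn G1 {s | 2 * ρ ≤ dist s c} := G.continuous.continuousOn.congr e2
  have c3 : Continuous G1 := by
    rw [← continuousOn_univ]
    have : (univ : Set Sq) = B' ∪ {s | 2 * ρ ≤ dist s c} := by
      ext s
      simp only [mem_univ, true_iff]
      exact le_total (dist s c) (2 * ρ)
    rw [this]
    exact c1.union_of_isClosed c2 cB' (isClosed_le continuous_const cd)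
  refine ⟨⟨G1, c3⟩, ?_, ?_⟩
  · intro s
    show dist (G1 s) (G s) < ε
    rcases le_total (dist s c) (2 * ρ) with h | h
    · rw [e1 h]; exact hclose s h
    · rw [e2 h, dist_self]; exact hε
  · intro s hs hS
    have hsB : s ∈ B' := by
      show dist s c ≤ 2 * ρ
      linarith
    have hS' : e.symm (w s) ∈ S := by
      have : G1 s = e.symm (w s) := e1 hsB
      rw [← this]; exact hS
    have h1 := he _ (e.map_target (hwt s hsB)) hS'
    rw [e.right_inv (hwt s hsB)] at h1
    have h2 : rh s + χ s • (g s - rh s) = 0 := h1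
    rw [χ1 s hs, one_smul, add_sub_cancel] at h2
    exact hg2 s h2

/-- `S` has a chart of codimension `k` at `x` -/
def ChartAt.{u, v} {X : Type v} [TopologicalSpace X] (k : ℕ) (S : Set X) (x : X) : Prop :=
  ∃ (E : Type u) (_ : NormedAddCommGroup E) (_ : NormedSpace ℝ E) (_ : CompleteSpace E)
    (e : OpenPartialHomeomorph X (E × (Fin k → ℝ))), x ∈ e.source ∧
    ∀ y ∈ e.source, y ∈ S ↔ (e y).2 = 0

theorem close_of_compact {X : Type*} [PseudoMetricSpace X] (F : C(Sq, X)) {B : Set Sq}
    (hB : IsCompact B) {W : Set X} (hW : IsOpen W) (h : ∀ s ∈ B, F s ∈ W) :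
    ∃ η > 0, ∀ G : C(Sq, X), (∀ s, dist (G s) (F s) < η) → ∀ s ∈ B, G s ∈ W := by
  obtain ⟨η, hη, ht⟩ := (hB.image F.continuous).exists_thickening_subset_open hW
    (by rintro _ ⟨s, hs, rfl⟩; exact h s hs)
  refine ⟨η, hη, fun G hG s hs => ht ?_⟩
  rw [Metric.mem_thickening_iff]
  exact ⟨F s, ⟨s, hs, rfl⟩, hG s⟩

/-- general position -/
theorem general_position.{u, v} {X : Type v} [PseudoMetricSpace X] {k : ℕ} (hk : 2 < k)
    {S C O : Set X} (hO : IsOpen O) (hC : IsClosed C) (hCS : C ∩ O ⊆ S)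
    (hch : ∀ x ∈ C ∩ O, ChartAt.{u, v} k S x) (F : C(Sq, X)) (hF : ∀ s, F s ∈ O) {ε : ℝ}
    (hε : 0 < ε) : ∃ G : C(Sq, X), (∀ s, dist (G s) (F s) < ε) ∧ ∀ s, G s ∉ C := by
  obtain ⟨ηO, hηO, hO'⟩ := close_of_compact F isCompact_univ hO (fun s _ => hF s)
  -- for every centre a radius at which one can locally move off `C`
  have hloc : ∀ c : Sq, ∃ ρ > 0, ∃ η > 0, ∀ G : C(Sq, X), (∀ s, dist (G s) (F s) < η) →
      ∀ δ > 0, ∃ G' : C(Sq, X), (∀ s, dist (G' s) (G s) < δ) ∧
        ∀ s, dist s c ≤ ρ → G' s ∉ C ∩ O := by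
    intro c
    by_cases hc : F c ∈ C
    · obtain ⟨E, i1, i2, i3, e, he1, he2⟩ := hch (F c) ⟨hc, hF c⟩
      have hopen : IsOpen (F ⁻¹' e.source) := e.open_source.preimage F.continuous
      obtain ⟨ρ0, hρ0, hball⟩ := Metric.isOpen_iff.1 hopen c he1
      have hsub : ∀ s, dist s c ≤ 2 * (ρ0 / 4) → F s ∈ e.source := by
        intro s hs
        apply hball
        rw [Metric.mem_ball]
        linarith
      have hcomp : IsCompact {s : Sq | dist s c ≤ 2 * (ρ0 / 4)} :=
        (isClosed_le (continuous_id.dist continuous_const) continuous_const).isCompact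
      obtain ⟨η, hη, hη'⟩ := close_of_compact F hcomp e.open_source hsub
      refine ⟨ρ0 / 4, by linarith, η, hη, fun G hG δ hδ => ?_⟩
      obtain ⟨G', h1, h2⟩ := local_step hk e (fun y hy hyS => (he2 y hy).1 hyS) G c
        (by linarith : 0 < ρ0 / 4) (fun s hs => hη' G hG s hs) hδ
      exact ⟨G', h1, fun s hs hmem => h2 s hs (hCS hmem)⟩
    · have hopen : IsOpen (F ⁻¹' Cᶜ) := hC.isOpen_compl.preimage F.continuous
      obtain ⟨ρ0, hρ0, hball⟩ := Metric.isOpen_iff.1 hopen c hc
      have hsub : ∀ s, dist s c ≤ ρ0 / 2 → F s ∈ Cᶜ := by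
        intro s hs
        apply hball
        rw [Metric.mem_ball]
        linarith
      have hcomp : IsCompact {s : Sq | dist s c ≤ ρ0 / 2} :=
        (isClosed_le (continuous_id.dist continuous_const) continuous_const).isCompact
      obtain ⟨η, hη, hη'⟩ := close_of_compact F hcomp hC.isOpen_compl hsub
      refine ⟨ρ0 / 2, by linarith, η, hη, fun G hG δ hδ => ⟨G, fun s => ?_, fun s hs hmem => ?_⟩⟩
      · rw [dist_self]; exact hδ
      · exact hη' G hG s hs hmem.1
  choose ρ hρ η hη hmove using hloc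
  -- induction over finite sets of centres
  have hfin : ∀ t : Finset Sq, ∀ ε' > 0, ∃ G : C(Sq, X), (∀ s, dist (G s) (F s) < ε') ∧
      ∀ c ∈ t, ∀ s, dist s c ≤ ρ c → G s ∉ C ∩ O := by
    intro t
    induction t using Finset.induction_on with
    | empty =>
      intro ε' hε'
      exact ⟨F, fun s => by rw [dist_self]; exact hε', fun c hc => absurd hc (Finset.notMem_empty c)⟩
    | insert c t _ ih =>
      intro ε' hε'
      set m := min (min ε' (η c)) ηO with hm
      have hm0 : 0 < m := lt_min (lt_min hε' (hη c)) hηO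
      obtain ⟨G, hG1, hG2⟩ := ih (m / 2) (half_pos hm0)
      have hGη : ∀ s, dist (G s) (F s) < η c := fun s =>
        (hG1 s).trans_le ((half_le_self hm0.le).trans ((min_le_left _ _).trans (min_le_right _ _)))
      have hGO : ∀ s, G s ∈ O := fun s => hO' G (fun s => (hG1 s).trans_le
        ((half_le_self hm0.le).trans (min_le_right _ _))) s (mem_univ s)
      -- stability of what was achieved
      have hcomp : IsCompact (⋃ c ∈ t, {s : Sq | dist s c ≤ ρ c}) :=
        t.isCompact_biUnion fun c _ =>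
          (isClosed_le (continuous_id.dist continuous_const) continuous_const).isCompact
      obtain ⟨η', hη', hst⟩ := close_of_compact G hcomp hC.isOpen_compl (by
        intro s hs
        simp only [mem_iUnion, exists_prop] at hs
        obtain ⟨c', hc', hs'⟩ := hs
        intro hmem
        exact hG2 c' hc' s hs' ⟨hmem, hGO s⟩)
      obtain ⟨G', hG'1, hG'2⟩ := hmove c G hGη (min (m / 2) η') (lt_min (half_pos hm0) hη')
      refine ⟨G', fun s => ?_, fun c' hc' s hs hmem => ?_⟩
      · calc dist (G' s) (F s) ≤ dist (G' s) (G s) + dist (G s) (F s) := dist_triangle _ _ _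
          _ < m / 2 + m / 2 := add_lt_add ((hG'1 s).trans_le (min_le_left _ _)) (hG1 s)
          _ = m := add_halves m
          _ ≤ ε' := (min_le_left _ _).trans (min_le_left _ _)
      · rcases Finset.mem_insert.1 hc' with h | h
        · rw [h] at hs
          exact hG'2 s hs hmem
        · refine hst G' (fun s => (hG'1 s).trans_le (min_le_right _ _)) s ?_ hmem.1
          simp only [mem_iUnion, exists_prop]
          exact ⟨c', h, hs⟩
  obtain ⟨t, ht⟩ := isCompact_univ.elim_finite_subcover (fun c : Sq => Metric.ball c (ρ c))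
    (fun c => Metric.isOpen_ball) (fun s _ => mem_iUnion.2 ⟨s, Metric.mem_ball_self (hρ s)⟩)
  obtain ⟨G, hG1, hG2⟩ := hfin t (min ε ηO) (lt_min hε hηO)
  refine ⟨G, fun s => (hG1 s).trans_le (min_le_left _ _), fun s hs => ?_⟩
  have hGO : G s ∈ O := hO' G (fun s => (hG1 s).trans_le (min_le_right _ _)) s (mem_univ s)
  have := ht (mem_univ s)
  simp only [mem_iUnion, exists_prop] at this
  obtain ⟨c, hc, hsc⟩ := this
  exact hG2 c hc s (Metric.mem_ball.1 hsc).le ⟨hs, hGO⟩

end Pool.Agent.TH227.GE
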