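import Pool.Agent.TH227.GE.Model
import Pool.Agent.TH227.GE.GP

set_option autoImplicit false

/-!
Generalised interval exchange maps with affine branches, and the two-parameter family.
-/

namespace Pool.Agent.TH227.GE

open Set Filter Topology

/-- the identity as a diffeomorphism of the unit interval -/
def idDiffeo (r : ℕ) : UnitDiffeo r where
  toFun x := (x : ℝ)
  contDiffOn := by
    refine contDiffOn_id.congr ?_
    intro x hx
    rw [IccExtend_of_mem _ _ hx]; rfl
  map_zero := rfl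
  map_one := rfl
  deriv_pos := by
    intro x hx
    have h : EqOn (IccExtend (zero_le_one (α := ℝ)) fun x : unitInterval => (x : ℝ)) id
        (Icc 0 1) := by
      intro x hx
      rw [IccExtend_of_mem _ _ hx]; rfl
    have e : derivWithin (IccExtend (zero_le_one (α := ℝ)) fun x : unitInterval => (x : ℝ))
        (Icc 0 1) x = derivWithin id (Icc 0 1) x := derivWithin_congr h (h hx)
    rw [e, derivWithin_id x (Icc 0 1) (uniqueDiffOn_Icc zero_lt_one x hx)]
    exact one_pos

theorem exC_id {r : ℕ} {x : ℝ} (hx : x ∈ Icc (0 : ℝ) 1) : exC (idDiffeo r) x = x := by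
  show IccExtend (zero_le_one (α := ℝ)) (fun x : unitInterval => (x : ℝ)) x = x
  rw [IccExtend_of_mem _ _ hx]

theorem jet_id {r : ℕ} (hr : 1 < r + 1) (x : unitInterval) : (idDiffeo r).jet ⟨1, hr⟩ x = 1 := by
  rw [jet_one]
  have h : EqOn (exC (idDiffeo r)) id (Icc 0 1) := fun x hx => exC_id hx
  rw [derivWithin_congr h (h x.2), derivWithin_id (x : ℝ) (Icc 0 1)
    (uniqueDiffOn_Icc zero_lt_one x x.2)]

/-- admissible partition points -/
structure PP (t1 t2 t3 b1 b2 b3 : ℝ) : Prop where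
  h1 : 0 < t1
  h2 : t1 < t2
  h3 : t2 < t3
  h4 : t3 < 1
  g1 : 0 < b1
  g2 : b1 < b2
  g3 : b2 < b3
  g4 : b3 < 1

theorem strictMono_five {a b c : ℝ} (h1 : 0 < a) (h2 : a < b) (h3 : b < c) (h4 : c < 1) :
    StrictMono ![0, a, b, c, 1] := by
  rw [Fin.strictMono_iff_lt_succ]
  intro i
  fin_cases i
  · exact h1
  · exact h2
  · exact h3
  · exact h4

/-- the generalised interval exchange map with affine branches -/
def mkG (r : ℕ) {t1 t2 t3 b1 b2 b3 : ℝ} (h : PP t1 t2 t3 b1 b2 b3) : GK r where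
  t := ![0, t1, t2, t3, 1]
  b := ![0, b1, b2, b3, 1]
  t_mono := strictMono_five h.h1 h.h2 h.h3 h.h4
  b_mono := strictMono_five h.g1 h.g2 h.g3 h.g4
  t_zero := rfl
  t_last := rfl
  b_zero := rfl
  b_last := rfl
  φ _ := idDiffeo r

theorem mkG_branch {r : ℕ} {t1 t2 t3 b1 b2 b3 : ℝ} (h : PP t1 t2 t3 b1 b2 b3) (a : Fin 4)
    {x : ℝ} (hx : x ∈ Icc ((mkG r h).topL a) ((mkG r h).topR a)) :
    (mkG r h).branch a x = (mkG r h).botL a + ((mkG r h).botR a - (mkG r h).botL a) *
      ((x - (mkG r h).topL a) / ((mkG r h).topR a - (mkG r h).topL a)) := by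
  have hb : 0 < (mkG r h).topR a - (mkG r h).topL a := sub_pos.2 (GIEM.topL_lt_topR _ a)
  have hm : (x - (mkG r h).topL a) / ((mkG r h).topR a - (mkG r h).topL a) ∈
      Icc (0 : ℝ) 1 := by
    constructor
    · exact div_nonneg (by linarith [hx.1]) hb.le
    · rw [div_le_one hb]; linarith [hx.2]
  have := exC_id (r := r) hm
  unfold GIEM.branch
  congr 2

theorem mkG_slopeIn {r : ℕ} {t1 t2 t3 b1 b2 b3 : ℝ} (h : PP t1 t2 t3 b1 b2 b3) (a : Fin 4)
    (hr : 1 ≤ r) {lo hi : ℝ}
    (h1 : ((mkG r h).botR a - (mkG r h).botL a) / ((mkG r h).topR a - (mkG r h).topL a) ∈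
      Ioo lo hi) : SlopeIn a hr lo hi (mkG r h) := by
  intro x
  have : ((mkG r h).φ a).jet ⟨1, by omega⟩ x = 1 := jet_id (by omega) x
  rw [this, mul_one]
  exact h1

/-- continuity of families with affine branches -/
theorem continuous_mkG {r : ℕ} {Y : Type*} [TopologicalSpace Y] {t1 t2 t3 b1 b2 b3 : Y → ℝ}
    (h : ∀ y, PP (t1 y) (t2 y) (t3 y) (b1 y) (b2 y) (b3 y))
    (c1 : Continuous t1) (c2 : Continuous t2) (c3 : Continuous t3)
    (e1 : Continuous b1) (e2 : Continuous b2) (e3 : Continuous b3) :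
    Continuous fun y => mkG r (h y) := by
  rw [continuous_induced_rng]
  have cj : Continuous fun _ : Y => (fun _ : Fin 4 => (idDiffeo r).jet) := continuous_const
  refine Continuous.prodMk ?_ (Continuous.prodMk ?_ cj)
  · show Continuous fun y => ![0, t1 y, t2 y, t3 y, 1]
    refine continuous_pi fun i => ?_
    fin_cases i
    · exact continuous_const
    · exact c1
    · exact c2
    · exact c3
    · exact continuous_const
  · show Continuous fun y => ![0, b1 y, b2 y, b3 y, 1]
    refine continuous_pi fun i => ?_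
    fin_cases i
    · exact continuous_const
    · exact e1
    · exact e2
    · exact e3
    · exact continuous_const

/-! ### the class of maps and the family -/

/-- the slope bounds at level zero -/
noncomputable def cst0 : Cst where
  lN := 1 / 512
  uN := 1 / 128
  lP := 2
  uP := 8
  ok := by
    refine ⟨?_, ?_, ?_, ?_, ?_, ?_, ?_⟩ <;> norm_num

/-- the maps with contracting branches `A`, `B` and expanding branches `C`, `D` -/
def TT (r : ℕ) (hr : 1 ≤ r) : Set (GK r) :=
  {T | SlopeIn 0 hr (1 / 512) (1 / 128) T} ∩ ({T | SlopeIn 1 hr (1 / 512) (1 / 128) T} ∩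
    ({T | SlopeIn 2 hr 2 8 T} ∩ {T | SlopeIn 3 hr 2 8 T}))

theorem isOpen_TT (r : ℕ) (hr : 1 ≤ r) : IsOpen (TT r hr) :=
  (isOpen_slopeIn 0 hr _ _).inter ((isOpen_slopeIn 1 hr _ _).inter
    ((isOpen_slopeIn 2 hr _ _).inter (isOpen_slopeIn 3 hr _ _)))

theorem TT_sl {r : ℕ} {hr : 1 ≤ r} {T : GK r} (h : T ∈ TT r hr) : cst0.Sl (stOf T) := by
  obtain ⟨h0, h1, h2, h3⟩ := h
  exact ⟨SlopeIn.slope (hr := hr) h0 posN (by norm_num) (by norm_num),
    SlopeIn.slope (hr := hr) h1 posN (by norm_num) (by norm_num),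
    SlopeIn.slope (hr := hr) h2 posP (by norm_num) (by norm_num),
    SlopeIn.slope (hr := hr) h3 posP (by norm_num) (by norm_num)⟩

/-- the smallest length of the first interval in the family -/
noncomputable def al : ℝ := 1 / (16 * 8 ^ (cst0.N + 2))

theorem al_pos : 0 < al := by unfold al; positivity

theorem al_le : al ≤ 1 / 16 := by
  unfold al
  have h1 : (1 : ℝ) ≤ 8 ^ (cst0.N + 2) := one_le_pow₀ (by norm_num)
  apply one_div_le_one_div_of_le (by norm_num)
  linarith

/-- length of the first interval -/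
noncomputable def fa (s : Sq) : ℝ := al + (1 / 2 - al) * (s.1 : ℝ)

/-- length of the last interval -/
noncomputable def fd (s : Sq) : ℝ := 85 / 341 * (1 / 10 + 8 / 10 * (s.2 : ℝ))

theorem fa_mem (s : Sq) : 0 < fa s ∧ fa s ≤ 1 / 2 := by
  have h1 := al_pos
  have h2 := al_le
  have h3 : (0 : ℝ) ≤ (s.1 : ℝ) := s.1.2.1
  have h4 : (s.1 : ℝ) ≤ 1 := s.1.2.2
  unfold fa
  constructor
  · have : 0 ≤ (1 / 2 - al) * (s.1 : ℝ) := mul_nonneg (by linarith) h3
    linarith
  · have : (1 / 2 - al) * (s.1 : ℝ) ≤ (1 / 2 - al) * 1 :=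
      mul_le_mul_of_nonneg_left h4 (by linarith)
    linarith

theorem fd_mem (s : Sq) : 0 < fd s ∧ fd s < 85 / 341 := by
  have h3 : (0 : ℝ) ≤ (s.2 : ℝ) := s.2.2.1
  have h4 : (s.2 : ℝ) ≤ 1 := s.2.2.2
  unfold fd
  constructor
  · linarith
  · linarith

theorem fam_pp (s : Sq) : PP (fa s) (256 / 341) (1 - fd s) (4 * fd s)
    (4 * fd s + (256 / 341 - fa s) / 256) (4 * fd s + 1 / 341) := by
  obtain ⟨h1, h2⟩ := fa_mem s
  obtain ⟨h3, h4⟩ := fd_mem s
  refine ⟨?_, ?_, ?_, ?_, ?_, ?_, ?_, ?_⟩ <;> linarith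

/-- the two-parameter family -/
noncomputable def FF (r : ℕ) : C(Sq, GK r) where
  toFun s := mkG r (fam_pp s)
  continuous_toFun := by
    have ca : Continuous fa :=
      continuous_const.add (continuous_const.mul (continuous_subtype_val.comp continuous_fst))
    have cd : Continuous fd :=
      continuous_const.mul (continuous_const.add
        (continuous_const.mul (continuous_subtype_val.comp continuous_snd)))
    exact continuous_mkG fam_pp ca continuous_const (continuous_const.sub cd)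
      (continuous_const.mul cd)
      ((continuous_const.mul cd).add ((continuous_const.sub ca).div_const _))
      ((continuous_const.mul cd).add continuous_const)

theorem FF_mem (r : ℕ) (hr : 1 ≤ r) (s : Sq) : FF r s ∈ TT r hr := by
  obtain ⟨h1, h2⟩ := fa_mem s
  obtain ⟨h3, h4⟩ := fd_mem s
  refine ⟨?_, ?_, ?_, ?_⟩
  · refine mkG_slopeIn (fam_pp s) 0 hr ?_
    show (4 * fd s + 1 / 341 - (4 * fd s + (256 / 341 - fa s) / 256)) / (fa s - 0) ∈ _
    have : (4 * fd s + 1 / 341 - (4 * fd s + (256 / 341 - fa s) / 256)) / (fa s - 0) =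
        1 / 256 := by
      rw [div_eq_iff (by linarith)]; ring
    rw [this]
    constructor <;> norm_num
  · refine mkG_slopeIn (fam_pp s) 1 hr ?_
    show (4 * fd s + (256 / 341 - fa s) / 256 - 4 * fd s) / (256 / 341 - fa s) ∈ _
    have : (4 * fd s + (256 / 341 - fa s) / 256 - 4 * fd s) / (256 / 341 - fa s) =
        1 / 256 := by
      rw [div_eq_iff (by linarith)]; ring
    rw [this]
    constructor <;> norm_num
  · refine mkG_slopeIn (fam_pp s) 2 hr ?_
    show (1 - (4 * fd s + 1 / 341)) / (1 - fd s - 256 / 341) ∈ _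
    have : (1 - (4 * fd s + 1 / 341)) / (1 - fd s - 256 / 341) = 4 := by
      rw [div_eq_iff (by linarith)]; ring
    rw [this]
    constructor <;> norm_num
  · refine mkG_slopeIn (fam_pp s) 3 hr ?_
    show (4 * fd s - 0) / (1 - (1 - fd s)) ∈ _
    have : (4 * fd s - 0) / (1 - (1 - fd s)) = 4 := by
      rw [div_eq_iff (by linarith)]; ring
    rw [this]
    constructor <;> norm_num

theorem stOf_u1 {r : ℕ} (T : GK r) : (stOf T).B (stOf T).v1 = T.b 1 := brIso_left T 1 posN

theorem stOf_u2 {r : ℕ} (T : GK r) : (stOf T).B (stOf T).v2 = T.b 2 := brIso_right T 1 posN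

theorem left_bound : (1 / 128 * al + (1 / 128) ^ cst0.M * 1) * (16 * 8 ^ (cst0.N + 2)) < 1 := by
  have h1 : (1 / 128 * al) * (16 * 8 ^ (cst0.N + 2)) = 1 / 128 := by
    unfold al
    have : (16 * (8 : ℝ) ^ (cst0.N + 2)) ≠ 0 := by positivity
    field_simp
  have h2 : (1 / 128 : ℝ) ^ cst0.M * 8 ^ (2 * (cst0.N + 2)) ≤ 1 / 32 := cst0.good.h2
  have h3 : (8 : ℝ) ^ (cst0.N + 2) ≤ 8 ^ (2 * (cst0.N + 2)) :=
    pow_le_pow_right₀ (by norm_num) (by omega)
  have h4 : (1 / 128 : ℝ) ^ cst0.M * 8 ^ (cst0.N + 2) ≤ 1 / 32 := by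
    refine le_trans ?_ h2
    gcongr
  calc (1 / 128 * al + (1 / 128) ^ cst0.M * 1) * (16 * 8 ^ (cst0.N + 2))
      = (1 / 128 * al) * (16 * 8 ^ (cst0.N + 2)) +
        16 * ((1 / 128) ^ cst0.M * 8 ^ (cst0.N + 2)) := by ring
    _ ≤ 1 / 128 + 16 * (1 / 32) := by rw [h1]; linarith
    _ < 1 := by norm_num

/-- every family close to the given one contains a map all of whose renormalisations have
non-negative lengths -/
theorem robust (r : ℕ) (hr : 1 ≤ r) : ∃ ε > 0, ∀ G : C(Sq, GK r),
    (∀ s, dist (G s) (FF r s) < ε) → ∃ s, G s ∈ TT r hr ∧ All cst0 (stOf (G s)) := by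
  have cf : CFam (stOf : GK r → St) := cfam_stOf
  -- the four open conditions
  have kc : ∀ (f : Sq → unitInterval), Continuous f → ∀ a : unitInterval,
      IsCompact {s : Sq | f s = a} := fun f hf a =>
    (isClosed_eq hf continuous_const).isCompact
  obtain ⟨e0, he0, H0⟩ := close_of_compact (FF r) isCompact_univ (isOpen_TT r hr)
    (fun s _ => FF_mem r hr s)
  obtain ⟨e1, he1, H1⟩ := close_of_compact (FF r) (kc _ continuous_snd 0)
    (W := {T : GK r | T.b 2 < T.t 2}) (isOpen_lt (continuous_b 2) (continuous_t 2)) (by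
      intro s hs
      have h2 : ((s.2 : unitInterval) : ℝ) = 0 := by rw [show s.2 = 0 from hs]; rfl
      obtain ⟨a1, a2⟩ := fa_mem s
      show 4 * fd s + (256 / 341 - fa s) / 256 < 256 / 341
      unfold fd
      rw [h2]
      linarith)
  obtain ⟨e2, he2, H2⟩ := close_of_compact (FF r) (kc _ continuous_snd 1)
    (W := {T : GK r | T.t 2 < T.b 1}) (isOpen_lt (continuous_t 2) (continuous_b 1)) (by
      intro s hs
      have h2 : ((s.2 : unitInterval) : ℝ) = 1 := by rw [show s.2 = 1 from hs]; rfl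
      show 256 / 341 < 4 * fd s
      unfold fd
      rw [h2]
      norm_num)
  obtain ⟨e3, he3, H3⟩ := close_of_compact (FF r) (kc _ continuous_fst 0)
    (W := {T : GK r | (1 / 128 * T.t 1 + (1 / 128) ^ cst0.M * 1) *
      (16 * 8 ^ (cst0.N + 2)) < 1}) (isOpen_lt (((continuous_const.mul (continuous_t 1)).add
        continuous_const).mul continuous_const) continuous_const) (by
      intro s hs
      have h2 : ((s.1 : unitInterval) : ℝ) = 0 := by rw [show s.1 = 0 from hs]; rfl
      show (1 / 128 * fa s + (1 / 128) ^ cst0.M * 1) * (16 * 8 ^ (cst0.N + 2)) < 1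
      have : fa s = al := by unfold fa; rw [h2]; ring
      rw [this]
      exact left_bound)
  obtain ⟨e4, he4, H4⟩ := close_of_compact (FF r) (kc _ continuous_fst 1)
    (W := {T : GK r | 1 / 4 < T.t 1}) (isOpen_lt continuous_const (continuous_t 1)) (by
      intro s hs
      have h2 : ((s.1 : unitInterval) : ℝ) = 1 := by rw [show s.1 = 1 from hs]; rfl
      show 1 / 4 < fa s
      unfold fa
      rw [h2]
      linarith)
  obtain ⟨ε, hε, l0, l1, l2, l3, l4⟩ : ∃ ε : ℝ, 0 < ε ∧ ε ≤ e0 ∧ ε ≤ e1 ∧ ε ≤ e2 ∧ ε ≤ e3 ∧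
      ε ≤ e4 := by
    refine ⟨min e0 (min e1 (min e2 (min e3 e4))), ?_, ?_, ?_, ?_, ?_, ?_⟩
    · exact lt_min he0 (lt_min he1 (lt_min he2 (lt_min he3 he4)))
    · exact min_le_left _ _
    · exact (min_le_right _ _).trans (min_le_left _ _)
    · exact (min_le_right _ _).trans ((min_le_right _ _).trans (min_le_left _ _))
    · exact (min_le_right _ _).trans ((min_le_right _ _).trans ((min_le_right _ _).trans
        (min_le_left _ _)))
    · exact (min_le_right _ _).trans ((min_le_right _ _).trans ((min_le_right _ _).trans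
        (min_le_right _ _)))
  refine ⟨ε, hε, fun G hG => ?_⟩
  have hG0 : ∀ s, G s ∈ TT r hr := fun s =>
    H0 G (fun s => (hG s).trans_le l0) s (mem_univ s)
  have cG : CFam fun s => stOf (G s) := cf.comp G.continuous
  have sl : ∀ s, cst0.Sl (stOf (G s)) := fun s => TT_sl (hG0 s)
  obtain ⟨s, hs⟩ := exists_all cG (fun s => stOf_cl (G s)) sl PM.square
    (isClosed_eq continuous_fst continuous_const) (isClosed_eq continuous_fst continuous_const)
    (fun s hs => side_ii (stOf_cl (G s)).h2 (by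
      rw [stOf_u2]
      exact H1 G (fun s => (hG s).trans_le l1) s hs))
    (fun s hs => side_i cst0.good.hM (stOf_cl (G s)).h2 (by
      rw [stOf_u1]
      exact H2 G (fun s => (hG s).trans_le l2) s hs))
    (fun s hs ha hb => side_iv cst0.ok (stOf_cl (G s)) (sl s) ha hb (by
      have h := H3 G (fun s => (hG s).trans_le l3) s hs
      show (1 / 128 * ((G s).t 1 - 0) + (1 / 128) ^ cst0.M * (1 - 0)) *
        (16 * 8 ^ (cst0.N + 2)) < 1 - 0
      rw [sub_zero, sub_zero]
      exact h))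
    (fun s hs ha hb => side_iii cst0.ok cst0.good (stOf_cl (G s)) (sl s) ha hb (by
      have h := H4 G (fun s => (hG s).trans_le l4) s hs
      show (1 - 0) / 4 < (G s).t 1 - 0
      rw [sub_zero, sub_zero]
      exact h))
  exact ⟨s, hG0 s, hs⟩

end Pool.Agent.TH227.GE
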