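import Pool.Agent.TH227.GE.Spread

set_option autoImplicit false

/-!
Construction of the semi-conjugacies between two systems having the same combinatorics at all
levels, the second one consisting of translations.
-/

namespace Pool.Agent.TH227.GE

open Set Filter Topology

/-- translations -/
def IsTr (g : ℝ ≃o ℝ) : Prop := ∀ x y, g x - g y = x - y

theorem IsTr.mul {g h : ℝ ≃o ℝ} (hg : IsTr g) (hh : IsTr h) : IsTr (g * h) := by
  intro x y
  rw [mul_app, mul_app, hg, hh]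

theorem IsTr.pow {g : ℝ ≃o ℝ} (hg : IsTr g) (n : ℕ) : IsTr (g ^ n) := by
  induction n with
  | zero => intro x y; rfl
  | succ n ih =>
    rw [pow_succ']
    exact hg.mul ih

theorem IsTr.flip {g : ℝ ≃o ℝ} (hg : IsTr g) : IsTr (GE.flip g) := by
  intro x y
  rw [flip_apply, flip_apply]
  have := hg (-x) (-y)
  linarith

/-- states with translation branches -/
structure Tr (σ : St) : Prop where
  A : IsTr σ.A
  B : IsTr σ.B
  C : IsTr σ.C
  D : IsTr σ.D

theorem Tr.renorm {σ : St} (t : Tr σ) (M N : ℕ) : Tr (renorm M N σ) where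
  A := (((t.C.pow (N + 1)).mul (t.B.pow M)).mul t.D).flip
  B := (((t.C.pow (N + 1)).mul (t.B.pow (M + 1))).mul t.D).flip
  C := (((t.C.pow N).mul t.A).mul t.D).flip
  D := (((t.C.pow (N + 1)).mul t.A).mul t.D).flip

theorem Tr.tower {c : Cst} {σ : St} (t : Tr σ) (k : ℕ) : Tr (tower c σ k) := by
  induction k with
  | zero => exact t
  | succ k ih => exact ih.renorm _ _

theorem compare {M N : ℕ} {σ σ0 : St} (f : Fac M N σ) (t : Tr σ0) {H K : ℝ → ℝ}
    (hH : Rel σ σ0 H) (hK : Rel σ σ0 K) {ε : ℝ} (h : ∀ x ∈ Icc σ.v3 σ.q, |H x - K x| ≤ ε) :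
    ∀ x ∈ Icc σ.p σ.q, |H x - K x| ≤ ε :=
  tower_ind f h
    (fun x hx hp => by rw [hH.D x hx, hK.D x hx, t.D]; exact hp)
    (fun x hx hp => by rw [hH.A x hx, hK.A x hx, t.A]; exact hp)
    (fun x hx hp => by rw [hH.B x hx, hK.B x hx, t.B]; exact hp)
    (fun x hx hp => by rw [hH.C x hx, hK.C x hx, t.C]; exact hp)

/-! ### base maps -/

theorem exists_MC {a b a0 b0 : ℝ} (h : a < b) (h0 : a0 ≤ b0) :
    ∃ H : ℝ → ℝ, MC H a b ∧ H a = a0 ∧ H b = b0 := by
  have hb : 0 < b - a := by linarith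
  have hb0 : 0 ≤ (b0 - a0) / (b - a) := div_nonneg (by linarith) hb.le
  refine ⟨fun x => a0 + (b0 - a0) / (b - a) * (x - a), ⟨?_, ?_⟩, ?_, ?_⟩
  · intro x _ y _ hxy
    have : (b0 - a0) / (b - a) * (x - a) ≤ (b0 - a0) / (b - a) * (y - a) :=
      mul_le_mul_of_nonneg_left (by linarith) hb0
    show a0 + _ ≤ a0 + _
    linarith
  · apply Continuous.continuousOn
    fun_prop
  · simp
  · show a0 + (b0 - a0) / (b - a) * (b - a) = b0
    rw [div_mul_cancel₀ _ hb.ne']
    ring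

theorem glueE {H K : ℝ → ℝ} {a b c : ℝ} (hab : a ≤ b) (hbc : b ≤ c) (h1 : MC H a b)
    (h2 : MC K b c) (e : H b = K b) :
    ∃ G : ℝ → ℝ, MC G a c ∧ (∀ x ≤ b, G x = H x) ∧ ∀ x, b ≤ x → G x = K x := by
  refine ⟨_, h1.glue hab hbc h2 e, fun x hx => by simp [hx], fun x hx => ?_⟩
  rcases hx.eq_or_lt with h | h
  · subst h; simp [e]
  · simp [not_le.2 h]

theorem base {σ σ0 : St} (s : Str σ) (s0 : Str σ0) : ∃ H : ℝ → ℝ, Sem σ σ0 H := by
  obtain ⟨H1, m1, a1, b1⟩ := exists_MC s.h1 s0.h1.le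
  obtain ⟨H2, m2, a2, b2⟩ := exists_MC s.h2 s0.h2.le
  obtain ⟨H3, m3, a3, b3⟩ := exists_MC s.h3 s0.h3.le
  obtain ⟨H4, m4, a4, b4⟩ := exists_MC s.h4 s0.h4.le
  have o1 := s.h1
  have o2 := s.h2
  have o3 := s.h3
  have o4 := s.h4
  obtain ⟨G1, n1, c1, d1⟩ := glueE o1.le o2.le m1 m2 (by rw [b1, a2])
  obtain ⟨G2, n2, c2, d2⟩ := glueE o3.le o4.le m3 m4 (by rw [b3, a4])
  obtain ⟨G, n, c, d⟩ := glueE (by linarith : σ.p ≤ σ.v2) (by linarith : σ.v2 ≤ σ.q) n1 n2
    (by rw [d1 _ o2.le, c2 _ o3.le, b2, a3])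
  refine ⟨G, n, ?_, ?_, ?_, ?_, ?_⟩
  · rw [c _ (by linarith), c1 _ o1.le, a1]
  · rw [c _ o2.le, c1 _ le_rfl, b1]
  · rw [c _ le_rfl, d1 _ o2.le, b2]
  · rw [d _ o3.le, c2 _ le_rfl, b3]
  · rw [d _ (by linarith), d2 _ o4.le, b4]

theorem Sem.mem {σ σ0 : St} {H : ℝ → ℝ} (h : Sem σ σ0 H) {x : ℝ}
    (hx : x ∈ Icc σ.p σ.q) : H x ∈ Icc σ0.p σ0.q := by
  have hpq : σ.p ≤ σ.q := hx.1.trans hx.2
  constructor
  · rw [← h.p]; exact h.mc.mono ⟨le_rfl, hpq⟩ hx hx.1
  · rw [← h.q]; exact h.mc.mono hx ⟨hpq, le_rfl⟩ hx.2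

/-- lengths of levels of translation systems are at least halved -/
theorem half {M N : ℕ} {σ : St} (f : Fac M N σ) (t : Tr σ) :
    (renorm M N σ).q - (renorm M N σ).p ≤ (σ.q - σ.p) / 2 := by
  show - σ.v3 - - σ.q ≤ _
  have h1 := t.C σ.v3 σ.v2
  rw [σ.hq] at h1
  have h2 := f.u3v3
  have h3 := f.s.h1
  have h4 := f.s.h2
  linarith

section limit

variable {c : Cst} {σ σ0 : St}

theorem facs (hs : ∀ k, Str (tower c σ k)) (k : ℕ) :
    Fac (c.iter k).M (c.iter k).N (tower c σ k) :=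
  ⟨(c.iter k).good.hM, (c.iter k).good.hN, hs k, hs (k + 1)⟩

/-- successive approximations of the semi-conjugacies -/
noncomputable def GG (hs : ∀ k, Str (tower c σ k)) (hs0 : ∀ k, Str (tower c σ0 k)) :
    ℕ → (k : ℕ) → {H : ℝ → ℝ // Sem (tower c σ k) (tower c σ0 k) H}
  | 0, k => ⟨Classical.choose (base (hs k) (hs0 k)), Classical.choose_spec (base (hs k) (hs0 k))⟩
  | n + 1, k =>
    ⟨Classical.choose (spread (facs hs k) (GG hs hs0 n (k + 1)).2),
      (Classical.choose_spec (spread (facs hs k) (GG hs hs0 n (k + 1)).2)).1⟩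

theorem GG_rel (hs : ∀ k, Str (tower c σ k)) (hs0 : ∀ k, Str (tower c σ0 k)) (n k : ℕ) :
    Rel (tower c σ k) (tower c σ0 k) (GG hs hs0 (n + 1) k).1 :=
  (Classical.choose_spec (spread (facs hs k) (GG hs hs0 n (k + 1)).2)).2.1

theorem GG_J (hs : ∀ k, Str (tower c σ k)) (hs0 : ∀ k, Str (tower c σ0 k)) (n k : ℕ) :
    ∀ x ∈ Icc (tower c σ k).v3 (tower c σ k).q,
      (GG hs hs0 (n + 1) k).1 x = - (GG hs hs0 n (k + 1)).1 (-x) :=
  (Classical.choose_spec (spread (facs hs k) (GG hs hs0 n (k + 1)).2)).2.2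

/-- length of the interval of level `k` -/
noncomputable def Len (c : Cst) (σ : St) (k : ℕ) : ℝ := (tower c σ k).q - (tower c σ k).p

theorem Len_half (hs0 : ∀ k, Str (tower c σ0 k)) (t : Tr σ0) (k : ℕ) :
    Len c σ0 (k + 1) ≤ Len c σ0 k / 2 :=
  half (facs hs0 k) (t.tower k)

theorem Len_geom (hs0 : ∀ k, Str (tower c σ0 k)) (t : Tr σ0) (k n : ℕ) :
    Len c σ0 (k + n) ≤ Len c σ0 k / 2 ^ n := by
  induction n with
  | zero => simp
  | succ n ih =>
    have h1 := Len_half hs0 t (k + n)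
    calc Len c σ0 (k + (n + 1)) ≤ Len c σ0 (k + n) / 2 := h1
      _ ≤ Len c σ0 k / 2 ^ n / 2 := by linarith
      _ = Len c σ0 k / 2 ^ (n + 1) := by rw [pow_succ]; field_simp

theorem GG_diff (hs : ∀ k, Str (tower c σ k)) (hs0 : ∀ k, Str (tower c σ0 k)) (t : Tr σ0)
    (n : ℕ) : ∀ k, ∀ x ∈ Icc (tower c σ k).p (tower c σ k).q,
      |(GG hs hs0 (n + 1) k).1 x - (GG hs hs0 n k).1 x| ≤ Len c σ0 (k + n) := by
  induction n with
  | zero =>
    intro k x hx
    have h1 := (GG hs hs0 (0 + 1) k).2.mem hx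
    have h2 := (GG hs hs0 0 k).2.mem hx
    rw [abs_le, add_zero]
    unfold Len
    constructor
    · linarith [h1.1, h2.2]
    · linarith [h1.2, h2.1]
  | succ n ih =>
    intro k
    refine compare (facs hs k) (t.tower k) (GG_rel hs hs0 (n + 1) k) (GG_rel hs hs0 n k) ?_
    intro x hx
    rw [GG_J hs hs0 (n + 1) k x hx, GG_J hs hs0 n k x hx]
    have hm : -x ∈ Icc (tower c σ (k + 1)).p (tower c σ (k + 1)).q :=
      ⟨neg_le_neg hx.2, neg_le_neg hx.1⟩
    have h1 := ih (k + 1) (-x) hm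
    have h2 : k + 1 + n = k + (n + 1) := by omega
    rw [h2] at h1
    rw [show -(GG hs hs0 (n + 1) (k + 1)).1 (-x) - -(GG hs hs0 n (k + 1)).1 (-x) =
      -((GG hs hs0 (n + 1) (k + 1)).1 (-x) - (GG hs hs0 n (k + 1)).1 (-x)) by ring, abs_neg]
    exact h1

theorem exists_limit (hs : ∀ k, Str (tower c σ k)) (hs0 : ∀ k, Str (tower c σ0 k))
    (t : Tr σ0) :
    ∃ H : ℕ → ℝ → ℝ, (∀ k, Sem (tower c σ k) (tower c σ0 k) (H k)) ∧
      (∀ k, Rel (tower c σ k) (tower c σ0 k) (H k)) ∧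
      ∀ k, ∀ x ∈ Icc (tower c σ k).v3 (tower c σ k).q, H k x = - H (k + 1) (-x) := by
  have hgeo : ∀ k, ∀ x ∈ Icc (tower c σ k).p (tower c σ k).q, ∀ n,
      dist ((GG hs hs0 n k).1 x) ((GG hs hs0 (n + 1) k).1 x) ≤
        (2 * Len c σ0 k) / 2 / 2 ^ n := by
    intro k x hx n
    rw [dist_comm, Real.dist_eq]
    have h1 := GG_diff hs hs0 t n k x hx
    have h2 := Len_geom hs0 t k n
    have h3 : 2 * Len c σ0 k / 2 = Len c σ0 k := by ring
    rw [h3]
    linarith
  have hcon : ∀ k, ∀ x ∈ Icc (tower c σ k).p (tower c σ k).q, ∃ l,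
      Tendsto (fun n => (GG hs hs0 n k).1 x) atTop (𝓝 l) := fun k x hx =>
    cauchySeq_tendsto_of_complete (cauchySeq_of_le_geometric_two (hgeo k x hx))
  obtain ⟨H, hH⟩ : ∃ H : ℕ → ℝ → ℝ, ∀ k x, H k x =
      limUnder atTop (fun n => (GG hs hs0 n k).1 x) :=
    ⟨fun k x => limUnder atTop (fun n => (GG hs hs0 n k).1 x), fun _ _ => rfl⟩
  have hT : ∀ k, ∀ x ∈ Icc (tower c σ k).p (tower c σ k).q,
      Tendsto (fun n => (GG hs hs0 n k).1 x) atTop (𝓝 (H k x)) := by
    intro k x hx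
    rw [hH]
    exact tendsto_nhds_limUnder (hcon k x hx)
  have hT1 : ∀ k, ∀ x ∈ Icc (tower c σ k).p (tower c σ k).q,
      Tendsto (fun n => (GG hs hs0 (n + 1) k).1 x) atTop (𝓝 (H k x)) := fun k x hx =>
    (hT k x hx).comp (tendsto_add_atTop_nat 1)
  have o1 := fun k => (facs hs k).s.h1
  have o2 := fun k => (facs hs k).s.h2
  have o3 := fun k => (facs hs k).s.h3
  have o4 := fun k => (facs hs k).s.h4
  have val : ∀ k x y, x ∈ Icc (tower c σ k).p (tower c σ k).q →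
      (∀ n, (GG hs hs0 n k).1 x = y) → H k x = y := by
    intro k x y hx h
    have h1 := hT k x hx
    simp only [h] at h1
    exact tendsto_nhds_unique h1 tendsto_const_nhds
  have rel : ∀ k, ∀ (g g0 : ℝ ≃o ℝ) (x : ℝ), x ∈ Icc (tower c σ k).p (tower c σ k).q →
      g x ∈ Icc (tower c σ k).p (tower c σ k).q →
      (∀ n, (GG hs hs0 (n + 1) k).1 (g x) = g0 ((GG hs hs0 (n + 1) k).1 x)) →
      H k (g x) = g0 (H k x) := by
    intro k g g0 x hx hgx h
    have h1 := hT1 k (g x) hgx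
    have h2 := (g0.continuous.tendsto (H k x)).comp (hT1 k x hx)
    refine tendsto_nhds_unique h1 ?_
    refine h2.congr ?_
    intro n
    exact (h n).symm
  refine ⟨H, ?_, ?_, ?_⟩
  · intro k
    have q1 := o1 k
    have q2 := o2 k
    have q3 := o3 k
    have q4 := o4 k
    refine ⟨⟨?_, ?_⟩, ?_, ?_, ?_, ?_, ?_⟩
    · intro x hx y hy hxy
      exact le_of_tendsto_of_tendsto' (hT k x hx) (hT k y hy)
        fun n => (GG hs hs0 n k).2.mc.mono hx hy hxy
    · have hu : TendstoUniformlyOn (fun n x => (GG hs hs0 n k).1 x) (H k) atTop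
          (Icc (tower c σ k).p (tower c σ k).q) := by
        rw [Metric.tendstoUniformlyOn_iff]
        intro ε hε
        have h0 : Tendsto (fun n : ℕ => 2 * Len c σ0 k / 2 ^ n) atTop (𝓝 0) := by
          have := (tendsto_pow_atTop_nhds_zero_of_lt_one (by norm_num : (0 : ℝ) ≤ 1 / 2)
            (by norm_num : (1 / 2 : ℝ) < 1)).const_mul (2 * Len c σ0 k)
          rw [mul_zero] at this
          refine this.congr ?_
          intro n
          rw [div_pow, one_pow]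
          ring
        filter_upwards [(tendsto_order.1 h0).2 ε hε] with n hn x hx
        rw [dist_comm]
        exact lt_of_le_of_lt (dist_le_of_le_geometric_two_of_tendsto (hgeo k x hx)
          (hT k x hx) n) hn
      exact hu.continuousOn (Eventually.frequently (Eventually.of_forall
        fun n => (GG hs hs0 n k).2.mc.cont))
    · exact val k _ _ ⟨le_rfl, by linarith⟩ fun n => (GG hs hs0 n k).2.p
    · exact val k _ _ ⟨by linarith, by linarith⟩ fun n => (GG hs hs0 n k).2.v1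
    · exact val k _ _ ⟨by linarith, by linarith⟩ fun n => (GG hs hs0 n k).2.v2
    · exact val k _ _ ⟨by linarith, by linarith⟩ fun n => (GG hs hs0 n k).2.v3
    · exact val k _ _ ⟨by linarith, by linarith⟩ fun n => (GG hs hs0 n k).2.q
  · intro k
    have q1 := o1 k
    have q2 := o2 k
    have q3 := o3 k
    have q4 := o4 k
    have f := facs hs k
    have q5 := f.v1u1
    have q6 := f.u1v2
    have q7 := f.v2u2
    have q8 := f.u2u3
    have q9 := f.u3v3
    refine ⟨?_, ?_, ?_, ?_⟩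
    · intro x hx
      refine rel k _ _ x ⟨by linarith [hx.1], by linarith [hx.2]⟩ ⟨?_, ?_⟩
        fun n => (GG_rel hs hs0 n k).D x hx
      · rw [← (tower c σ k).hD]; exact (tower c σ k).D.monotone hx.1
      · have := (tower c σ k).D.monotone hx.2
        rw [← (tower c σ k).hB] at this
        linarith
    · intro x hx
      refine rel k _ _ x ⟨by linarith [hx.1], by linarith [hx.2]⟩ ⟨?_, ?_⟩
        fun n => (GG_rel hs hs0 n k).A x hx
      · have := (tower c σ k).A.monotone hx.1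
        rw [(tower c σ k).hA] at this
        linarith
      · have := (tower c σ k).A.monotone hx.2
        rw [← (tower c σ k).hC] at this
        linarith
    · intro x hx
      refine rel k _ _ x ⟨by linarith [hx.1], by linarith [hx.2]⟩ ⟨?_, ?_⟩
        fun n => (GG_rel hs hs0 n k).B x hx
      · have := (tower c σ k).B.monotone hx.1
        linarith
      · have := (tower c σ k).B.monotone hx.2
        linarith
    · intro x hx
      have h1 : (tower c σ k).C x ≤ (tower c σ k).v3 :=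
        (OrderIso.le_symm_apply (tower c σ k).C).1 hx.2
      have h2 : (tower c σ k).C.symm (tower c σ k).v3 ≤ (tower c σ k).v3 := by
        rw [OrderIso.symm_apply_le, (tower c σ k).hq]; exact q4.le
      refine rel k _ _ x ⟨by linarith [hx.1], by linarith [hx.2]⟩ ⟨?_, by linarith⟩
        fun n => (GG_rel hs hs0 n k).C x hx
      have := (tower c σ k).C.monotone hx.1
      linarith
  · intro k x hx
    have q1 := o1 k
    have q2 := o2 k
    have q3 := o3 k
    have hm : -x ∈ Icc (tower c σ (k + 1)).p (tower c σ (k + 1)).q :=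
      ⟨neg_le_neg hx.2, neg_le_neg hx.1⟩
    have h1 := hT1 k x ⟨by linarith [hx.1], hx.2⟩
    have h2 := (hT (k + 1) (-x) hm).neg
    refine tendsto_nhds_unique h1 (h2.congr ?_)
    intro n
    exact (GG_J hs hs0 n k x hx).symm

end limit

/-! ### equivariance on the remaining part -/

theorem err_step {M N : ℕ} {σ σ0 : St} (f : Fac M N σ) {H H' : ℝ → ℝ}
    (r : Rel σ σ0 H) (r' : Rel (renorm M N σ) (renorm M N σ0) H')
    (hJ : ∀ x ∈ Icc σ.v3 σ.q, H x = - H' (-x)) {ε : ℝ} (hε : 0 ≤ ε)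
    (he : ∀ x ∈ Icc (renorm M N σ).v2 (renorm M N σ).v3,
      |H' ((renorm M N σ).C x) - (renorm M N σ0).C (H' x)| ≤ ε) :
    ∀ x ∈ Icc σ.v2 σ.v3, |H (σ.C x) - σ0.C (H x)| ≤ ε := by
  intro x hx
  rcases le_total x (σ.C.symm σ.v3) with hx3 | hx3
  · rw [r.C x ⟨hx.1, hx3⟩, sub_self, abs_zero]; exact hε
  have o1 := f.s.h1
  have o2 := f.s.h2
  have o3 := f.s.h3
  have o4 := f.s.h4
  have o5 := f.v1u1
  have o6 := f.u1v2
  have o7 := f.v2u2
  have o8 := f.u2u3
  have o9 := f.u3v3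
  have c1 := f.c1
  have c2 := f.c2
  have hCx : σ.C x ∈ Icc σ.v3 σ.q := by
    constructor
    · rwa [OrderIso.symm_apply_le] at hx3
    · rw [← σ.hq]; exact σ.C.monotone hx.2
  -- reduction to the next level
  have red : ∀ (R R0 : ℝ ≃o ℝ) (y : ℝ), y ∈ Icc σ.v3 σ.q → σ.C x = R y →
      σ0.C (H x) = R0 (H y) → |H' (GE.flip R (-y)) - GE.flip R0 (H' (-y))| ≤ ε →
      |H (σ.C x) - σ0.C (H x)| ≤ ε := by
    intro R R0 y hy h1 h2 h3
    rw [h2, hJ y hy, hJ _ hCx, h1]
    rw [flip_apply, flip_apply, neg_neg] at h3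
    rw [show - H' (-R y) - R0 (- H' (-y)) = - (H' (-R y) - - R0 (- H' (-y))) by ring, abs_neg]
    exact h3
  have relCpow : ∀ (j : ℕ) (z : ℝ), σ.v2 ≤ z → z ≤ σ.v3 → (σ.C ^ j) z ≤ σ.v3 →
      H ((σ.C ^ j) z) = (σ0.C ^ j) (H z) := fun j z h1 h2 h3 =>
    rel_pow r.C h1 (f.upC h1 h2) (by rw [OrderIso.apply_symm_apply]; exact h3)
  have relBpow : ∀ (j : ℕ) (z : ℝ), σ.v1 ≤ z → z ≤ σ.v2 → (σ.B ^ j) z ≤ σ.B σ.v2 →
      H ((σ.B ^ j) z) = (σ0.B ^ j) (H z) := fun j z h1 h2 h3 =>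
    rel_pow r.B h1 (f.upB h1 h2) h3
  have hy2 : ∀ y, y ≤ σ.B σ.v1 → σ.p ≤ y → σ.D.symm y ∈ Icc σ.v3 σ.q := by
    intro y h1 h2
    constructor
    · rw [OrderIso.le_symm_apply, σ.hD]; exact h2
    · rw [OrderIso.symm_apply_le, ← σ.hB]; exact h1
  rcases le_total x ((σ.C ^ N) σ.v2) with hc | hc
  · -- the point comes from the branch `C'`
    obtain ⟨n, rfl⟩ : ∃ n, N = n + 1 := ⟨N - 1, by have := f.hN; omega⟩
    set z := (σ.C ^ n).symm x with hz
    have hxz : (σ.C ^ n) z = x := by rw [hz, OrderIso.apply_symm_apply]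
    have z1 : (σ.C ^ (n + 1)).symm σ.v3 ≤ z := by
      rw [OrderIso.symm_apply_le, pow_succ_app, hxz]; exact hCx.1
    have z2 : z ≤ σ.C σ.v2 := by
      rw [hz, OrderIso.symm_apply_le, ← pow_succ_app']; exact hc
    set a := σ.A.symm z with ha
    have haz : σ.A a = z := by rw [ha, OrderIso.apply_symm_apply]
    have a1 : σ.A.symm ((σ.C ^ (n + 1)).symm σ.v3) ≤ a := σ.A.symm.monotone z1
    have a2 : a ≤ σ.v1 := by rw [ha, OrderIso.symm_apply_le, ← σ.hC]; exact z2
    have a0 : σ.p ≤ a := by rw [ha, OrderIso.le_symm_apply, σ.hA]; linarith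
    set y := σ.D.symm a with hy
    have hya : σ.D y = a := by rw [hy, OrderIso.apply_symm_apply]
    have ym : y ∈ Icc σ.v3 σ.q := hy2 a (by linarith) a0
    have hHx : H x = (σ0.C ^ n) (σ0.A (σ0.D (H y))) := by
      rw [← hxz, relCpow n z (by linarith) (by linarith) (by rw [hxz]; exact hx.2), ← haz,
        r.A a ⟨a0, a2⟩, ← hya, r.D y ym]
    refine red (σ.C ^ (n + 1) * σ.A * σ.D) (σ0.C ^ (n + 1) * σ0.A * σ0.D) y ym ?_ ?_ ?_
    · rw [mul_app, mul_app, hya, haz, pow_succ_app, hxz]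
    · rw [mul_app, mul_app, hHx, pow_succ_app]
    · refine he (-y) ⟨?_, ?_⟩
      · exact neg_le_neg (σ.D.symm.monotone a2)
      · exact neg_le_neg (σ.D.symm.monotone a1)
  set z := (σ.C ^ N).symm x with hz
  have hxz : (σ.C ^ N) z = x := by rw [hz, OrderIso.apply_symm_apply]
  have z1 : σ.v2 ≤ z := by rw [hz, OrderIso.le_symm_apply]; exact hc
  have z2 : z ≤ (σ.C ^ N).symm σ.v3 := (σ.C ^ N).symm.monotone hx.2
  have hHx : H x = (σ0.C ^ N) (H z) := by
    rw [← hxz, relCpow N z z1 (by linarith) (by rw [hxz]; exact hx.2)]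
  have hCxz : σ.C x = (σ.C ^ (N + 1)) z := by rw [pow_succ_app, hxz]
  rcases le_total z ((σ.B ^ (M + 1)) σ.v1) with hb | hb
  · -- the point comes from the branch `A'`
    set a := (σ.B ^ M).symm z with ha
    have haz : (σ.B ^ M) a = z := by rw [ha, OrderIso.apply_symm_apply]
    have a1 : (σ.B ^ M).symm σ.v2 ≤ a := (σ.B ^ M).symm.monotone z1
    have a2 : a ≤ σ.B σ.v1 := by rw [ha, OrderIso.symm_apply_le, ← pow_succ_app']; exact hb
    have w1 := f.w1_mem.1
    set y := σ.D.symm a with hy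
    have hya : σ.D y = a := by rw [hy, OrderIso.apply_symm_apply]
    have ym : y ∈ Icc σ.v3 σ.q := hy2 a a2 (by linarith)
    have hzu : z ≤ σ.B σ.v2 := by
      rw [pow_succ_app] at hb
      exact hb.trans (σ.B.monotone f.b1.le)
    have hHz : H z = (σ0.B ^ M) (σ0.D (H y)) := by
      rw [← haz, relBpow M a (by linarith) (by linarith) (by rw [haz]; exact hzu), ← hya,
        r.D y ym]
    have ma : -y ∈ Icc (renorm M N σ).p (renorm M N σ).v1 :=
      ⟨neg_le_neg ym.2, neg_le_neg (σ.D.symm.monotone a1)⟩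
    have hr := r'.A (-y) ma
    refine red (σ.C ^ (N + 1) * σ.B ^ M * σ.D) (σ0.C ^ (N + 1) * σ0.B ^ M * σ0.D) y ym ?_ ?_ ?_
    · rw [mul_app, mul_app, hya, haz, hCxz]
    · rw [mul_app, mul_app, hHx, pow_succ_app, hHz]
    · have hr2 : H' (GE.flip (σ.C ^ (N + 1) * σ.B ^ M * σ.D) (-y)) =
        GE.flip (σ0.C ^ (N + 1) * σ0.B ^ M * σ0.D) (H' (-y)) := hr
      rw [hr2, sub_self, abs_zero]; exact hε
  rcases le_total z (σ.B σ.v2) with hb2 | hb2
  · -- the point comes from the branch `B'`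
    set a := (σ.B ^ (M + 1)).symm z with ha
    have haz : (σ.B ^ (M + 1)) a = z := by rw [ha, OrderIso.apply_symm_apply]
    have a1 : σ.v1 ≤ a := by rw [ha, OrderIso.le_symm_apply]; exact hb
    have a2 : a ≤ (σ.B ^ M).symm σ.v2 := by
      rw [ha, OrderIso.symm_apply_le, pow_succ_app, OrderIso.apply_symm_apply]; exact hb2
    have w1 := f.w1_mem.2
    set y := σ.D.symm a with hy
    have hya : σ.D y = a := by rw [hy, OrderIso.apply_symm_apply]
    have ym : y ∈ Icc σ.v3 σ.q := hy2 a (by linarith) (by linarith)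
    have hHz : H z = (σ0.B ^ (M + 1)) (σ0.D (H y)) := by
      rw [← haz, relBpow (M + 1) a a1 (by linarith) (by rw [haz]; exact hb2), ← hya,
        r.D y ym]
    have ma : -y ∈ Icc (renorm M N σ).v1 (renorm M N σ).v2 :=
      ⟨neg_le_neg (σ.D.symm.monotone a2), neg_le_neg (σ.D.symm.monotone a1)⟩
    have hr := r'.B (-y) ma
    refine red (σ.C ^ (N + 1) * σ.B ^ (M + 1) * σ.D) (σ0.C ^ (N + 1) * σ0.B ^ (M + 1) * σ0.D)
      y ym ?_ ?_ ?_
    · rw [mul_app, mul_app, hya, haz, hCxz]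
    · rw [mul_app, mul_app, hHx, pow_succ_app, hHz]
    · have hr2 : H' (GE.flip (σ.C ^ (N + 1) * σ.B ^ (M + 1) * σ.D) (-y)) =
        GE.flip (σ0.C ^ (N + 1) * σ0.B ^ (M + 1) * σ0.D) (H' (-y)) := hr
      rw [hr2, sub_self, abs_zero]; exact hε
  · -- the point comes from the branch `D'`
    set a := σ.A.symm z with ha
    have haz : σ.A a = z := by rw [ha, OrderIso.apply_symm_apply]
    have a1 : a ≤ σ.A.symm ((σ.C ^ N).symm σ.v3) := σ.A.symm.monotone z2
    have a0 : σ.p ≤ a := by rw [ha, OrderIso.le_symm_apply, σ.hA]; exact hb2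
    have a2 : a ≤ σ.v1 := by rw [ha, OrderIso.symm_apply_le, ← σ.hC]; linarith
    set y := σ.D.symm a with hy
    have hya : σ.D y = a := by rw [hy, OrderIso.apply_symm_apply]
    have ym : y ∈ Icc σ.v3 σ.q := hy2 a (by linarith) a0
    have hHz : H z = σ0.A (σ0.D (H y)) := by
      rw [← haz, r.A a ⟨a0, a2⟩, ← hya, r.D y ym]
    have ma : -y ∈ Icc (renorm M N σ).v3 (renorm M N σ).q :=
      ⟨neg_le_neg (σ.D.symm.monotone a1), neg_le_neg ym.1⟩
    have hr := r'.D (-y) ma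
    refine red (σ.C ^ (N + 1) * σ.A * σ.D) (σ0.C ^ (N + 1) * σ0.A * σ0.D) y ym ?_ ?_ ?_
    · rw [mul_app, mul_app, hya, haz, hCxz]
    · rw [mul_app, mul_app, hHx, pow_succ_app, hHz]
    · have hr2 : H' (GE.flip (σ.C ^ (N + 1) * σ.A * σ.D) (-y)) =
        GE.flip (σ0.C ^ (N + 1) * σ0.A * σ0.D) (H' (-y)) := hr
      rw [hr2, sub_self, abs_zero]; exact hε

/-- full equivariance -/
structure RelF (σ σ0 : St) (H : ℝ → ℝ) : Prop where
  D : ∀ x ∈ Icc σ.v3 σ.q, H (σ.D x) = σ0.D (H x)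
  A : ∀ x ∈ Icc σ.p σ.v1, H (σ.A x) = σ0.A (H x)
  B : ∀ x ∈ Icc σ.v1 σ.v2, H (σ.B x) = σ0.B (H x)
  C : ∀ x ∈ Icc σ.v2 σ.v3, H (σ.C x) = σ0.C (H x)

theorem exists_semi {c : Cst} {σ σ0 : St} (hs : ∀ k, Str (tower c σ k))
    (hs0 : ∀ k, Str (tower c σ0 k)) (t : Tr σ0) :
    ∃ H : ℕ → ℝ → ℝ, (∀ k, Sem (tower c σ k) (tower c σ0 k) (H k)) ∧
      (∀ k, RelF (tower c σ k) (tower c σ0 k) (H k)) ∧
      ∀ k, ∀ x ∈ Icc (tower c σ k).v3 (tower c σ k).q, H k x = - H (k + 1) (-x) := by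
  obtain ⟨H, h1, h2, h3⟩ := exists_limit hs hs0 t
  have hL : ∀ k, 0 ≤ Len c σ0 k := by
    intro k
    have a1 := (hs0 k).h1
    have a2 := (hs0 k).h2
    have a3 := (hs0 k).h3
    have a4 := (hs0 k).h4
    unfold Len
    linarith
  have key : ∀ n k, ∀ x ∈ Icc (tower c σ k).v2 (tower c σ k).v3,
      |H k ((tower c σ k).C x) - (tower c σ0 k).C (H k x)| ≤ Len c σ0 (k + n) := by
    intro n
    induction n with
    | zero =>
      intro k x hx
      have q1 := (hs k).h1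
      have q2 := (hs k).h2
      have q3 := (hs k).h3
      have q4 := (hs k).h4
      have f := facs hs k
      have f0 := facs hs0 k
      have p1 := (hs0 k).h1
      have p2 := (hs0 k).h2
      have hx' : x ∈ Icc (tower c σ k).p (tower c σ k).q := ⟨by linarith [hx.1], by
        linarith [hx.2]⟩
      have m1 : (tower c σ k).C x ∈ Icc (tower c σ k).p (tower c σ k).q := by
        constructor
        · have := (tower c σ k).C.monotone hx.1
          have := f.v2u3
          linarith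
        · rw [← (tower c σ k).hq]; exact (tower c σ k).C.monotone hx.2
      have m2 := (h1 k).mem m1
      have m3 : (tower c σ0 k).C (H k x) ∈ Icc (tower c σ0 k).p (tower c σ0 k).q := by
        constructor
        · have e1 : (tower c σ0 k).v2 ≤ H k x := by
            rw [← (h1 k).v2]
            exact (h1 k).mc.mono ⟨by linarith, by linarith⟩ hx' hx.1
          have e2 := (tower c σ0 k).C.monotone e1
          have := f0.v2u3
          linarith
        · have e1 : H k x ≤ (tower c σ0 k).v3 := by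
            rw [← (h1 k).v3]
            exact (h1 k).mc.mono hx' ⟨by linarith, by linarith⟩ hx.2
          rw [← (tower c σ0 k).hq]
          exact (tower c σ0 k).C.monotone e1
      rw [add_zero, abs_le]
      unfold Len
      constructor
      · linarith [m2.1, m3.2]
      · linarith [m2.2, m3.1]
    | succ n ih =>
      intro k
      have h4 := ih (k + 1)
      have h5 : k + 1 + n = k + (n + 1) := by omega
      rw [h5] at h4
      exact err_step (facs hs k) (h2 k) (h2 (k + 1)) (h3 k) (hL _) h4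
  refine ⟨H, h1, ?_, h3⟩
  intro k
  refine ⟨(h2 k).D, (h2 k).A, (h2 k).B, ?_⟩
  intro x hx
  have hlim : Tendsto (fun n : ℕ => Len c σ0 k / 2 ^ n) atTop (𝓝 0) := by
    have := (tendsto_pow_atTop_nhds_zero_of_lt_one (by norm_num : (0 : ℝ) ≤ 1 / 2)
      (by norm_num : (1 / 2 : ℝ) < 1)).const_mul (Len c σ0 k)
    rw [mul_zero] at this
    refine this.congr ?_
    intro n
    rw [div_pow, one_pow]
    ring
  have hle : |H k ((tower c σ k).C x) - (tower c σ0 k).C (H k x)| ≤ 0 :=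
    ge_of_tendsto' hlim fun n => (key n k x hx).trans (Len_geom hs0 t k n)
  exact sub_eq_zero.1 (abs_nonpos_iff.1 hle)

end Pool.Agent.TH227.GE
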