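import Pool.Agent.TH227.GE.Seq
import Pool.Agent.TH227.GE.Semi

set_option autoImplicit false

/-!
Translation states: their renormalisation and the absence of connections.
-/

namespace Pool.Agent.TH227.GE

open Set Filter Topology

/-- translation by `t` -/
def tr (t : ℝ) : ℝ ≃o ℝ where
  toFun x := x + t
  invFun x := x - t
  left_inv x := by simp
  right_inv x := by simp
  map_rel_iff' := by intro a b; simp

theorem tr_app (t x : ℝ) : tr t x = x + t := rfl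

theorem tr_symm (t x : ℝ) : (tr t).symm x = x - t := rfl

theorem tr_isTr (t : ℝ) : IsTr (tr t) := by
  intro x y
  rw [tr_app, tr_app]; ring

theorem tr_mul (s t : ℝ) : tr s * tr t = tr (t + s) := by
  ext x
  rw [mul_app, tr_app, tr_app, tr_app]; ring

theorem tr_pow (t : ℝ) (n : ℕ) : tr t ^ n = tr (n * t) := by
  induction n with
  | zero => ext x; simp [tr_app, RelIso.one_apply]
  | succ n ih => rw [pow_succ, ih, tr_mul]; congr 1; push_cast; ring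

theorem tr_flip (t : ℝ) : flip (tr t) = tr (-t) := by
  ext x
  rw [flip_apply, tr_app, tr_app]; ring

/-- the state with translation branches and given lengths -/
def std (p : ℝ) (l : Vec) : St where
  p := p
  q := p + l.1 + l.2.1 + l.2.2.1 + l.2.2.2
  v1 := p + l.1
  v2 := p + l.1 + l.2.1
  v3 := p + l.1 + l.2.1 + l.2.2.1
  A := tr (l.2.2.2 + l.2.1)
  B := tr (l.2.2.2 - l.1)
  C := tr l.2.2.2
  D := tr (-(l.1 + l.2.1 + l.2.2.1))
  hD := by rw [tr_app]; ring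
  hA := by rw [tr_app, tr_app]; ring
  hB := by rw [tr_app, tr_app]; ring
  hC := by rw [tr_app, tr_app]; ring
  hq := by rw [tr_app]

theorem std_tr (p : ℝ) (l : Vec) : Tr (std p l) :=
  ⟨tr_isTr _, tr_isTr _, tr_isTr _, tr_isTr _⟩

theorem std_str {p : ℝ} {l : Vec} (h : Pos l) : Str (std p l) := by
  obtain ⟨h1, h2, h3, h4⟩ := h
  refine ⟨?_, ?_, ?_, ?_⟩
  · show p < p + l.1; linarith
  · show p + l.1 < p + l.1 + l.2.1; linarith
  · show p + l.1 + l.2.1 < p + l.1 + l.2.1 + l.2.2.1; linarith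
  · show p + l.1 + l.2.1 + l.2.2.1 < p + l.1 + l.2.1 + l.2.2.1 + l.2.2.2; linarith

theorem St.ext' {σ τ : St} (h1 : σ.p = τ.p) (h2 : σ.q = τ.q) (h3 : σ.v1 = τ.v1)
    (h4 : σ.v2 = τ.v2) (h5 : σ.v3 = τ.v3) (h6 : σ.A = τ.A) (h7 : σ.B = τ.B) (h8 : σ.C = τ.C)
    (h9 : σ.D = τ.D) : σ = τ := by
  cases σ; cases τ
  simp only at h1 h2 h3 h4 h5 h6 h7 h8 h9
  subst h1 h2 h3 h4 h5 h6 h7 h8 h9
  rfl

theorem renorm_std (M N : ℕ) (p : ℝ) (l : Vec) :
    renorm M N (std p (KM M N l)) = std (-(p + tot (KM M N l))) l := by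
  refine St.ext' ?_ ?_ ?_ ?_ ?_ ?_ ?_ ?_ ?_
  · show -(std p (KM M N l)).q = -(p + tot (KM M N l))
    show -(p + (KM M N l).1 + (KM M N l).2.1 + (KM M N l).2.2.1 + (KM M N l).2.2.2) = _
    unfold tot; ring
  · show -(p + (KM M N l).1 + (KM M N l).2.1 + (KM M N l).2.2.1) =
      -(p + tot (KM M N l)) + l.1 + l.2.1 + l.2.2.1 + l.2.2.2
    simp only [tot, KM]; ring
  · show -(std p (KM M N l)).D.symm (((std p (KM M N l)).B ^ M).symm (std p (KM M N l)).v2) =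
      -(p + tot (KM M N l)) + l.1
    show -(tr _).symm ((tr _ ^ M).symm _) = _
    rw [tr_pow, tr_symm, tr_symm]
    show -(p + (KM M N l).1 + (KM M N l).2.1 - _ - _) = _
    simp only [tot, KM]; ring
  · show -(tr _).symm (std p (KM M N l)).v1 = _
    rw [tr_symm]
    show -(p + (KM M N l).1 - _) = -(p + tot (KM M N l)) + l.1 + l.2.1
    simp only [tot, KM]; ring
  · show -(tr _).symm ((tr _).symm ((tr _ ^ N).symm (std p (KM M N l)).v3)) = _
    rw [tr_pow, tr_symm, tr_symm, tr_symm]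
    show -(p + (KM M N l).1 + (KM M N l).2.1 + (KM M N l).2.2.1 - _ - _ - _) =
      -(p + tot (KM M N l)) + l.1 + l.2.1 + l.2.2.1
    simp only [tot, KM]; ring
  · show flip (tr _ ^ (N + 1) * tr _ ^ M * tr _) = tr (l.2.2.2 + l.2.1)
    rw [tr_pow, tr_pow, tr_mul, tr_mul, tr_flip]
    congr 1
    simp only [KM]; push_cast; ring
  · show flip (tr _ ^ (N + 1) * tr _ ^ (M + 1) * tr _) = tr (l.2.2.2 - l.1)
    rw [tr_pow, tr_pow, tr_mul, tr_mul, tr_flip]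
    congr 1
    simp only [KM]; push_cast; ring
  · show flip (tr _ ^ N * tr _ * tr _) = tr l.2.2.2
    rw [tr_pow, tr_mul, tr_mul, tr_flip]
    congr 1
    simp only [KM]; ring
  · show flip (tr _ ^ (N + 1) * tr _ * tr _) = tr (-(l.1 + l.2.1 + l.2.2.1))
    rw [tr_pow, tr_mul, tr_mul, tr_flip]
    congr 1
    simp only [KM]; push_cast; ring

theorem tower_std {c : Cst} {x : ℕ → Vec}
    (hx : ∀ k, x k = KM (c.iter k).M (c.iter k).N (x (k + 1))) (p : ℝ) (k : ℕ) :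
    ∃ pk : ℝ, tower c (std p (x 0)) k = std pk (x k) := by
  induction k with
  | zero => exact ⟨p, rfl⟩
  | succ k ih =>
    obtain ⟨pk, hk⟩ := ih
    refine ⟨-(pk + tot (KM (c.iter k).M (c.iter k).N (x (k + 1)))), ?_⟩
    show renorm (c.iter k).M (c.iter k).N (tower c (std p (x 0)) k) = _
    rw [hk, ← renorm_std, ← hx k]

/-- the lengths of the standard interval exchange map -/
theorem exists_std (c : Cst) : ∃ x : ℕ → Vec, (∀ k, Pos (x k)) ∧ tot (x 0) = 1 ∧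
    (∀ k, x k = KM (c.iter k).M (c.iter k).N (x (k + 1))) := by
  obtain ⟨x, h1, h2, h3⟩ := exists_seq (fun k => (c.iter k).M) (fun k => (c.iter k).N)
    (fun k => (c.iter k).good.hM) (fun k => (c.iter k).good.hN)
  exact ⟨x, h2, h3, h1⟩

theorem std_tower_str {c : Cst} {x : ℕ → Vec} (hp : ∀ k, Pos (x k))
    (hx : ∀ k, x k = KM (c.iter k).M (c.iter k).N (x (k + 1))) (p : ℝ) (k : ℕ) :
    Str (tower c (std p (x 0)) k) := by
  obtain ⟨pk, hk⟩ := tower_std hx p k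
  rw [hk]
  exact std_str (hp k)

/-! ### orbits through the interiors of the branches -/

/-- one step of the dynamics starting in the interior of a branch -/
def Stp (σ : St) (x z : ℝ) : Prop :=
  (σ.p < x ∧ x < σ.v1 ∧ z = σ.A x) ∨ (σ.v1 < x ∧ x < σ.v2 ∧ z = σ.B x) ∨
    (σ.v2 < x ∧ x < σ.v3 ∧ z = σ.C x) ∨ (σ.v3 < x ∧ x < σ.q ∧ z = σ.D x)

/-- `n` steps of the dynamics -/
def Reach (σ : St) : ℕ → ℝ → ℝ → Prop
  | 0, x, y => x = y
  | n + 1, x, y => ∃ z, Stp σ x z ∧ Reach σ n z y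

/-- discontinuities -/
def IsV (σ : St) (y : ℝ) : Prop := y = σ.v1 ∨ y = σ.v2 ∨ y = σ.v3

/-- discontinuities of the inverse -/
def IsU (σ : St) (y : ℝ) : Prop := y = σ.B σ.v1 ∨ y = σ.B σ.v2 ∨ y = σ.C σ.v2

theorem Stp.det {σ : St} (s : Str σ) {x z z' : ℝ} (h : Stp σ x z) (h' : Stp σ x z') :
    z = z' := by
  have h1 := s.h1
  have h2 := s.h2
  have h3 := s.h3
  have h4 := s.h4
  rcases h with ⟨a1, a2, a3⟩ | ⟨a1, a2, a3⟩ | ⟨a1, a2, a3⟩ | ⟨a1, a2, a3⟩ <;>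
  rcases h' with ⟨b1, b2, b3⟩ | ⟨b1, b2, b3⟩ | ⟨b1, b2, b3⟩ | ⟨b1, b2, b3⟩ <;>
  first
    | (exfalso; linarith)
    | rw [a3, b3]

theorem Stp.notV {σ : St} (s : Str σ) {x z : ℝ} (h : Stp σ x z) : ¬ IsV σ x := by
  have h1 := s.h1
  have h2 := s.h2
  have h3 := s.h3
  have h4 := s.h4
  rintro (e | e | e) <;>
  rcases h with ⟨a1, a2, a3⟩ | ⟨a1, a2, a3⟩ | ⟨a1, a2, a3⟩ | ⟨a1, a2, a3⟩ <;> linarith

theorem Reach.trans {σ : St} {n m : ℕ} {x y z : ℝ} (h : Reach σ n x y) (h' : Reach σ m y z) :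
    Reach σ (n + m) x z := by
  induction n generalizing x with
  | zero =>
    have : x = y := h
    subst this
    rw [Nat.zero_add]; exact h'
  | succ n ih =>
    obtain ⟨w, hw, hr⟩ := h
    rw [Nat.add_right_comm]
    exact ⟨w, hw, ih hr⟩

theorem Reach.cut {σ : St} (s : Str σ) {n l : ℕ} {x x' y : ℝ} (h : Reach σ n x x')
    (h' : Reach σ l x y) (hy : IsV σ y) : ∃ l', l = n + l' ∧ Reach σ l' x' y := by
  induction n generalizing x l with
  | zero =>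
    have : x = x' := h
    subst this
    exact ⟨l, by omega, h'⟩
  | succ n ih =>
    obtain ⟨z, hz, hr⟩ := h
    cases l with
    | zero =>
      have : x = y := h'
      subst this
      exact absurd hy (hz.notV s)
    | succ l =>
      obtain ⟨z', hz', hr'⟩ := h'
      have : z = z' := hz.det s hz'
      subst this
      obtain ⟨l', e, hl'⟩ := ih hr hr'
      exact ⟨l', by omega, hl'⟩

/-- iteration of `B` -/
theorem reachB {σ : St} {n : ℕ} {x : ℝ} (h1 : σ.v1 < x)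
    (h : ∀ i < n, σ.v1 < (σ.B ^ i) x ∧ (σ.B ^ i) x < σ.v2) : Reach σ n x ((σ.B ^ n) x) := by
  induction n generalizing x with
  | zero => exact rfl
  | succ n ih =>
    have h0 := h 0 (Nat.succ_pos n)
    refine ⟨σ.B x, Or.inr (Or.inl ⟨h1, h0.2, rfl⟩), ?_⟩
    rw [pow_succ_app']
    cases n with
    | zero => exact rfl
    | succ n =>
      have h11 := h 1 (by omega)
      rw [pow_one_app] at h11
      refine ih h11.1 fun i hi => ?_
      rw [← pow_succ_app']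
      exact h (i + 1) (by omega)

/-- iteration of `C` -/
theorem reachC {σ : St} {n : ℕ} {x : ℝ} (h1 : σ.v2 < x)
    (h : ∀ i < n, σ.v2 < (σ.C ^ i) x ∧ (σ.C ^ i) x < σ.v3) : Reach σ n x ((σ.C ^ n) x) := by
  induction n generalizing x with
  | zero => exact rfl
  | succ n ih =>
    have h0 := h 0 (Nat.succ_pos n)
    refine ⟨σ.C x, Or.inr (Or.inr (Or.inl ⟨h1, h0.2, rfl⟩)), ?_⟩
    rw [pow_succ_app']
    cases n with
    | zero => exact rfl
    | succ n =>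
      have h11 := h 1 (by omega)
      rw [pow_one_app] at h11
      refine ih h11.1 fun i hi => ?_
      rw [← pow_succ_app']
      exact h (i + 1) (by omega)

section orbits

variable {M N : ℕ} {σ : St} (f : Fac M N σ)

include f

/-- the passage through the branch `C` up to the return -/
theorem passC {z : ℝ} (h1 : σ.v2 < z) (h2 : (σ.C ^ N) z < σ.v3) :
    Reach σ (N + 1) z ((σ.C ^ (N + 1)) z) ∧ σ.v3 < (σ.C ^ (N + 1)) z ∧
      (σ.C ^ (N + 1)) z < σ.q := by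
  have hzv : z ≤ σ.v3 := by
    by_contra hcon
    rw [not_le] at hcon
    have h3 : σ.v3 ≤ (σ.C ^ N) σ.v3 := le_pow_of_le σ.C (by rw [σ.hq]; exact f.s.h4.le) N
    have h4 := (σ.C ^ N).strictMono hcon
    linarith
  have hzC : z ≤ σ.C z := f.upC h1.le hzv
  refine ⟨reachC h1 fun i hi => ⟨lt_of_lt_of_le h1 (le_pow_of_le σ.C hzC i),
    lt_of_le_of_lt (pow_mono_of_le σ.C hzC (by omega)) h2⟩, ?_, ?_⟩
  · exact f.v3c.trans ((σ.C ^ (N + 1)).strictMono h1)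
  · rw [pow_succ_app, ← σ.hq]; exact σ.C.strictMono h2

/-- the passage through the branch `C` up to the return, starting beyond `u3` -/
theorem passC' {z : ℝ} (h1 : (σ.C ^ N).symm σ.v3 < z) (h2 : z ≤ σ.C σ.v2) :
    Reach σ N z ((σ.C ^ N) z) ∧ σ.v3 < (σ.C ^ N) z ∧ (σ.C ^ N) z < σ.q := by
  have c1 := f.c1
  have o1 := f.v2u2
  have o2 := f.v2u3
  have o3 := f.u3v3
  have hz2 : σ.v2 < z := by linarith
  have hzC : z ≤ σ.C z := f.upC hz2.le (by linarith)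
  have q5 : (σ.C ^ N) σ.v2 < σ.v3 := by
    have := f.c1
    rw [OrderIso.lt_symm_apply] at this
    exact ((σ.C ^ N).strictMono f.v2u2).trans this
  refine ⟨reachC hz2 fun i hi => ⟨lt_of_lt_of_le hz2 (le_pow_of_le σ.C hzC i), ?_⟩, ?_, ?_⟩
  · have e1 : (σ.C ^ i) z ≤ (σ.C ^ i) (σ.C σ.v2) := (σ.C ^ i).monotone h2
    rw [← pow_succ_app'] at e1
    have e2 : (σ.C ^ (i + 1)) σ.v2 ≤ (σ.C ^ N) σ.v2 := pow_mono_of_le σ.C o2.le (by omega)
    linarith
  · rwa [OrderIso.symm_apply_lt] at h1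
  · have e1 : (σ.C ^ N) z ≤ (σ.C ^ N) (σ.C σ.v2) := (σ.C ^ N).monotone h2
    rw [← pow_succ_app', pow_succ_app] at e1
    have e2 : σ.C ((σ.C ^ N) σ.v2) < σ.C σ.v3 := σ.C.strictMono q5
    rw [σ.hq] at e2
    linarith

/-- the passage through the branch `B`, `M` times -/
theorem passB {y : ℝ} (h1 : (σ.B ^ M).symm σ.v2 < y) (h2 : y ≤ σ.B σ.v1) :
    Reach σ M y ((σ.B ^ M) y) ∧ σ.v2 < (σ.B ^ M) y ∧ (σ.B ^ M) y < σ.B σ.v2 := by
  have w := f.w1_mem.1
  have o1 := f.u1v2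
  have o2 := f.b1
  have hy1 : σ.v1 < y := w.trans h1
  have hyB : y ≤ σ.B y := f.upB hy1.le (by linarith)
  refine ⟨reachB hy1 fun i hi => ⟨lt_of_lt_of_le hy1 (le_pow_of_le σ.B hyB i), ?_⟩, ?_, ?_⟩
  · have e1 : (σ.B ^ i) y ≤ (σ.B ^ i) (σ.B σ.v1) := (σ.B ^ i).monotone h2
    rw [← pow_succ_app'] at e1
    have e2 : (σ.B ^ (i + 1)) σ.v1 ≤ (σ.B ^ M) σ.v1 :=
      pow_mono_of_le σ.B f.v1u1.le (by omega)
    linarith
  · rwa [OrderIso.symm_apply_lt] at h1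
  · have e1 : (σ.B ^ M) y ≤ (σ.B ^ M) (σ.B σ.v1) := (σ.B ^ M).monotone h2
    rw [← pow_succ_app', pow_succ_app] at e1
    exact lt_of_le_of_lt e1 (σ.B.strictMono o2)

/-- the passage through the branch `B`, `M + 1` times -/
theorem passB' {y : ℝ} (h1 : σ.v1 < y) (h2 : y < (σ.B ^ M).symm σ.v2) :
    Reach σ (M + 1) y ((σ.B ^ (M + 1)) y) ∧ σ.v2 < (σ.B ^ (M + 1)) y ∧
      (σ.B ^ (M + 1)) y < σ.B σ.v2 := by
  have w := f.w1_mem.2
  have o1 := f.u1v2
  have hyB : y ≤ σ.B y := f.upB h1.le (by linarith)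
  have h2' := h2
  rw [OrderIso.lt_symm_apply] at h2'
  refine ⟨reachB h1 fun i hi => ⟨lt_of_lt_of_le h1 (le_pow_of_le σ.B hyB i), ?_⟩, ?_, ?_⟩
  · exact lt_of_le_of_lt (pow_mono_of_le σ.B hyB (by omega)) h2'
  · exact f.b2.trans ((σ.B ^ (M + 1)).strictMono h1)
  · rw [pow_succ_app]; exact σ.B.strictMono h2'

/-- first return -/
theorem ret {x z : ℝ} (h : Stp (renorm M N σ) (-x) z) :
    ∃ n, 1 ≤ n ∧ Reach σ n x (-z) ∧ σ.v3 < -z ∧ -z < σ.q := by
  have o1 := f.s.h1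
  have o2 := f.s.h2
  have o3 := f.s.h3
  have o4 := f.s.h4
  have o5 := f.v1u1
  have o6 := f.u1v2
  have o7 := f.v2u2
  have o8 := f.u2u3
  have o9 := f.u3v3
  have c1 := f.c1
  have c2 := f.c2
  rcases h with ⟨a1, a2, a3⟩ | ⟨a1, a2, a3⟩ | ⟨a1, a2, a3⟩ | ⟨a1, a2, a3⟩
  · -- `A'`
    have b1 : x < σ.q := neg_lt_neg_iff.1 a1
    have b2 : σ.D.symm ((σ.B ^ M).symm σ.v2) < x := neg_lt_neg_iff.1 a2
    have b3 : -z = (σ.C ^ (N + 1)) ((σ.B ^ M) (σ.D x)) := by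
      rw [a3]
      show - - ((σ.C ^ (N + 1) * σ.B ^ M * σ.D) (- -x)) = _
      rw [neg_neg, neg_neg]; rfl
    have b4 : (σ.B ^ M).symm σ.v2 < σ.D x := by rwa [OrderIso.symm_apply_lt] at b2
    have b5 : σ.D x < σ.B σ.v1 := by rw [σ.hB]; exact σ.D.strictMono b1
    have b6 : σ.v3 < x := by
      have : σ.D σ.v3 < σ.D x := by rw [σ.hD]; linarith [f.w1_mem.1]
      exact σ.D.lt_iff_lt.1 this
    obtain ⟨r1, r2, r3⟩ := passB f b4 b5.le
    obtain ⟨s1, s2, s3⟩ := passC f r2 (by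
      rw [OrderIso.lt_symm_apply] at c1
      exact ((σ.C ^ N).strictMono r3).trans c1)
    refine ⟨1 + (M + (N + 1)), by omega, ?_, by rw [b3]; exact s2, by rw [b3]; exact s3⟩
    rw [b3]
    have r0 : Reach σ 1 x (σ.D x) :=
      ⟨σ.D x, Or.inr (Or.inr (Or.inr ⟨b6, b1, rfl⟩)), rfl⟩
    exact r0.trans (r1.trans s1)
  · -- `B'`
    have b1 : x < σ.D.symm ((σ.B ^ M).symm σ.v2) := neg_lt_neg_iff.1 a1
    have b2 : σ.D.symm σ.v1 < x := neg_lt_neg_iff.1 a2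
    have b3 : -z = (σ.C ^ (N + 1)) ((σ.B ^ (M + 1)) (σ.D x)) := by
      rw [a3]
      show - - ((σ.C ^ (N + 1) * σ.B ^ (M + 1) * σ.D) (- -x)) = _
      rw [neg_neg, neg_neg]; rfl
    have b4 : σ.v1 < σ.D x := by rwa [OrderIso.symm_apply_lt] at b2
    have b5 : σ.D x < (σ.B ^ M).symm σ.v2 := by rwa [OrderIso.lt_symm_apply] at b1
    have b6 : σ.v3 < x := by
      have : σ.D σ.v3 < σ.D x := by rw [σ.hD]; linarith
      exact σ.D.lt_iff_lt.1 this
    have b7 : x < σ.q := by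
      have : σ.D x < σ.D σ.q := by rw [← σ.hB]; linarith [f.w1_mem.2]
      exact σ.D.lt_iff_lt.1 this
    obtain ⟨r1, r2, r3⟩ := passB' f b4 b5
    obtain ⟨s1, s2, s3⟩ := passC f r2 (by
      rw [OrderIso.lt_symm_apply] at c1
      exact ((σ.C ^ N).strictMono r3).trans c1)
    refine ⟨1 + (M + 1 + (N + 1)), by omega, ?_, by rw [b3]; exact s2, by rw [b3]; exact s3⟩
    rw [b3]
    have r0 : Reach σ 1 x (σ.D x) :=
      ⟨σ.D x, Or.inr (Or.inr (Or.inr ⟨b6, b7, rfl⟩)), rfl⟩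
    exact r0.trans (r1.trans s1)
  · -- `C'`
    have b1 : x < σ.D.symm σ.v1 := neg_lt_neg_iff.1 a1
    have b2 : σ.D.symm (σ.A.symm ((σ.C ^ N).symm σ.v3)) < x := neg_lt_neg_iff.1 a2
    have b3 : -z = (σ.C ^ N) (σ.A (σ.D x)) := by
      rw [a3]
      show - - ((σ.C ^ N * σ.A * σ.D) (- -x)) = _
      rw [neg_neg, neg_neg]; rfl
    have b4 : σ.A.symm ((σ.C ^ N).symm σ.v3) < σ.D x := by rwa [OrderIso.symm_apply_lt] at b2
    have b5 : σ.D x < σ.v1 := by rwa [OrderIso.lt_symm_apply] at b1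
    have b4' : (σ.C ^ N).symm σ.v3 < σ.A (σ.D x) := by rwa [OrderIso.symm_apply_lt] at b4
    have b8 : σ.p < σ.D x := by
      have : σ.A σ.p < σ.A (σ.D x) := by rw [σ.hA]; linarith
      exact σ.A.lt_iff_lt.1 this
    have b6 : σ.v3 < x := by
      have : σ.D σ.v3 < σ.D x := by rw [σ.hD]; exact b8
      exact σ.D.lt_iff_lt.1 this
    have b7 : x < σ.q := by
      have : σ.D x < σ.D σ.q := by rw [← σ.hB]; linarith
      exact σ.D.lt_iff_lt.1 this
    have b9 : σ.A (σ.D x) < σ.C σ.v2 := by rw [σ.hC]; exact σ.A.strictMono b5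
    obtain ⟨s1, s2, s3⟩ := passC' f b4' b9.le
    refine ⟨1 + (1 + N), by omega, ?_, by rw [b3]; exact s2, by rw [b3]; exact s3⟩
    rw [b3]
    have r0 : Reach σ 1 x (σ.D x) :=
      ⟨σ.D x, Or.inr (Or.inr (Or.inr ⟨b6, b7, rfl⟩)), rfl⟩
    have r1 : Reach σ 1 (σ.D x) (σ.A (σ.D x)) := ⟨σ.A (σ.D x), Or.inl ⟨b8, b5, rfl⟩, rfl⟩
    exact r0.trans (r1.trans s1)
  · -- `D'`
    have b1 : x < σ.D.symm (σ.A.symm ((σ.C ^ N).symm σ.v3)) := neg_lt_neg_iff.1 a1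
    have b6 : σ.v3 < x := neg_lt_neg_iff.1 a2
    have b3 : -z = (σ.C ^ (N + 1)) (σ.A (σ.D x)) := by
      rw [a3]
      show - - ((σ.C ^ (N + 1) * σ.A * σ.D) (- -x)) = _
      rw [neg_neg, neg_neg]; rfl
    have b8 : σ.p < σ.D x := by rw [← σ.hD]; exact σ.D.strictMono b6
    have b4 : σ.D x < σ.A.symm ((σ.C ^ N).symm σ.v3) := by rwa [OrderIso.lt_symm_apply] at b1
    have b4' : σ.A (σ.D x) < (σ.C ^ N).symm σ.v3 := by rwa [OrderIso.lt_symm_apply] at b4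
    have b5 : σ.D x < σ.v1 := by
      have : σ.A (σ.D x) < σ.A σ.v1 := by rw [← σ.hC]; linarith
      exact σ.A.lt_iff_lt.1 this
    have b9 : σ.B σ.v2 < σ.A (σ.D x) := by rw [← σ.hA]; exact σ.A.strictMono b8
    have b7 : x < σ.q := by
      have : σ.D x < σ.D σ.q := by rw [← σ.hB]; linarith
      exact σ.D.lt_iff_lt.1 this
    obtain ⟨s1, s2, s3⟩ := passC f (o7.trans b9) (by rwa [OrderIso.lt_symm_apply] at b4')
    refine ⟨1 + (1 + (N + 1)), by omega, ?_, by rw [b3]; exact s2, by rw [b3]; exact s3⟩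
    rw [b3]
    have r0 : Reach σ 1 x (σ.D x) :=
      ⟨σ.D x, Or.inr (Or.inr (Or.inr ⟨b6, b7, rfl⟩)), rfl⟩
    have r1 : Reach σ 1 (σ.D x) (σ.A (σ.D x)) := ⟨σ.A (σ.D x), Or.inl ⟨b8, b5, rfl⟩, rfl⟩
    exact r0.trans (r1.trans s1)

/-- the orbit of a discontinuity of the inverse enters the interval of the next level at a
discontinuity of the inverse of the next level -/
theorem retU {x : ℝ} (h : IsU σ x) :
    ∃ n x', 1 ≤ n ∧ Reach σ n x (-x') ∧ σ.v3 < -x' ∧ -x' < σ.q ∧ IsU (renorm M N σ) x' := by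
  have o5 := f.v1u1
  have o6 := f.u1v2
  have o7 := f.v2u2
  have o8 := f.u2u3
  have o9 := f.u3v3
  have c1 := f.c1
  have c2 := f.c2
  have c1' := c1
  rw [OrderIso.lt_symm_apply] at c1'
  rcases h with h | h | h
  · obtain ⟨r1, r2, r3⟩ := passB f f.w1_mem.2 le_rfl
    obtain ⟨s1, s2, s3⟩ := passC f r2 (((σ.C ^ N).strictMono r3).trans c1')
    refine ⟨M + (N + 1), -((σ.C ^ (N + 1)) ((σ.B ^ M) (σ.B σ.v1))), by omega, ?_, ?_, ?_, ?_⟩
    · rw [neg_neg, h]; exact r1.trans s1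
    · rw [neg_neg]; exact s2
    · rw [neg_neg]; exact s3
    · refine Or.inr (Or.inl ?_)
      show _ = - ((σ.C ^ (N + 1) * σ.B ^ (M + 1) * σ.D) (- - σ.D.symm σ.v1))
      rw [neg_neg, mul_app, mul_app, OrderIso.apply_symm_apply, pow_succ_app' σ.B]
  · obtain ⟨s1, s2, s3⟩ := passC f o7 c1'
    refine ⟨N + 1, -((σ.C ^ (N + 1)) (σ.B σ.v2)), by omega, ?_, ?_, ?_, ?_⟩
    · rw [neg_neg, h]; exact s1
    · rw [neg_neg]; exact s2
    · rw [neg_neg]; exact s3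
    · refine Or.inl ?_
      show _ = - ((σ.C ^ (N + 1) * σ.B ^ (M + 1) * σ.D)
        (- - σ.D.symm ((σ.B ^ M).symm σ.v2)))
      rw [neg_neg, mul_app, mul_app, OrderIso.apply_symm_apply, pow_succ_app σ.B,
        OrderIso.apply_symm_apply]
  · obtain ⟨s1, s2, s3⟩ := passC' f c2 le_rfl
    refine ⟨N, -((σ.C ^ N) (σ.C σ.v2)), f.hN, ?_, ?_, ?_, ?_⟩
    · rw [neg_neg, h]; exact s1
    · rw [neg_neg]; exact s2
    · rw [neg_neg]; exact s3
    · refine Or.inr (Or.inr ?_)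
      show _ = - ((σ.C ^ N * σ.A * σ.D) (- - σ.D.symm σ.v1))
      rw [neg_neg, mul_app, mul_app, OrderIso.apply_symm_apply, ← σ.hC]

/-- an orbit from the interval of the next level to a discontinuity gives such an orbit for the
next level -/
theorem descend {y : ℝ} (hy : IsV σ y) (l : ℕ) : ∀ x, σ.v3 < x → x < σ.q → Reach σ l x y →
    ∃ l' ≤ l, ∃ y', IsV (renorm M N σ) y' ∧ Reach (renorm M N σ) l' (-x) y' := by
  induction l using Nat.strong_induction_on with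
  | _ l ih =>
    intro x h1 h2 h3
    by_cases hv : IsV (renorm M N σ) (-x)
    · exact ⟨0, by omega, -x, hv, rfl⟩
    have hstp : ∃ z, Stp (renorm M N σ) (-x) z := by
      have q1 : (renorm M N σ).p < -x := neg_lt_neg h2
      have q2 : -x < (renorm M N σ).q := neg_lt_neg h1
      unfold IsV at hv
      push Not at hv
      obtain ⟨n1, n2, n3⟩ := hv
      rcases lt_or_gt_of_ne n1 with g1 | g1
      · exact ⟨_, Or.inl ⟨q1, g1, rfl⟩⟩
      rcases lt_or_gt_of_ne n2 with g2 | g2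
      · exact ⟨_, Or.inr (Or.inl ⟨g1, g2, rfl⟩)⟩
      rcases lt_or_gt_of_ne n3 with g3 | g3
      · exact ⟨_, Or.inr (Or.inr (Or.inl ⟨g2, g3, rfl⟩))⟩
      · exact ⟨_, Or.inr (Or.inr (Or.inr ⟨g3, q2, rfl⟩))⟩
    obtain ⟨z, hz⟩ := hstp
    obtain ⟨n, hn, hr, hz1, hz2⟩ := ret f hz
    obtain ⟨l1, hl1, hr1⟩ := hr.cut f.s h3 hy
    obtain ⟨l', hl', y', hy', hr'⟩ := ih l1 (by omega) (-z) hz1 hz2 hr1
    rw [neg_neg] at hr'
    exact ⟨l' + 1, by omega, y', hy', z, hz, hr'⟩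

end orbits

/-- absence of connections at all levels -/
theorem no_conn {c : Cst} {σ : St} (hs : ∀ k, Str (tower c σ k)) (L : ℕ) :
    ∀ l < L, ∀ k x y, IsU (tower c σ k) x → IsV (tower c σ k) y →
      ¬ Reach (tower c σ k) l x y := by
  induction L with
  | zero => intro l hl; omega
  | succ L ih =>
    intro l hl k x y hx hy hr
    have f := facs hs k
    obtain ⟨n, x', hn, r1, r2, r3, r4⟩ := retU f hx
    obtain ⟨l1, hl1, hr1⟩ := r1.cut f.s hr hy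
    obtain ⟨l', hl', y', hy', hr'⟩ := descend f hy l1 (-x') r2 r3 hr1
    rw [neg_neg] at hr'
    exact ih l' (by omega) (k + 1) x' y' r4 hy' hr'

end Pool.Agent.TH227.GE
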