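import Pool.Agent.TH227.GE.Semi

set_option autoImplicit false

/-!
The semi-conjugacies are not locally constant next to the discontinuities.
-/

namespace Pool.Agent.TH227.GE

open Set Filter Topology

/-- the map `H` takes the value `t` at two points at distance at least `l` -/
def Pair (σ : St) (H : ℝ → ℝ) (t l : ℝ) : Prop :=
  ∃ x y : ℝ, x ∈ Icc σ.p σ.q ∧ y ∈ Icc σ.p σ.q ∧ x ≤ y ∧ H x = t ∧ H y = t ∧ l ≤ y - x

theorem Pair.le {σ : St} {H : ℝ → ℝ} {t l : ℝ} (h : Pair σ H t l) : l ≤ σ.q - σ.p := by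
  obtain ⟨x, y, hx, hy, _, _, _, h1⟩ := h
  linarith [hx.1, hy.2]

theorem Pair.mono {σ : St} {H : ℝ → ℝ} {t l l' : ℝ} (h : Pair σ H t l) (hl : l' ≤ l) :
    Pair σ H t l' := by
  obtain ⟨x, y, hx, hy, h1, h2, h3, h4⟩ := h
  exact ⟨x, y, hx, hy, h1, h2, h3, hl.trans h4⟩

/-- a point whose image is strictly between two values lies between the two points -/
theorem between {σ σ0 : St} {H : ℝ → ℝ} (hm : Sem σ σ0 H) {a b x : ℝ}
    (ha : a ∈ Icc σ.p σ.q) (hb : b ∈ Icc σ.p σ.q) (hx : x ∈ Icc σ.p σ.q) (h1 : H a < H x)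
    (h2 : H x < H b) : x ∈ Icc a b := by
  constructor
  · by_contra h
    exact absurd (hm.mc.mono hx ha (not_le.1 h).le) (not_le.2 h1)
  · by_contra h
    exact absurd (hm.mc.mono hb hx (not_le.1 h).le) (not_le.2 h2)

section steps

variable {M N : ℕ} {σ σ0 : St} {H : ℝ → ℝ} {lN uN lP uP : ℝ}

theorem Pair.B (f : Fac M N σ) (hm : Sem σ σ0 H) (r : RelF σ σ0 H)
    (hs : Slopes σ lN uN lP uP) (hl : 0 ≤ lN) {t l : ℝ}
    (h1 : σ0.v1 < t) (h2 : t < σ0.v2) (h : Pair σ H t l) : Pair σ H (σ0.B t) (lN * l) := by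
  obtain ⟨x, y, hx, hy, hxy, ex, ey, hd⟩ := h
  have o1 := f.s.h1
  have o2 := f.s.h2
  have o3 := f.s.h3
  have o4 := f.s.h4
  have q1 := f.v1u1
  have q2 := f.u2u3
  have q3 := f.u3v3
  have m1 : σ.v1 ∈ Icc σ.p σ.q := ⟨by linarith, by linarith⟩
  have m2 : σ.v2 ∈ Icc σ.p σ.q := ⟨by linarith, by linarith⟩
  have bx := between hm m1 m2 hx (by rw [hm.v1, ex]; exact h1) (by rw [hm.v2, ex]; exact h2)
  have bY := between hm m1 m2 hy (by rw [hm.v1, ey]; exact h1) (by rw [hm.v2, ey]; exact h2)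
  have e1 := σ.B.monotone bx.1
  have e2 := σ.B.monotone bx.2
  have e3 := σ.B.monotone bY.1
  have e4 := σ.B.monotone bY.2
  refine ⟨σ.B x, σ.B y, ⟨by linarith, by linarith⟩, ⟨by linarith, by linarith⟩,
    σ.B.monotone hxy, by rw [r.B x bx, ex], by rw [r.B y bY, ey], ?_⟩
  exact (mul_le_mul_of_nonneg_left hd hl).trans (hs.2.1 x y hxy).1

theorem Pair.C (f : Fac M N σ) (hm : Sem σ σ0 H) (r : RelF σ σ0 H)
    (hs : Slopes σ lN uN lP uP) (hl : 0 ≤ lP) {t l : ℝ}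
    (h1 : σ0.v2 < t) (h2 : t < σ0.v3) (h : Pair σ H t l) : Pair σ H (σ0.C t) (lP * l) := by
  obtain ⟨x, y, hx, hy, hxy, ex, ey, hd⟩ := h
  have o1 := f.s.h1
  have o2 := f.s.h2
  have o3 := f.s.h3
  have o4 := f.s.h4
  have q1 := f.v2u3
  have m1 : σ.v2 ∈ Icc σ.p σ.q := ⟨by linarith, by linarith⟩
  have m2 : σ.v3 ∈ Icc σ.p σ.q := ⟨by linarith, by linarith⟩
  have bx := between hm m1 m2 hx (by rw [hm.v2, ex]; exact h1) (by rw [hm.v3, ex]; exact h2)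
  have bY := between hm m1 m2 hy (by rw [hm.v2, ey]; exact h1) (by rw [hm.v3, ey]; exact h2)
  have e1 := σ.C.monotone bx.1
  have e2 := σ.C.monotone bx.2
  have e3 := σ.C.monotone bY.1
  have e4 := σ.C.monotone bY.2
  rw [σ.hq] at e2 e4
  refine ⟨σ.C x, σ.C y, ⟨by linarith, by linarith⟩, ⟨by linarith, by linarith⟩,
    σ.C.monotone hxy, by rw [r.C x bx, ex], by rw [r.C y bY, ey], ?_⟩
  exact (mul_le_mul_of_nonneg_left hd hl).trans (hs.2.2.1 x y hxy).1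

theorem Pair.Bpow (f : Fac M N σ) (hm : Sem σ σ0 H) (r : RelF σ σ0 H)
    (hs : Slopes σ lN uN lP uP) (hl : 0 ≤ lN) {t l : ℝ} (j : ℕ)
    (hj : ∀ i < j, σ0.v1 < (σ0.B ^ i) t ∧ (σ0.B ^ i) t < σ0.v2) (h : Pair σ H t l) :
    Pair σ H ((σ0.B ^ j) t) (lN ^ j * l) := by
  induction j with
  | zero => simpa using h
  | succ j ih =>
    have h1 := ih (fun i hi => hj i (by omega))
    have h2 := hj j (Nat.lt_succ_self j)
    have := h1.B f hm r hs hl h2.1 h2.2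
    rw [← pow_succ_app, ← mul_assoc, ← pow_succ'] at this
    exact this

theorem Pair.Cpow (f : Fac M N σ) (hm : Sem σ σ0 H) (r : RelF σ σ0 H)
    (hs : Slopes σ lN uN lP uP) (hl : 0 ≤ lP) {t l : ℝ} (j : ℕ)
    (hj : ∀ i < j, σ0.v2 < (σ0.C ^ i) t ∧ (σ0.C ^ i) t < σ0.v3) (h : Pair σ H t l) :
    Pair σ H ((σ0.C ^ j) t) (lP ^ j * l) := by
  induction j with
  | zero => simpa using h
  | succ j ih =>
    have h1 := ih (fun i hi => hj i (by omega))
    have h2 := hj j (Nat.lt_succ_self j)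
    have := h1.C f hm r hs hl h2.1 h2.2
    rw [← pow_succ_app, ← mul_assoc, ← pow_succ'] at this
    exact this

theorem Pair.J (f : Fac M N σ) (hm : Sem σ σ0 H) {H' : ℝ → ℝ}
    (hJ : ∀ x ∈ Icc σ.v3 σ.q, H x = - H' (-x)) {t l : ℝ}
    (h1 : σ0.v3 < t) (h2 : t < σ0.q) (h : Pair σ H t l) :
    Pair (renorm M N σ) H' (-t) l := by
  obtain ⟨x, y, hx, hy, hxy, ex, ey, hd⟩ := h
  have o1 := f.s.h1
  have o2 := f.s.h2
  have o3 := f.s.h3
  have o4 := f.s.h4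
  have m1 : σ.v3 ∈ Icc σ.p σ.q := ⟨by linarith, by linarith⟩
  have m2 : σ.q ∈ Icc σ.p σ.q := ⟨by linarith, by linarith⟩
  have bx := between hm m1 m2 hx (by rw [hm.v3, ex]; exact h1) (by rw [hm.q, ex]; exact h2)
  have bY := between hm m1 m2 hy (by rw [hm.v3, ey]; exact h1) (by rw [hm.q, ey]; exact h2)
  have e1 := hJ x bx
  have e2 := hJ y bY
  refine ⟨-y, -x, ⟨neg_le_neg bY.2, neg_le_neg bY.1⟩, ⟨neg_le_neg bx.2, neg_le_neg bx.1⟩,
    neg_le_neg hxy, by linarith, by linarith, by linarith⟩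

/-- the iteration of `C` up to the return -/
theorem Pair.CJ (f : Fac M N σ) (f0 : Fac M N σ0) (hm : Sem σ σ0 H) (r : RelF σ σ0 H)
    (hs : Slopes σ lN uN lP uP) (hl : 0 ≤ lP) {H' : ℝ → ℝ}
    (hJ : ∀ x ∈ Icc σ.v3 σ.q, H x = - H' (-x)) {t l : ℝ}
    (h1 : σ0.v2 < t) (h2 : (σ0.C ^ N) t < σ0.v3) (h : Pair σ H t l) :
    Pair (renorm M N σ) H' (-((σ0.C ^ (N + 1)) t)) (lP ^ (N + 1) * l) := by
  have htv : t ≤ σ0.v3 := by
    by_contra hcon
    rw [not_le] at hcon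
    have h3 : σ0.v3 ≤ (σ0.C ^ N) σ0.v3 := le_pow_of_le σ0.C (by rw [σ0.hq]; exact f0.s.h4.le) N
    have h4 := (σ0.C ^ N).strictMono hcon
    linarith
  have htC : t ≤ σ0.C t := f0.upC h1.le htv
  have h3 : σ0.v3 < (σ0.C ^ (N + 1)) t := f0.v3c.trans ((σ0.C ^ (N + 1)).strictMono h1)
  have h4 : (σ0.C ^ (N + 1)) t < σ0.q := by
    rw [pow_succ_app, ← σ0.hq]; exact σ0.C.strictMono h2
  refine Pair.J f hm hJ h3 h4 (h.Cpow f hm r hs hl (N + 1) ?_)
  intro i hi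
  exact ⟨lt_of_lt_of_le h1 (le_pow_of_le σ0.C htC i),
    lt_of_le_of_lt (pow_mono_of_le σ0.C htC (by omega)) h2⟩

theorem step12 (f : Fac M N σ) (f0 : Fac M N σ0) (hm : Sem σ σ0 H) (r : RelF σ σ0 H)
    (hs : Slopes σ lN uN lP uP) (hl : 0 ≤ lN) (hl' : 0 ≤ lP) {H' : ℝ → ℝ}
    (hJ : ∀ x ∈ Icc σ.v3 σ.q, H x = - H' (-x)) {l : ℝ} (h : Pair σ H (σ0.B σ0.v1) l) :
    Pair (renorm M N σ) H' ((renorm M N σ0).B (renorm M N σ0).v2)
      (lP ^ (N + 1) * (lN ^ M * l)) := by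
  have q1 := f0.v1u1
  have q2 := f0.b1
  have q3 := f0.b2
  have q4 := f0.c1
  have h1 := h.Bpow f hm r hs hl M (by
    intro i hi
    rw [← pow_succ_app']
    constructor
    · exact lt_of_lt_of_le q1 (by
        have := pow_mono_of_le σ0.B q1.le (show 1 ≤ i + 1 by omega)
        rwa [pow_one_app] at this)
    · exact lt_of_le_of_lt (pow_mono_of_le σ0.B q1.le (by omega)) q2)
  rw [← pow_succ_app'] at h1
  have h2 : (σ0.B ^ (M + 1)) σ0.v1 < σ0.B σ0.v2 := by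
    rw [pow_succ_app]; exact σ0.B.strictMono q2
  have h3 : (σ0.C ^ N) ((σ0.B ^ (M + 1)) σ0.v1) < σ0.v3 := by
    rw [OrderIso.lt_symm_apply] at q4
    exact ((σ0.C ^ N).strictMono h2).trans q4
  have h4 := h1.CJ f f0 hm r hs hl' hJ q3 h3
  have e : (renorm M N σ0).B (renorm M N σ0).v2 =
      -((σ0.C ^ (N + 1)) ((σ0.B ^ (M + 1)) σ0.v1)) := by
    show - ((σ0.C ^ (N + 1) * σ0.B ^ (M + 1) * σ0.D) (- - σ0.D.symm σ0.v1)) = _
    rw [neg_neg, mul_app, mul_app, OrderIso.apply_symm_apply]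
  rw [e]
  exact h4

theorem step21 (f : Fac M N σ) (f0 : Fac M N σ0) (hm : Sem σ σ0 H) (r : RelF σ σ0 H)
    (hs : Slopes σ lN uN lP uP) (hl' : 0 ≤ lP) {H' : ℝ → ℝ}
    (hJ : ∀ x ∈ Icc σ.v3 σ.q, H x = - H' (-x)) {l : ℝ} (h : Pair σ H (σ0.B σ0.v2) l) :
    Pair (renorm M N σ) H' ((renorm M N σ0).B (renorm M N σ0).v1)
      (lP ^ (N + 1) * l) := by
  have q4 := f0.c1
  rw [OrderIso.lt_symm_apply] at q4
  have h4 := h.CJ f f0 hm r hs hl' hJ f0.v2u2 q4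
  have e : (renorm M N σ0).B (renorm M N σ0).v1 =
      -((σ0.C ^ (N + 1)) (σ0.B σ0.v2)) := by
    show - ((σ0.C ^ (N + 1) * σ0.B ^ (M + 1) * σ0.D)
      (- - σ0.D.symm ((σ0.B ^ M).symm σ0.v2))) = _
    rw [neg_neg, mul_app, mul_app, OrderIso.apply_symm_apply, pow_succ_app σ0.B,
      OrderIso.apply_symm_apply]
  rw [e]
  exact h4

theorem step33 (f : Fac M N σ) (f0 : Fac M N σ0) (hm : Sem σ σ0 H) (r : RelF σ σ0 H)
    (hs : Slopes σ lN uN lP uP) (hl' : 0 ≤ lP) {H' : ℝ → ℝ}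
    (hJ : ∀ x ∈ Icc σ.v3 σ.q, H x = - H' (-x)) {l : ℝ} (h : Pair σ H (σ0.C σ0.v2) l) :
    Pair (renorm M N σ) H' ((renorm M N σ0).C (renorm M N σ0).v2)
      (lP ^ N * l) := by
  have q1 := f0.v2u3
  have q4 := f0.c1
  rw [OrderIso.lt_symm_apply] at q4
  have q5 : (σ0.C ^ N) σ0.v2 < σ0.v3 := ((σ0.C ^ N).strictMono f0.v2u2).trans q4
  have h1 := h.Cpow f hm r hs hl' N (by
    intro i hi
    rw [← pow_succ_app']
    constructor
    · exact lt_of_lt_of_le q1 (by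
        have := pow_mono_of_le σ0.C q1.le (show 1 ≤ i + 1 by omega)
        rwa [pow_one_app] at this)
    · exact lt_of_le_of_lt (pow_mono_of_le σ0.C q1.le (by omega)) q5)
  rw [← pow_succ_app'] at h1
  have h2 : (σ0.C ^ (N + 1)) σ0.v2 < σ0.q := by
    rw [pow_succ_app, ← σ0.hq]; exact σ0.C.strictMono q5
  have h4 := h1.J f hm hJ f0.v3c h2
  have e : (renorm M N σ0).C (renorm M N σ0).v2 = -((σ0.C ^ (N + 1)) σ0.v2) := by
    show - ((σ0.C ^ N * σ0.A * σ0.D) (- - σ0.D.symm σ0.v1)) = _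
    rw [neg_neg, mul_app, mul_app, OrderIso.apply_symm_apply, ← σ0.hC, pow_succ_app']
  rw [e]
  exact h4

end steps

section levels

variable {c : Cst} {σ σ0 : St} {H : ℕ → ℝ → ℝ}

theorem len_le (hs : ∀ k, Str (tower c σ k)) (k : ℕ) :
    (tower c σ k).q - (tower c σ k).p ≤ σ.q - σ.p := by
  induction k with
  | zero => exact le_rfl
  | succ k ih =>
    have h1 := (hs k).h1
    have h2 := (hs k).h2
    have h3 := (hs k).h3
    have e : (tower c σ (k + 1)).q - (tower c σ (k + 1)).p =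
        (tower c σ k).q - (tower c σ k).v3 := by
      show - (tower c σ k).v3 - - (tower c σ k).q = _
      ring
    linarith

theorem factor (d : Cst) :
    2 ≤ d.next.lP ^ (d.next.N + 1) * (d.lP ^ (d.N + 1) * d.lN ^ d.M) := by
  have g := d.next.good.h1
  have h1 : d.next.lN ≤ d.lN ^ d.M :=
    pow_le_pow_of_le_one d.ok.h1.le d.ok.h1' (Nat.le_succ _)
  have h2 : 1 ≤ d.lP ^ (d.N + 1) := one_le_pow₀ (by linarith [d.ok.h4])
  have h3 : 1 ≤ d.next.lP := by linarith [d.next.ok.h4]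
  have h4 : 0 < d.next.lN := d.next.ok.h1
  have h5 : 0 < d.next.lP ^ d.next.N := by positivity
  calc (2 : ℝ) ≤ 4 := by norm_num
    _ ≤ d.next.lP ^ d.next.N * d.next.lN := g
    _ ≤ d.next.lP ^ d.next.N * d.lN ^ d.M := by gcongr
    _ = d.next.lP ^ d.next.N * (1 * d.lN ^ d.M) := by ring
    _ ≤ d.next.lP ^ (d.next.N + 1) * (d.lP ^ (d.N + 1) * d.lN ^ d.M) := by
        have h6 : 0 < d.lN ^ d.M := pow_pos d.ok.h1 _
        gcongr
        exact Nat.le_succ _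

theorem no1 (hs : ∀ k, Str (tower c σ k)) (hsl : c.Sl σ) (hs0 : ∀ k, Str (tower c σ0 k))
    (hm : ∀ k, Sem (tower c σ k) (tower c σ0 k) (H k))
    (r : ∀ k, RelF (tower c σ k) (tower c σ0 k) (H k))
    (hJ : ∀ k, ∀ x ∈ Icc (tower c σ k).v3 (tower c σ k).q, H k x = - H (k + 1) (-x)) (n : ℕ) :
    ∀ k l, 0 ≤ l → Pair (tower c σ k) (H k) ((tower c σ0 k).B (tower c σ0 k).v1) l →
      2 ^ n * l ≤ σ.q - σ.p := by
  induction n with
  | zero =>
    intro k l _ h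
    have := h.le.trans (len_le hs k)
    linarith
  | succ n ih =>
    intro k l hl h
    have p1 := fun k => (c.iter k).ok.h1.le
    have p2 : ∀ k, 0 ≤ (c.iter k).lP := fun k => by linarith [(c.iter k).ok.h4]
    have h1 := step12 (facs hs k) (facs hs0 k) (hm k) (r k) (tower_sl hsl k) (p1 k) (p2 k)
      (hJ k) h
    have h2 := step21 (facs hs (k + 1)) (facs hs0 (k + 1)) (hm (k + 1)) (r (k + 1))
      (tower_sl hsl (k + 1)) (p2 (k + 1)) (hJ (k + 1)) h1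
    have h3 : 2 * l ≤ (c.iter (k + 1)).lP ^ ((c.iter (k + 1)).N + 1) *
        ((c.iter k).lP ^ ((c.iter k).N + 1) * ((c.iter k).lN ^ (c.iter k).M * l)) := by
      have := mul_le_mul_of_nonneg_right (factor (c.iter k)) hl
      refine this.trans (le_of_eq ?_)
      show (c.iter (k + 1)).lP ^ ((c.iter (k + 1)).N + 1) * _ * l = _
      ring
    have h4 := ih (k + 2) (2 * l) (by linarith) (h2.mono h3)
    rw [pow_succ]
    linarith

theorem no3 (hs : ∀ k, Str (tower c σ k)) (hsl : c.Sl σ) (hs0 : ∀ k, Str (tower c σ0 k))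
    (hm : ∀ k, Sem (tower c σ k) (tower c σ0 k) (H k))
    (r : ∀ k, RelF (tower c σ k) (tower c σ0 k) (H k))
    (hJ : ∀ k, ∀ x ∈ Icc (tower c σ k).v3 (tower c σ k).q, H k x = - H (k + 1) (-x)) (n : ℕ) :
    ∀ k l, 0 ≤ l → Pair (tower c σ k) (H k) ((tower c σ0 k).C (tower c σ0 k).v2) l →
      2 ^ n * l ≤ σ.q - σ.p := by
  induction n with
  | zero =>
    intro k l _ h
    have := h.le.trans (len_le hs k)
    linarith
  | succ n ih =>
    intro k l hl h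
    have p2 : ∀ k, 2 ≤ (c.iter k).lP := fun k => (c.iter k).ok.h4
    have h1 := step33 (facs hs k) (facs hs0 k) (hm k) (r k) (tower_sl hsl k)
      (by linarith [p2 k]) (hJ k) h
    have h3 : 2 * l ≤ (c.iter k).lP ^ (c.iter k).N * l := by
      refine mul_le_mul_of_nonneg_right ?_ hl
      calc (2 : ℝ) ≤ (c.iter k).lP := p2 k
        _ = (c.iter k).lP ^ 1 := (pow_one _).symm
        _ ≤ (c.iter k).lP ^ (c.iter k).N :=
          pow_le_pow_right₀ (by linarith [p2 k]) (c.iter k).good.hN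
    have h4 := ih (k + 1) (2 * l) (by linarith) (h1.mono h3)
    rw [pow_succ]
    linarith

theorem zero_of_pow {l L : ℝ} (h : ∀ n : ℕ, 2 ^ n * l ≤ L) : l ≤ 0 := by
  by_contra hl
  rw [not_le] at hl
  obtain ⟨n, hn⟩ := pow_unbounded_of_one_lt (L / l) (by norm_num : (1 : ℝ) < 2)
  rw [div_lt_iff₀ hl] at hn
  linarith [h n]

/-- the conclusion for a single state: a semi-conjugacy without plateaus to the left of the
discontinuities and of the right endpoint -/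
theorem exists_strict (hcl : Cl σ) (hsl : c.Sl σ) (hA : All c σ)
    (hs0 : ∀ k, Str (tower c σ0 k)) (t : Tr σ0) :
    ∃ H : ℝ → ℝ, Sem σ σ0 H ∧ RelF σ σ0 H ∧
      (∀ x ∈ Icc σ.p σ.q, x < σ.v1 → H x < σ0.v1) ∧
      (∀ x ∈ Icc σ.p σ.q, x < σ.v2 → H x < σ0.v2) ∧
      (∀ x ∈ Icc σ.p σ.q, x < σ.v3 → H x < σ0.v3) ∧
      (∀ x ∈ Icc σ.p σ.q, x < σ.q → H x < σ0.q) := by
  have hs := hA.str hcl hsl
  obtain ⟨H, hm, r, hJ⟩ := exists_semi hs hs0 t
  have n1 : ∀ k l, 0 ≤ l → Pair (tower c σ k) (H k) ((tower c σ0 k).B (tower c σ0 k).v1) l →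
      l ≤ 0 := fun k l hl h => zero_of_pow fun n => no1 hs hsl hs0 hm r hJ n k l hl h
  have n3 : ∀ k l, 0 ≤ l → Pair (tower c σ k) (H k) ((tower c σ0 k).C (tower c σ0 k).v2) l →
      l ≤ 0 := fun k l hl h => zero_of_pow fun n => no3 hs hsl hs0 hm r hJ n k l hl h
  have n2 : ∀ l, 0 ≤ l → Pair σ (H 0) (σ0.B σ0.v2) l → l ≤ 0 := by
    intro l hl h
    have p2 := c.ok.h4
    have h1 := step21 (facs hs 0) (facs hs0 0) (hm 0) (r 0) (tower_sl hsl 0)
      (by show 0 ≤ c.lP; linarith) (hJ 0) h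
    have hp : 1 ≤ c.lP ^ (c.N + 1) := one_le_pow₀ (by linarith)
    have h2 := n1 1 _ (by
      have : 0 ≤ c.lP ^ (c.N + 1) * l := by positivity
      exact this) h1
    have h3 : c.lP ^ (c.N + 1) * l ≤ 0 := h2
    nlinarith
  have f := facs hs 0
  have m0 : Sem σ σ0 (H 0) := hm 0
  have r0 : RelF σ σ0 (H 0) := r 0
  have s : Str σ := hs 0
  have s0 : Str σ0 := hs0 0
  have o1 := s.h1
  have o2 := s.h2
  have o3 := s.h3
  have o4 := s.h4
  have p1 := s0.h1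
  have p2 := s0.h2
  have p3 := s0.h3
  have p4 := s0.h4
  have q1 : σ.v1 < σ.B σ.v1 := f.v1u1
  have q2 : σ.B σ.v1 < σ.v2 := f.u1v2
  have q3 : σ.v2 < σ.B σ.v2 := f.v2u2
  have q4 : σ.B σ.v2 < σ.C σ.v2 := f.u2u3
  have q5 : σ.C σ.v2 < σ.v3 := f.u3v3
  -- at `q`
  have sq : ∀ x ∈ Icc σ.p σ.q, x < σ.q → H 0 x < σ0.q := by
    intro x hx hlt
    refine lt_of_le_of_ne (m0.mem hx).2 ?_
    intro he
    have hx3 : σ.v3 ≤ x := by
      by_contra hcon
      have := m0.mc.mono hx ⟨by linarith, by linarith⟩ (not_le.1 hcon).le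
      rw [m0.v3, he] at this
      linarith
    have e1 := σ.D.strictMono hlt
    have e2 := σ.D.monotone hx3
    rw [σ.hD] at e2
    rw [← σ.hB] at e1
    have := n1 0 (σ.B σ.v1 - σ.D x) (by linarith)
      ⟨σ.D x, σ.B σ.v1, ⟨e2, by show σ.D x ≤ σ.q; linarith⟩,
        ⟨by show σ.p ≤ σ.B σ.v1; linarith, by show σ.B σ.v1 ≤ σ.q; linarith⟩, e1.le,
        by
          show H 0 (σ.D x) = σ0.B σ0.v1
          rw [r0.D x ⟨hx3, hx.2⟩, he, σ0.hB],
        by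
          show H 0 (σ.B σ.v1) = σ0.B σ0.v1
          rw [r0.B σ.v1 ⟨le_rfl, o2.le⟩, m0.v1], le_rfl⟩
    linarith
  refine ⟨H 0, m0, r0, ?_, ?_, ?_, sq⟩
  · intro x hx hlt
    have hle := m0.mc.mono hx ⟨by linarith, by linarith⟩ hlt.le
    rw [m0.v1] at hle
    refine lt_of_le_of_ne hle ?_
    intro he
    have e1 := σ.A.strictMono hlt
    have e2 := σ.A.monotone hx.1
    rw [← σ.hC] at e1
    rw [σ.hA] at e2
    have := n3 0 (σ.C σ.v2 - σ.A x) (by linarith)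
      ⟨σ.A x, σ.C σ.v2, ⟨by show σ.p ≤ σ.A x; linarith, by show σ.A x ≤ σ.q; linarith⟩,
        ⟨by show σ.p ≤ σ.C σ.v2; linarith, by show σ.C σ.v2 ≤ σ.q; linarith⟩, e1.le,
        by
          show H 0 (σ.A x) = σ0.C σ0.v2
          rw [r0.A x ⟨hx.1, hlt.le⟩, he, σ0.hC],
        by
          show H 0 (σ.C σ.v2) = σ0.C σ0.v2
          rw [r0.C σ.v2 ⟨le_rfl, o3.le⟩, m0.v2], le_rfl⟩
    linarith
  · intro x hx hlt
    have hle := m0.mc.mono hx ⟨by linarith, by linarith⟩ hlt.le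
    rw [m0.v2] at hle
    refine lt_of_le_of_ne hle ?_
    intro he
    have hx1 : σ.v1 ≤ x := by
      by_contra hcon
      have := m0.mc.mono hx ⟨by linarith, by linarith⟩ (not_le.1 hcon).le
      rw [m0.v1, he] at this
      linarith
    have e1 := σ.B.strictMono hlt
    have e2 := σ.B.monotone hx1
    have := n2 (σ.B σ.v2 - σ.B x) (by linarith)
      ⟨σ.B x, σ.B σ.v2, ⟨by linarith, by linarith⟩, ⟨by linarith, by linarith⟩, e1.le,
        by rw [r0.B x ⟨hx1, hlt.le⟩, he],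
        by rw [r0.B σ.v2 ⟨o2.le, le_rfl⟩, m0.v2], le_rfl⟩
    linarith
  · intro x hx hlt
    have hle := m0.mc.mono hx ⟨by linarith, by linarith⟩ hlt.le
    rw [m0.v3] at hle
    refine lt_of_le_of_ne hle ?_
    intro he
    have hx2 : σ.v2 ≤ x := by
      by_contra hcon
      have := m0.mc.mono hx ⟨by linarith, by linarith⟩ (not_le.1 hcon).le
      rw [m0.v2, he] at this
      linarith
    have e1 := σ.C.strictMono hlt
    have e2 := σ.C.monotone hx2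
    rw [σ.hq] at e1
    have h1 := sq (σ.C x) ⟨by linarith, e1.le⟩ e1
    rw [r0.C x ⟨hx2, hlt.le⟩, he, σ0.hq] at h1
    exact lt_irrefl _ h1

end levels

end Pool.Agent.TH227.GE
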