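import Pool.Agent.TH227.GE.Aff
import Pool.Agent.TH227.GE.Strict
import Pool.Agent.TH227.GE.Std

set_option autoImplicit false

/-!
The standard map, and the semi-conjugacies of generalised interval exchange maps to it.
-/

namespace Pool.Agent.TH227.GE

open Set Filter Topology

theorem GIEM.map_eq {r d : ℕ} {π : CombData d} (T : GIEM π r) (a : Fin d) {x : ℝ}
    (hx : x ∈ Ico (T.topL a) (T.topR a)) : T.map x = T.branch a x := by
  unfold GIEM.map
  rw [Finset.sum_eq_single a]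
  · exact indicator_of_mem hx _
  · intro c _ hc
    apply indicator_of_notMem
    intro hxc
    have hne : π.top c ≠ π.top a := fun h => hc (π.top.injective h)
    rcases lt_or_gt_of_ne hne with h | h
    · have h1 : T.topR c ≤ T.topL a := T.t_mono.monotone (Fin.succ_le_castSucc_iff.2 h)
      linarith [hx.1, hxc.2]
    · have h1 : T.topR a ≤ T.topL c := T.t_mono.monotone (Fin.succ_le_castSucc_iff.2 h)
      linarith [hx.2, hxc.1]
  · intro h
    exact absurd (Finset.mem_univ a) h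

section std

variable {v : Vec} (hp : Pos v) (ht : tot v = 1)

include hp ht

theorem std_pp : PP v.1 (v.1 + v.2.1) (v.1 + v.2.1 + v.2.2.1) v.2.2.2 (v.2.2.2 + v.2.1)
    (v.2.2.2 + v.2.1 + v.1) := by
  obtain ⟨h1, h2, h3, h4⟩ := hp
  unfold tot at ht
  refine ⟨?_, ?_, ?_, ?_, ?_, ?_, ?_, ?_⟩ <;> linarith

/-- the standard interval exchange map -/
def T0 (r : ℕ) : GK r := mkG r (std_pp hp ht)

theorem T0_branch0 (r : ℕ) {x : ℝ} (hx : x ∈ Icc ((T0 hp ht r).topL 0) ((T0 hp ht r).topR 0)) :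
    (T0 hp ht r).branch 0 x = x + (v.2.2.2 + v.2.1) := by
  have h := mkG_branch (r := r) (std_pp hp ht) 0 hx
  have e : (T0 hp ht r).branch 0 x = v.2.2.2 + v.2.1 +
    (v.2.2.2 + v.2.1 + v.1 - (v.2.2.2 + v.2.1)) * ((x - 0) / (v.1 - 0)) := h
  have h1 := hp.a
  rw [e, sub_zero, sub_zero, add_sub_cancel_left, mul_div_cancel₀ _ h1.ne']
  ring

theorem T0_branch1 (r : ℕ) {x : ℝ} (hx : x ∈ Icc ((T0 hp ht r).topL 1) ((T0 hp ht r).topR 1)) :
    (T0 hp ht r).branch 1 x = x + (v.2.2.2 - v.1) := by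
  have h := mkG_branch (r := r) (std_pp hp ht) 1 hx
  have e : (T0 hp ht r).branch 1 x = v.2.2.2 +
    (v.2.2.2 + v.2.1 - v.2.2.2) * ((x - v.1) / (v.1 + v.2.1 - v.1)) := h
  have h1 := hp.b
  rw [e, add_sub_cancel_left, add_sub_cancel_left, mul_div_cancel₀ _ h1.ne']
  ring

theorem T0_branch2 (r : ℕ) {x : ℝ} (hx : x ∈ Icc ((T0 hp ht r).topL 2) ((T0 hp ht r).topR 2)) :
    (T0 hp ht r).branch 2 x = x + v.2.2.2 := by
  have h := mkG_branch (r := r) (std_pp hp ht) 2 hx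
  have e : (T0 hp ht r).branch 2 x = v.2.2.2 + v.2.1 + v.1 +
    (1 - (v.2.2.2 + v.2.1 + v.1)) *
      ((x - (v.1 + v.2.1)) / (v.1 + v.2.1 + v.2.2.1 - (v.1 + v.2.1))) := h
  have h1 := hp.c
  have h2 : 1 - (v.2.2.2 + v.2.1 + v.1) = v.2.2.1 := by unfold tot at ht; linarith
  rw [e, h2, add_sub_cancel_left, mul_div_cancel₀ _ h1.ne']
  ring

theorem T0_branch3 (r : ℕ) {x : ℝ} (hx : x ∈ Icc ((T0 hp ht r).topL 3) ((T0 hp ht r).topR 3)) :
    (T0 hp ht r).branch 3 x = x + (-(v.1 + v.2.1 + v.2.2.1)) := by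
  have h := mkG_branch (r := r) (std_pp hp ht) 3 hx
  have e : (T0 hp ht r).branch 3 x = 0 + (v.2.2.2 - 0) *
      ((x - (v.1 + v.2.1 + v.2.2.1)) / (1 - (v.1 + v.2.1 + v.2.2.1))) := h
  have h1 := hp.d
  have h2 : 1 - (v.1 + v.2.1 + v.2.2.1) = v.2.2.2 := by unfold tot at ht; linarith
  rw [e, h2, sub_zero, mul_div_cancel₀ _ h1.ne']
  ring

theorem T0_standard (r : ℕ) : (T0 hp ht r).IsStandard := by
  intro a
  fin_cases a
  · exact ⟨_, fun x hx => T0_branch0 hp ht r hx⟩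
  · exact ⟨_, fun x hx => T0_branch1 hp ht r hx⟩
  · exact ⟨_, fun x hx => T0_branch2 hp ht r hx⟩
  · exact ⟨_, fun x hx => T0_branch3 hp ht r hx⟩

theorem T0_mapA (r : ℕ) {x : ℝ} (h1 : (std 0 v).p ≤ x) (h2 : x < (std 0 v).v1) :
    (T0 hp ht r).map x = (std 0 v).A x := by
  have h1' : 0 ≤ x := h1
  have h2' : x < 0 + v.1 := h2
  rw [zero_add] at h2'
  rw [GIEM.map_eq _ 0 (show x ∈ Ico (0 : ℝ) v.1 from ⟨h1', h2'⟩),
    T0_branch0 hp ht r (show x ∈ Icc (0 : ℝ) v.1 from ⟨h1', h2'.le⟩)]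
  rfl

theorem T0_mapB (r : ℕ) {x : ℝ} (h1 : (std 0 v).v1 ≤ x) (h2 : x < (std 0 v).v2) :
    (T0 hp ht r).map x = (std 0 v).B x := by
  have h1' : 0 + v.1 ≤ x := h1
  have h2' : x < 0 + v.1 + v.2.1 := h2
  rw [zero_add] at h1' h2'
  rw [GIEM.map_eq _ 1 (show x ∈ Ico v.1 (v.1 + v.2.1) from ⟨h1', h2'⟩),
    T0_branch1 hp ht r (show x ∈ Icc v.1 (v.1 + v.2.1) from ⟨h1', h2'.le⟩)]
  rfl

theorem T0_mapC (r : ℕ) {x : ℝ} (h1 : (std 0 v).v2 ≤ x) (h2 : x < (std 0 v).v3) :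
    (T0 hp ht r).map x = (std 0 v).C x := by
  have h1' : 0 + v.1 + v.2.1 ≤ x := h1
  have h2' : x < 0 + v.1 + v.2.1 + v.2.2.1 := h2
  rw [zero_add] at h1' h2'
  rw [GIEM.map_eq _ 2 (show x ∈ Ico (v.1 + v.2.1) (v.1 + v.2.1 + v.2.2.1) from ⟨h1', h2'⟩),
    T0_branch2 hp ht r (show x ∈ Icc (v.1 + v.2.1) (v.1 + v.2.1 + v.2.2.1) from
      ⟨h1', h2'.le⟩)]
  rfl

theorem T0_mapD (r : ℕ) {x : ℝ} (h1 : (std 0 v).v3 ≤ x) (h2 : x < (std 0 v).q) :
    (T0 hp ht r).map x = (std 0 v).D x := by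
  have h1' : 0 + v.1 + v.2.1 + v.2.2.1 ≤ x := h1
  have h2' : x < 0 + v.1 + v.2.1 + v.2.2.1 + v.2.2.2 := h2
  rw [zero_add] at h1' h2'
  have h3 : v.1 + v.2.1 + v.2.2.1 + v.2.2.2 = 1 := ht
  rw [h3] at h2'
  rw [GIEM.map_eq _ 3 (show x ∈ Ico (v.1 + v.2.1 + v.2.2.1) 1 from ⟨h1', h2'⟩),
    T0_branch3 hp ht r (show x ∈ Icc (v.1 + v.2.1 + v.2.2.1) 1 from ⟨h1', h2'.le⟩)]
  rfl

omit hp in
theorem std_q : (std 0 v).q = 1 := by
  show 0 + v.1 + v.2.1 + v.2.2.1 + v.2.2.2 = 1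
  rw [zero_add]; exact ht

/-- orbits of the standard map as orbits through the interiors of the branches -/
theorem orbit_reach (r : ℕ) (m : ℕ) : ∀ u : ℝ, 0 < u → u < 1 →
    IsV (std 0 v) ((T0 hp ht r).map^[m] u) →
    ∃ l v', IsV (std 0 v) v' ∧ Reach (std 0 v) l u v' := by
  induction m with
  | zero =>
    intro u _ _ h
    exact ⟨0, u, h, rfl⟩
  | succ m ih =>
    intro u h0 h1 h
    by_cases hv : IsV (std 0 v) u
    · exact ⟨0, u, hv, rfl⟩
    have hp' := hp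
    obtain ⟨q1, q2, q3, q4⟩ := hp'
    have hq := std_q ht
    have ht' : v.1 + v.2.1 + v.2.2.1 + v.2.2.2 = 1 := ht
    have key : Stp (std 0 v) u ((T0 hp ht r).map u) ∧ 0 < (T0 hp ht r).map u ∧
        (T0 hp ht r).map u < 1 := by
      unfold IsV at hv
      push Not at hv
      obtain ⟨n1, n2, n3⟩ := hv
      rcases lt_or_gt_of_ne n1 with g1 | g1
      · have e := T0_mapA hp ht r (x := u) h0.le g1
        refine ⟨Or.inl ⟨h0, g1, e⟩, ?_, ?_⟩
        · rw [e]; show 0 < u + (v.2.2.2 + v.2.1); linarith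
        · rw [e]
          have g1' : u < 0 + v.1 := g1
          show u + (v.2.2.2 + v.2.1) < 1; linarith
      rcases lt_or_gt_of_ne n2 with g2 | g2
      · have e := T0_mapB hp ht r (x := u) g1.le g2
        have g1' : 0 + v.1 < u := g1
        have g2' : u < 0 + v.1 + v.2.1 := g2
        refine ⟨Or.inr (Or.inl ⟨g1, g2, e⟩), ?_, ?_⟩
        · rw [e]; show 0 < u + (v.2.2.2 - v.1); linarith
        · rw [e]; show u + (v.2.2.2 - v.1) < 1; linarith
      rcases lt_or_gt_of_ne n3 with g3 | g3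
      · have e := T0_mapC hp ht r (x := u) g2.le g3
        have g2' : 0 + v.1 + v.2.1 < u := g2
        have g3' : u < 0 + v.1 + v.2.1 + v.2.2.1 := g3
        refine ⟨Or.inr (Or.inr (Or.inl ⟨g2, g3, e⟩)), ?_, ?_⟩
        · rw [e]; show 0 < u + v.2.2.2; linarith
        · rw [e]; show u + v.2.2.2 < 1; linarith
      · have h1' : u < (std 0 v).q := by rw [hq]; exact h1
        have e := T0_mapD hp ht r (x := u) g3.le h1'
        have g3' : 0 + v.1 + v.2.1 + v.2.2.1 < u := g3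
        refine ⟨Or.inr (Or.inr (Or.inr ⟨g3, h1', e⟩)), ?_, ?_⟩
        · rw [e]; show 0 < u + (-(v.1 + v.2.1 + v.2.2.1)); linarith
        · rw [e]; show u + (-(v.1 + v.2.1 + v.2.2.1)) < 1; linarith
    rw [Function.iterate_succ_apply] at h
    obtain ⟨l, v', hv', hr⟩ := ih _ key.2.1 key.2.2 h
    exact ⟨l + 1, v', hv', _, key.1, hr⟩

end std

theorem T0_noConn (r : ℕ) {x : ℕ → Vec} (hp : ∀ k, Pos (x k)) (ht : tot (x 0) = 1)
    (hx : ∀ k, x k = KM (cst0.iter k).M (cst0.iter k).N (x (k + 1))) :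
    (T0 (hp 0) ht r).NoConnections := by
  intro m i j hi0 hi4 hj0 hj4 h
  have hs := std_tower_str hp hx 0
  have hp0 := hp 0
  have ht' : (x 0).1 + (x 0).2.1 + (x 0).2.2.1 + (x 0).2.2.2 = 1 := ht
  obtain ⟨q1, q2, q3, q4⟩ := hp0
  have hu : IsU (std 0 (x 0)) ((T0 (hp 0) ht r).b i) ∧ 0 < (T0 (hp 0) ht r).b i ∧
      (T0 (hp 0) ht r).b i < 1 := by
    fin_cases i
    · exact absurd rfl hi0
    · refine ⟨Or.inl ?_, ?_, ?_⟩
      · show (x 0).2.2.2 = (0 + (x 0).1) + ((x 0).2.2.2 - (x 0).1); ring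
      · show 0 < (x 0).2.2.2; exact q4
      · show (x 0).2.2.2 < 1; linarith
    · refine ⟨Or.inr (Or.inl ?_), ?_, ?_⟩
      · show (x 0).2.2.2 + (x 0).2.1 = (0 + (x 0).1 + (x 0).2.1) + ((x 0).2.2.2 - (x 0).1)
        ring
      · show 0 < (x 0).2.2.2 + (x 0).2.1; linarith
      · show (x 0).2.2.2 + (x 0).2.1 < 1; linarith
    · refine ⟨Or.inr (Or.inr ?_), ?_, ?_⟩
      · show (x 0).2.2.2 + (x 0).2.1 + (x 0).1 = (0 + (x 0).1 + (x 0).2.1) + (x 0).2.2.2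
        ring
      · show 0 < (x 0).2.2.2 + (x 0).2.1 + (x 0).1; linarith
      · show (x 0).2.2.2 + (x 0).2.1 + (x 0).1 < 1; linarith
    · exact absurd rfl hi4
  have hv : IsV (std 0 (x 0)) ((T0 (hp 0) ht r).t j) := by
    fin_cases j
    · exact absurd rfl hj0
    · refine Or.inl ?_
      show (x 0).1 = 0 + (x 0).1; ring
    · refine Or.inr (Or.inl ?_)
      show (x 0).1 + (x 0).2.1 = 0 + (x 0).1 + (x 0).2.1; ring
    · refine Or.inr (Or.inr ?_)
      show (x 0).1 + (x 0).2.1 + (x 0).2.2.1 = 0 + (x 0).1 + (x 0).2.1 + (x 0).2.2.1; ring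
    · exact absurd rfl hj4
  rw [← h] at hv
  obtain ⟨l, v', hv', hr⟩ := orbit_reach (hp 0) ht r m _ hu.2.1 hu.2.2 hv
  exact no_conn hs (l + 1) l (Nat.lt_succ_self l) 0 _ _ hu.1 hv' hr

/-- the maps all of whose renormalisations have non-negative lengths are semi-conjugate to the
standard map -/
theorem mem_semiClass {r : ℕ} {hr : 1 ≤ r} {x : ℕ → Vec} (hp : ∀ k, Pos (x k))
    (ht : tot (x 0) = 1) (hx : ∀ k, x k = KM (cst0.iter k).M (cst0.iter k).N (x (k + 1)))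
    {T : GK r} (hT : T ∈ TT r hr) (hA : All cst0 (stOf T)) :
    T ∈ (T0 (hp 0) ht r).semiClass := by
  obtain ⟨H, hm, hf, s1, s2, s3, sq⟩ := exists_strict (stOf_cl T) (TT_sl hT) hA
    (std_tower_str hp hx 0) (std_tr 0 (x 0))
  have hq := std_q ht
  have st := stOf_str T
  have o1 : 0 < T.t 1 := st.h1
  have o2 : T.t 1 < T.t 2 := st.h2
  have o3 : T.t 2 < T.t 3 := st.h3
  have o4 : T.t 3 < 1 := st.h4
  have H0 : H 0 = 0 := hm.p
  have H1 : H 1 = 1 := by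
    have := hm.q
    rw [hq] at this
    exact this
  have hmono : MonotoneOn H (Icc 0 1) := hm.mc.mono
  have hcont : ContinuousOn H (Icc 0 1) := hm.mc.cont
  refine ⟨H, hcont, hmono, ?_, ?_⟩
  · apply Subset.antisymm
    · rintro _ ⟨y, hy, rfl⟩
      constructor
      · rw [← H0]; exact hmono ⟨le_rfl, zero_le_one⟩ hy hy.1
      · rw [← H1]; exact hmono hy ⟨zero_le_one, le_rfl⟩ hy.2
    · have := intermediate_value_Icc (zero_le_one (α := ℝ)) hcont
      rw [H0, H1] at this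
      exact this
  · intro y hy
    have hyI : y ∈ Icc (0 : ℝ) 1 := ⟨hy.1, hy.2.le⟩
    have hy1 : H y < 1 := by
      have := sq y hyI hy.2
      rw [hq] at this
      exact this
    have hy0 : 0 ≤ H y := by
      rw [← H0]; exact hmono ⟨le_rfl, zero_le_one⟩ hyI hy.1
    refine ⟨⟨hy0, hy1⟩, ?_⟩
    rcases lt_or_ge y (T.t 1) with c1 | c1
    · have m1 : y ∈ Ico (T.topL 0) (T.topR 0) := ⟨by
        show T.t 0 ≤ y
        rw [T.t_zero]; exact hy.1, c1⟩
      rw [GIEM.map_eq T 0 m1, ← brIso_eq T 0 posN ⟨m1.1, m1.2.le⟩,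
        T0_mapA (hp 0) ht r hy0 (s1 y hyI c1)]
      exact hf.A y ⟨hy.1, c1.le⟩
    rcases lt_or_ge y (T.t 2) with c2 | c2
    · have m1 : y ∈ Ico (T.topL 1) (T.topR 1) := ⟨c1, c2⟩
      have hv : (std 0 (x 0)).v1 ≤ H y := by
        rw [← hm.v1]
        exact hmono (show T.t 1 ∈ Icc (0 : ℝ) 1 from ⟨o1.le, by linarith⟩) hyI c1
      rw [GIEM.map_eq T 1 m1, ← brIso_eq T 1 posN ⟨m1.1, m1.2.le⟩,
        T0_mapB (hp 0) ht r hv (s2 y hyI c2)]
      exact hf.B y ⟨c1, c2.le⟩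
    rcases lt_or_ge y (T.t 3) with c3 | c3
    · have m1 : y ∈ Ico (T.topL 2) (T.topR 2) := ⟨c2, c3⟩
      have hv : (std 0 (x 0)).v2 ≤ H y := by
        rw [← hm.v2]
        exact hmono (show T.t 2 ∈ Icc (0 : ℝ) 1 from ⟨by linarith, by linarith⟩) hyI c2
      rw [GIEM.map_eq T 2 m1, ← brIso_eq T 2 posP ⟨m1.1, m1.2.le⟩,
        T0_mapC (hp 0) ht r hv (s3 y hyI c3)]
      exact hf.C y ⟨c2, c3.le⟩
    · have m1 : y ∈ Ico (T.topL 3) (T.topR 3) := ⟨c3, by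
        show y < T.t (Fin.last 4)
        rw [T.t_last]; exact hy.2⟩
      have hv : (std 0 (x 0)).v3 ≤ H y := by
        rw [← hm.v3]
        exact hmono (show T.t 3 ∈ Icc (0 : ℝ) 1 from ⟨by linarith, o4.le⟩) hyI c3
      rw [GIEM.map_eq T 3 m1, ← brIso_eq T 3 posP ⟨m1.1, m1.2.le⟩,
        T0_mapD (hp 0) ht r hv (sq y hyI hy.2)]
      exact hf.D y ⟨c3, hy.2.le⟩

/-- the conclusion, with an arbitrary codimension at least three -/
theorem not_submanifold.{u} {r : ℕ} (hr : 1 ≤ r) {x : ℕ → Vec} (hp : ∀ k, Pos (x k))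
    (ht : tot (x 0) = 1) (hx : ∀ k, x k = KM (cst0.iter k).M (cst0.iter k).N (x (k + 1)))
    {k : ℕ} (hk : 3 ≤ k) :
    ¬ IsTopSubmanifold.{u} k (T0 (hp 0) ht r).semiClass := by
  intro hsub
  obtain ⟨ε, hε, hrob⟩ := robust r hr
  have cf : CFam (stOf : GK r → St) := cfam_stOf
  have hC : IsClosed {T : GK r | All cst0 (stOf T)} := by
    have : {T : GK r | All cst0 (stOf T)} = ⋂ n : ℕ,
        ({T : GK r | 0 ≤ (tower cst0 (stOf T) n).la} ∩
          {T : GK r | 0 ≤ (tower cst0 (stOf T) n).lb}) ∩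
        ({T : GK r | 0 ≤ (tower cst0 (stOf T) n).lc} ∩
          {T : GK r | 0 ≤ (tower cst0 (stOf T) n).ld}) := by
      ext T
      simp only [mem_iInter]
      constructor
      · intro h n
        exact ⟨⟨(h n).a, (h n).b⟩, (h n).c, (h n).d⟩
      · intro h n
        exact ⟨(h n).1.1, (h n).1.2, (h n).2.1, (h n).2.2⟩
    rw [this]
    refine isClosed_iInter fun n => ?_
    have c := cf.tower cst0 n
    exact ((isClosed_le continuous_const c.la).inter (isClosed_le continuous_const c.lb)).inter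
      ((isClosed_le continuous_const c.lc).inter (isClosed_le continuous_const c.ld))
  obtain ⟨G, hG1, hG2⟩ := general_position.{u} (by omega : 2 < k) (isOpen_TT r hr) hC
    (S := (T0 (hp 0) ht r).semiClass) (fun T hT => mem_semiClass hp ht hx hT.2 hT.1)
    (fun T hT => hsub T (mem_semiClass hp ht hx hT.2 hT.1)) (FF r) (FF_mem r hr) hε
  obtain ⟨s, -, hs⟩ := hrob G hG1
  exact hG2 s hs

end Pool.Agent.TH227.GE
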