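import Mathlib

set_option autoImplicit false

/-!
Generalised interval exchange maps of class `C^r` on `[0, 1)`, their topology, standard interval
exchange maps, connections, semi-conjugacy classes and topological submanifolds.
-/

namespace Pool.Agent.TH227.GE

open Set

/-- Combinatorial data: the alphabet is `Fin d`, and `top a`, `bot a` are the positions of the
letter `a` in the top line and in the bottom line (both counted from `0` to `d - 1`). -/
structure CombData (d : ℕ) where
  top : Equiv.Perm (Fin d)
  bot : Equiv.Perm (Fin d)

/-- Irreducibility: for `0 < k < d` the set of the first `k` letters of the top line is not the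
set of the first `k` letters of the bottom line. -/
def CombData.Irreducible {d : ℕ} (π : CombData d) : Prop :=
  ∀ k : ℕ, 0 < k → k < d →
    {a : Fin d | (π.top a : ℕ) < k} ≠ {a : Fin d | (π.bot a : ℕ) < k}

/-- Orientation preserving `C^r` diffeomorphisms of the unit interval (for `1 ≤ r`): real functions
on `[0, 1]` of class `C^r` up to the endpoints, with values `0` at `0` and `1` at `1`, and with
positive derivative at every point of `[0, 1]`. -/
structure UnitDiffeo (r : ℕ) where
  toFun : unitInterval → ℝ
  contDiffOn : ContDiffOn ℝ r (IccExtend (zero_le_one (α := ℝ)) toFun) (Icc 0 1)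
  map_zero : toFun 0 = 0
  map_one : toFun 1 = 1
  deriv_pos : ∀ x ∈ Icc (0 : ℝ) 1,
    0 < derivWithin (IccExtend (zero_le_one (α := ℝ)) toFun) (Icc 0 1) x

/-- The derivatives of order `0, ..., r` as continuous functions on `[0, 1]`. -/
noncomputable def UnitDiffeo.jet {r : ℕ} (φ : UnitDiffeo r) (j : Fin (r + 1)) :
    C(unitInterval, ℝ) where
  toFun x := iteratedDerivWithin j (IccExtend (zero_le_one (α := ℝ)) φ.toFun) (Icc 0 1) x
  continuous_toFun := by
    have h := φ.contDiffOn.continuousOn_iteratedDerivWithin (m := (j : ℕ))
      (by exact_mod_cast Nat.lt_succ_iff.1 j.2) (uniqueDiffOn_Icc zero_lt_one)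
    exact h.comp_continuous continuous_subtype_val (fun x => x.2)

theorem UnitDiffeo.jet_zero {r : ℕ} (φ : UnitDiffeo r) (x : unitInterval) :
    φ.jet 0 x = φ.toFun x := by
  show iteratedDerivWithin ((0 : Fin (r + 1)) : ℕ)
    (IccExtend (zero_le_one (α := ℝ)) φ.toFun) (Icc 0 1) x = φ.toFun x
  rw [Fin.val_zero, iteratedDerivWithin_zero, IccExtend_val]

theorem UnitDiffeo.ext' {r : ℕ} {φ ψ : UnitDiffeo r} (h : φ.toFun = ψ.toFun) : φ = ψ := by
  cases φ; cases ψ
  simp only at h
  subst h
  rfl

/-- A generalised interval exchange map of class `C^r` on `[0, 1)` with combinatorial data `π`: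
the endpoints `0 = t 0 < ... < t d = 1` of the top partition, the endpoints
`0 = b 0 < ... < b d = 1` of the bottom partition, both listed from left to right, and for each
letter the branch, rescaled by affine maps to a diffeomorphism of the unit interval. -/
structure GIEM {d : ℕ} (π : CombData d) (r : ℕ) where
  t : Fin (d + 1) → ℝ
  b : Fin (d + 1) → ℝ
  t_mono : StrictMono t
  b_mono : StrictMono b
  t_zero : t 0 = 0
  t_last : t (Fin.last d) = 1
  b_zero : b 0 = 0
  b_last : b (Fin.last d) = 1
  φ : Fin d → UnitDiffeo r

namespace GIEM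

variable {d r : ℕ} {π : CombData d}

/-- The parameters of a generalised interval exchange map: the endpoints of the two partitions and
the derivatives of order `0, ..., r` of the rescaled branches. -/
noncomputable def code (T : GIEM π r) :
    (Fin (d + 1) → ℝ) × (Fin (d + 1) → ℝ) × (Fin d → Fin (r + 1) → C(unitInterval, ℝ)) :=
  (T.t, T.b, fun a => (T.φ a).jet)

theorem code_injective : Function.Injective (code : GIEM π r → _) := by
  intro T T' h
  have h1 : T.t = T'.t := congrArg Prod.fst h
  have h2 : T.b = T'.b := congrArg (fun z => z.2.1) h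
  have h3 : (fun a => (T.φ a).jet) = fun a => (T'.φ a).jet := congrArg (fun z => z.2.2) h
  have h4 : T.φ = T'.φ := by
    funext a
    apply UnitDiffeo.ext'
    funext x
    have h5 : (T.φ a).jet 0 x = (T'.φ a).jet 0 x := by rw [congrFun h3 a]
    rwa [UnitDiffeo.jet_zero, UnitDiffeo.jet_zero] at h5
  cases T; cases T'
  simp only at h1 h2 h4
  subst h1 h2 h4
  rfl

/-- The distance: the maximum of the distances of the endpoints and of the uniform distances of
the derivatives of order `0, ..., r` of the rescaled branches. -/
noncomputable instance : MetricSpace (GIEM π r) :=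
  MetricSpace.induced code code_injective inferInstance

/-- The left endpoint of the top interval of the letter `a`. -/
def topL (T : GIEM π r) (a : Fin d) : ℝ := T.t (π.top a).castSucc

/-- The right endpoint of the top interval of the letter `a`. -/
def topR (T : GIEM π r) (a : Fin d) : ℝ := T.t (π.top a).succ

/-- The left endpoint of the bottom interval of the letter `a`. -/
def botL (T : GIEM π r) (a : Fin d) : ℝ := T.b (π.bot a).castSucc

/-- The right endpoint of the bottom interval of the letter `a`. -/
def botR (T : GIEM π r) (a : Fin d) : ℝ := T.b (π.bot a).succ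

/-- The branch of the letter `a`, on the closed top interval of `a`. -/
noncomputable def branch (T : GIEM π r) (a : Fin d) (x : ℝ) : ℝ :=
  T.botL a + (T.botR a - T.botL a) *
    IccExtend (zero_le_one (α := ℝ)) (T.φ a).toFun ((x - T.topL a) / (T.topR a - T.topL a))

/-- The map on `[0, 1)`: it is equal to the branch of `a` on `[topL a, topR a)` (and it is given
the value `0` outside of `[0, 1)`). -/
noncomputable def map (T : GIEM π r) (x : ℝ) : ℝ :=
  ∑ a, (Ico (T.topL a) (T.topR a)).indicator (T.branch a) x

/-- `T` is a standard interval exchange map: every branch is a translation. -/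
def IsStandard (T : GIEM π r) : Prop :=
  ∀ a, ∃ τ : ℝ, ∀ x ∈ Icc (T.topL a) (T.topR a), T.branch a x = x + τ

/-- `T` has no connections: no interior endpoint of the bottom partition is mapped by an iterate
`T^m`, `m ≥ 0`, to an interior endpoint of the top partition. -/
def NoConnections (T : GIEM π r) : Prop :=
  ∀ (m : ℕ) (i j : Fin (d + 1)), i ≠ 0 → i ≠ Fin.last d → j ≠ 0 → j ≠ Fin.last d →
    T.map^[m] (T.b i) ≠ T.t j

/-- `T` is semi-conjugate to `T₀`: there is a continuous non-decreasing map `h` of `[0, 1]` onto
`[0, 1]` with `h ∘ T = T₀ ∘ h` on `[0, 1)`. -/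
def SemiConjTo (T T₀ : GIEM π r) : Prop :=
  ∃ h : ℝ → ℝ, ContinuousOn h (Icc 0 1) ∧ MonotoneOn h (Icc 0 1) ∧ h '' Icc 0 1 = Icc 0 1 ∧
    ∀ x ∈ Ico (0 : ℝ) 1, h x ∈ Ico (0 : ℝ) 1 ∧ h (T.map x) = T₀.map (h x)

/-- The set of the generalised interval exchange maps of class `C^r` semi-conjugate to `T₀`. -/
def semiClass (T₀ : GIEM π r) : Set (GIEM π r) := {T | SemiConjTo T T₀}

end GIEM

/-- `S` is a topological submanifold of codimension `k` of the space `X`: each point of `S` is in
the source of a homeomorphism between an open subset of `X` and an open subset of `E × ℝ^k`, where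
`E` is a Banach space, which takes the points of `S` in its source to the points of `E × {0}` in its
target. -/
def IsTopSubmanifold.{u, v} {X : Type v} [TopologicalSpace X] (k : ℕ) (S : Set X) : Prop :=
  ∀ x ∈ S, ∃ (E : Type u) (_ : NormedAddCommGroup E) (_ : NormedSpace ℝ E) (_ : CompleteSpace E)
    (e : OpenPartialHomeomorph X (E × (Fin k → ℝ))), x ∈ e.source ∧
    ∀ y ∈ e.source, y ∈ S ↔ (e y).2 = 0

end Pool.Agent.TH227.GE
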