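import Pool.Agent.TH227.GE.State

set_option autoImplicit false

/-!
Pointwise estimates for one renormalisation step.
-/

namespace Pool.Agent.TH227.GE

open St

/-- weakly ordered break points -/
structure Cl (σ : St) : Prop where
  h1 : σ.p ≤ σ.v1
  h2 : σ.v1 ≤ σ.v2
  h3 : σ.v2 ≤ σ.v3
  h4 : σ.v3 ≤ σ.q
  h5 : σ.p < σ.q

/-- the lengths of the bottom intervals -/
structure Bot (σ : St) (lN uN lP uP : ℝ) : Prop where
  D1 : lP * σ.ld ≤ σ.B σ.v1 - σ.p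
  D2 : σ.B σ.v1 - σ.p ≤ uP * σ.ld
  B1 : lN * σ.lb ≤ σ.B σ.v2 - σ.B σ.v1
  B2 : σ.B σ.v2 - σ.B σ.v1 ≤ uN * σ.lb
  A1 : lN * σ.la ≤ σ.C σ.v2 - σ.B σ.v2
  A2 : σ.C σ.v2 - σ.B σ.v2 ≤ uN * σ.la
  C1 : lP * σ.lc ≤ σ.q - σ.C σ.v2
  C2 : σ.q - σ.C σ.v2 ≤ uP * σ.lc

variable {σ : St} {lN uN lP uP : ℝ}

theorem Cl.bot (hc : Cl σ) (hs : Slopes σ lN uN lP uP) : Bot σ lN uN lP uP := by
  obtain ⟨sA, sB, sC, sD⟩ := hs
  obtain ⟨a1, a2⟩ := sA _ _ hc.h1
  obtain ⟨b1, b2⟩ := sB _ _ hc.h2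
  obtain ⟨c1, c2⟩ := sC _ _ hc.h3
  obtain ⟨d1, d2⟩ := sD _ _ hc.h4
  have e1 := σ.hD
  have e2 := σ.hA
  have e3 := σ.hB
  have e4 := σ.hC
  have e5 := σ.hq
  rw [e1, ← e3] at d1 d2
  rw [e2, ← e4] at a1 a2
  rw [e5] at c1 c2
  exact ⟨d1, d2, b1, b2, a1, a2, c1, c2⟩

theorem Cl.la0 (hc : Cl σ) : 0 ≤ σ.la := by unfold St.la; linarith [hc.h1]
theorem Cl.lb0 (hc : Cl σ) : 0 ≤ σ.lb := by unfold St.lb; linarith [hc.h2]
theorem Cl.lc0 (hc : Cl σ) : 0 ≤ σ.lc := by unfold St.lc; linarith [hc.h3]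
theorem Cl.ld0 (hc : Cl σ) : 0 ≤ σ.ld := by unfold St.ld; linarith [hc.h4]
theorem sum_eq (σ : St) : σ.la + σ.lb + σ.lc + σ.ld = σ.q - σ.p := by
  unfold St.la St.lb St.lc St.ld; ring

/-- the two expanded top intervals fill at most half of the interval -/
theorem Cl.small (hc : Cl σ) (hs : Slopes σ lN uN lP uP) (ok : OK lN uN lP uP) :
    σ.lc + σ.ld ≤ (σ.q - σ.p) / 2 := by
  have b := hc.bot hs
  have h1 := b.C1
  have h2 := b.D1
  have h3 := b.A1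
  have h4 := b.B1
  have h5 := mul_nonneg ok.h1.le hc.la0
  have h6 := mul_nonneg ok.h1.le hc.lb0
  have h7 : 2 * σ.lc ≤ lP * σ.lc := mul_le_mul_of_nonneg_right ok.h4 hc.lc0
  have h8 : 2 * σ.ld ≤ lP * σ.ld := mul_le_mul_of_nonneg_right ok.h4 hc.ld0
  linarith

/-- the two contracted bottom intervals fill at most the proportion `uN` -/
theorem Cl.small' (hc : Cl σ) (hs : Slopes σ lN uN lP uP) (ok : OK lN uN lP uP) :
    (σ.C σ.v2 - σ.B σ.v1) ≤ uN * (σ.q - σ.p) := by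
  have b := hc.bot hs
  have h1 := b.A2
  have h2 := b.B2
  have h3 := sum_eq σ
  have h4 : uN * (σ.la + σ.lb) ≤ uN * (σ.q - σ.p) :=
    mul_le_mul_of_nonneg_left (by linarith [hc.lc0, hc.ld0]) ok.h2.le
  linarith

/-! ### signs of the new lengths -/

theorem la'_nonneg {M N : ℕ} : 0 ≤ (renorm M N σ).la ↔ σ.v2 ≤ (σ.B ^ (M + 1)) σ.v1 := by
  have : (renorm M N σ).la = σ.q - σ.D.symm ((σ.B ^ M).symm σ.v2) := by
    show - σ.D.symm ((σ.B ^ M).symm σ.v2) - - σ.q = _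
    ring
  rw [this, sub_nonneg, pow_succ_app', σ.hB, OrderIso.symm_apply_le, OrderIso.symm_apply_le]

theorem la'_neg {M N : ℕ} : (renorm M N σ).la < 0 ↔ (σ.B ^ (M + 1)) σ.v1 < σ.v2 := by
  rw [← not_le, la'_nonneg, not_le]

theorem lb'_nonneg {M N : ℕ} : 0 ≤ (renorm M N σ).lb ↔ (σ.B ^ M) σ.v1 ≤ σ.v2 := by
  have : (renorm M N σ).lb = σ.D.symm ((σ.B ^ M).symm σ.v2) - σ.D.symm σ.v1 := by
    show - σ.D.symm σ.v1 - - σ.D.symm ((σ.B ^ M).symm σ.v2) = _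
    ring
  rw [this, sub_nonneg, OrderIso.le_iff_le, OrderIso.le_symm_apply]

theorem lb'_neg {M N : ℕ} : (renorm M N σ).lb < 0 ↔ σ.v2 < (σ.B ^ M) σ.v1 := by
  rw [← not_le, lb'_nonneg, not_le]

theorem lc'_nonneg {M N : ℕ} : 0 ≤ (renorm M N σ).lc ↔ (σ.C ^ N).symm σ.v3 ≤ σ.C σ.v2 := by
  have : (renorm M N σ).lc = σ.D.symm σ.v1 - σ.D.symm (σ.A.symm ((σ.C ^ N).symm σ.v3)) := by
    show - σ.D.symm (σ.A.symm ((σ.C ^ N).symm σ.v3)) - - σ.D.symm σ.v1 = _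
    ring
  rw [this, sub_nonneg, OrderIso.le_iff_le, OrderIso.symm_apply_le, σ.hC]

theorem lc'_neg {M N : ℕ} : (renorm M N σ).lc < 0 ↔ σ.C σ.v2 < (σ.C ^ N).symm σ.v3 := by
  rw [← not_le, lc'_nonneg, not_le]

theorem ld'_nonneg {M N : ℕ} : 0 ≤ (renorm M N σ).ld ↔ σ.B σ.v2 ≤ (σ.C ^ N).symm σ.v3 := by
  have : (renorm M N σ).ld = σ.D.symm (σ.A.symm ((σ.C ^ N).symm σ.v3)) - σ.v3 := by
    show - σ.v3 - - σ.D.symm (σ.A.symm ((σ.C ^ N).symm σ.v3)) = _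
    ring
  rw [this, sub_nonneg, OrderIso.le_symm_apply, σ.hD, OrderIso.le_symm_apply, σ.hA]

theorem ld'_neg {M N : ℕ} : (renorm M N σ).ld < 0 ↔ (σ.C ^ N).symm σ.v3 < σ.B σ.v2 := by
  rw [← not_le, ld'_nonneg, not_le]

/-! ### iteration of increasing maps -/

theorem le_pow_of_le (f : ℝ ≃o ℝ) {x : ℝ} (h : x ≤ f x) (n : ℕ) : x ≤ (f ^ n) x := by
  induction n with
  | zero => exact le_rfl
  | succ n ih =>
    rw [pow_succ_app]
    exact h.trans (f.monotone ih)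

theorem pow_le_of_le (f : ℝ ≃o ℝ) {x : ℝ} (h : f x ≤ x) (n : ℕ) : (f ^ n) x ≤ x := by
  induction n with
  | zero => exact le_rfl
  | succ n ih =>
    rw [pow_succ_app]
    exact (f.monotone ih).trans h

theorem pow_lt_pow_succ_of_lt (f : ℝ ≃o ℝ) {x : ℝ} (h : x < f x) (n : ℕ) :
    (f ^ n) x < (f ^ (n + 1)) x := by
  rw [pow_succ_app']
  exact (f ^ n).strictMono h

theorem lt_of_pow_lt_pow_succ (f : ℝ ≃o ℝ) {x : ℝ} {n : ℕ} (h : (f ^ n) x < (f ^ (n + 1)) x) :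
    x < f x := by
  rw [pow_succ_app'] at h
  exact (f ^ n).lt_iff_lt.1 h

theorem le_of_pow_le_pow_succ (f : ℝ ≃o ℝ) {x : ℝ} {n : ℕ} (h : (f ^ n) x ≤ (f ^ (n + 1)) x) :
    x ≤ f x := by
  rw [pow_succ_app'] at h
  exact (f ^ n).le_iff_le.1 h

theorem pow_mono_of_le (f : ℝ ≃o ℝ) {x : ℝ} (h : x ≤ f x) {m n : ℕ} (hmn : m ≤ n) :
    (f ^ m) x ≤ (f ^ n) x := by
  obtain ⟨k, rfl⟩ := Nat.exists_eq_add_of_le hmn
  rw [pow_add, mul_app]
  exact (f ^ m).monotone (le_pow_of_le f h k)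

/-! ### the four sides -/

/-- `u1 > v2` forces the new `lb` to be negative -/
theorem side_i {M N : ℕ} (hM : 1 ≤ M) (h12 : σ.v1 ≤ σ.v2) (h : σ.v2 < σ.B σ.v1) :
    (renorm M N σ).lb < 0 := by
  rw [lb'_neg]
  have h1 : σ.v1 ≤ σ.B σ.v1 := h12.trans h.le
  have := pow_mono_of_le σ.B h1 hM
  rw [pow_one_app] at this
  linarith

/-- `u2 < v2` forces the new `la` to be negative -/
theorem side_ii {M N : ℕ} (h12 : σ.v1 ≤ σ.v2) (h : σ.B σ.v2 < σ.v2) :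
    (renorm M N σ).la < 0 := by
  rw [la'_neg]
  have h1 : (σ.B ^ (M + 1)) σ.v1 ≤ (σ.B ^ (M + 1)) σ.v2 := (σ.B ^ (M + 1)).monotone h12
  have h2 : (σ.B ^ (M + 1)) σ.v2 ≤ σ.B σ.v2 := by
    rw [pow_succ_app]
    exact σ.B.monotone (pow_le_of_le σ.B h.le M)
  linarith

/-- the strip: consequences of `0 ≤ la'` and `0 ≤ lb'` -/
theorem strip {M N : ℕ} (ok : OK lN uN lP uP)
    (hc : Cl σ) (hs : Slopes σ lN uN lP uP) (ha : 0 ≤ (renorm M N σ).la)
    (hb : 0 ≤ (renorm M N σ).lb) :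
    σ.v2 ≤ σ.B σ.v2 ∧ σ.B σ.v2 - σ.v2 ≤ uN ^ M * (σ.q - σ.p) := by
  have h0 : σ.v2 ≤ σ.B σ.v2 := by
    by_contra h
    rw [not_le] at h
    have := side_ii (M := M) (N := N) hc.h2 h
    linarith
  refine ⟨h0, ?_⟩
  rw [la'_nonneg] at ha
  rw [lb'_nonneg] at hb
  have hv : σ.v1 ≤ σ.B σ.v1 := le_of_pow_le_pow_succ σ.B (n := M) (hb.trans ha)
  -- displacement is non-increasing
  have hd : ∀ x y : ℝ, x ≤ y → σ.B y - y ≤ σ.B x - x := by
    intro x y hxy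
    have := (hs.2.1 x y hxy).2
    have h3 : uN * (y - x) ≤ 1 * (y - x) :=
      mul_le_mul_of_nonneg_right (by linarith [ok.h3]) (by linarith)
    linarith
  have h1 : σ.B σ.v2 - σ.v2 ≤ σ.B ((σ.B ^ M) σ.v1) - (σ.B ^ M) σ.v1 := hd _ _ hb
  have h2 : ∀ n : ℕ, σ.B ((σ.B ^ n) σ.v1) - (σ.B ^ n) σ.v1 ≤ uN ^ n * (σ.B σ.v1 - σ.v1) := by
    intro n
    induction n with
    | zero => simp [RelIso.one_apply]
    | succ n ih =>
      have hle : (σ.B ^ n) σ.v1 ≤ (σ.B ^ (n + 1)) σ.v1 := pow_mono_of_le σ.B hv (Nat.le_succ n)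
      have := (hs.2.1 _ _ hle).2
      rw [← pow_succ_app] at ih
      calc σ.B ((σ.B ^ (n + 1)) σ.v1) - (σ.B ^ (n + 1)) σ.v1
          = σ.B ((σ.B ^ (n + 1)) σ.v1) - σ.B ((σ.B ^ n) σ.v1) := by
            rw [pow_succ_app σ.B n]
        _ ≤ uN * ((σ.B ^ (n + 1)) σ.v1 - (σ.B ^ n) σ.v1) := this
        _ ≤ uN * (uN ^ n * (σ.B σ.v1 - σ.v1)) := mul_le_mul_of_nonneg_left ih ok.h2.le
        _ = uN ^ (n + 1) * (σ.B σ.v1 - σ.v1) := by ring
  have h3 : σ.B σ.v1 - σ.v1 ≤ σ.q - σ.p := by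
    have b := hc.bot hs
    have e1 := b.B1
    have e2 := b.A1
    have e3 := b.C1
    have f1 := mul_nonneg ok.h1.le hc.la0
    have f2 := mul_nonneg ok.h1.le hc.lb0
    have f3 := mul_nonneg (by linarith [ok.h4] : 0 ≤ lP) hc.lc0
    linarith [hc.h1]
  calc σ.B σ.v2 - σ.v2 ≤ _ := h1
    _ ≤ uN ^ M * (σ.B σ.v1 - σ.v1) := h2 M
    _ ≤ uN ^ M * (σ.q - σ.p) := by
      have := ok.h2
      gcongr

/-- in the strip, a long first interval forces the new `ld` to be negative -/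
theorem side_iii {M N : ℕ} (ok : OK lN uN lP uP) (g : Good lN uN lP uP M N)
    (hc : Cl σ) (hs : Slopes σ lN uN lP uP) (ha : 0 ≤ (renorm M N σ).la)
    (hb : 0 ≤ (renorm M N σ).lb) (hl : (σ.q - σ.p) / 4 < σ.la) :
    (renorm M N σ).ld < 0 := by
  obtain ⟨hs1, hs2⟩ := strip ok hc hs ha hb
  rw [ld'_neg]
  have b := hc.bot hs
  have hL : 0 < σ.q - σ.p := by linarith [hc.h5]
  -- claim: `C ^ (N + 1)` moves `v2` above `q`
  set th := σ.C σ.v2 - σ.v2 with hth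
  have hth1 : lN * ((σ.q - σ.p) / 4) < th := by
    have h1 := b.A1
    have h2 : lN * ((σ.q - σ.p) / 4) < lN * σ.la := mul_lt_mul_of_pos_left hl ok.h1
    linarith
  have hth0 : 0 < th := lt_trans (by have := ok.h1; positivity) hth1
  have hlP : 0 ≤ lP := by linarith [ok.h4]
  -- expansion
  have h3 : ∀ n : ℕ, lP ^ n * th ≤ (σ.C ^ (n + 1)) σ.v2 - (σ.C ^ n) σ.v2 := by
    intro n
    have := ((hs.2.2.1.pow hlP (by linarith [ok.h4, ok.h5]) n) σ.v2 (σ.C σ.v2)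
      (by linarith)).1
    rw [← pow_succ_app'] at this
    exact this
  have hmono : ∀ n : ℕ, σ.v2 ≤ (σ.C ^ n) σ.v2 := fun n => le_pow_of_le σ.C (by linarith) n
  have h4 : σ.q < (σ.C ^ (N + 1)) σ.v2 := by
    have e1 := h3 N
    have e2 := hmono N
    have e3 : (σ.q - σ.p) < lP ^ N * th := by
      have g1 := g.h1
      have hp : 0 < lP ^ N := by
        have := ok.h4
        have : 0 < lP := by linarith
        positivity
      calc σ.q - σ.p = 4 * ((σ.q - σ.p) / 4) := by ring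
        _ ≤ lP ^ N * lN * ((σ.q - σ.p) / 4) := by gcongr
        _ = lP ^ N * (lN * ((σ.q - σ.p) / 4)) := by ring
        _ < lP ^ N * th := by gcongr
    have e4 : σ.p ≤ σ.v2 := hc.h1.trans hc.h2
    linarith
  -- hence `C⁻ᴺ v3 < v2`
  have h5 : (σ.C ^ N).symm σ.v3 < σ.v2 := by
    rw [OrderIso.symm_apply_lt]
    have h6 : σ.C σ.v3 < σ.C ((σ.C ^ N) σ.v2) := by
      rw [σ.hq, ← pow_succ_app]; exact h4
    exact σ.C.lt_iff_lt.1 h6
  linarith

/-- in the strip, a short first interval forces the new `lc` to be negative -/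
theorem side_iv {M N : ℕ} (ok : OK lN uN lP uP)
    (hc : Cl σ) (hs : Slopes σ lN uN lP uP) (ha : 0 ≤ (renorm M N σ).la)
    (hb : 0 ≤ (renorm M N σ).lb)
    (hl : (uN * σ.la + uN ^ M * (σ.q - σ.p)) * (16 * uP ^ (N + 2)) < σ.q - σ.p) :
    (renorm M N σ).lc < 0 := by
  obtain ⟨hs1, hs2⟩ := strip ok hc hs ha hb
  rw [lc'_neg]
  have b := hc.bot hs
  have hL : 0 < σ.q - σ.p := by linarith [hc.h5]
  have huP : 2 ≤ uP := by linarith [ok.h4, ok.h5]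
  set th := σ.C σ.v2 - σ.v2 with hth
  have hth0 : 0 ≤ th := by
    have := b.A1
    have h2 := mul_nonneg ok.h1.le hc.la0
    linarith
  have hth1 : th * (16 * uP ^ (N + 2)) < σ.q - σ.p := by
    have h1 := b.A2
    have h2 : th ≤ uN * σ.la + uN ^ M * (σ.q - σ.p) := by linarith
    calc th * (16 * uP ^ (N + 2))
        ≤ (uN * σ.la + uN ^ M * (σ.q - σ.p)) * (16 * uP ^ (N + 2)) := by gcongr
      _ < _ := hl
  have hth2 : th * (16 * uP) < σ.q - σ.p := by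
    have h1 : uP ≤ uP ^ (N + 2) := by
      calc uP = uP ^ 1 := (pow_one _).symm
        _ ≤ uP ^ (N + 2) := pow_le_pow_right₀ (by linarith) (by omega)
    calc th * (16 * uP) ≤ th * (16 * uP ^ (N + 2)) := by gcongr
      _ < _ := hth1
  -- lower bound for the bottom interval of `C`
  set g' := σ.q - σ.C σ.v2 with hg'
  have hgam : (σ.q - σ.p) / (4 * uP) ≤ g' := by
    rw [div_le_iff₀ (by positivity)]
    by_contra hcon
    rw [not_le] at hcon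
    have h1 := b.D2
    have h2 := hc.small' hs ok
    have h3 : uN * (σ.q - σ.p) ≤ 1 / 4 * (σ.q - σ.p) :=
      mul_le_mul_of_nonneg_right ok.h3 hL.le
    -- `g' < L / 4 / uP ≤ L / 8`
    have hg0 : 0 ≤ g' := le_trans (mul_nonneg (by linarith [ok.h4]) hc.lc0) b.C1
    have h4 : g' * 8 ≤ g' * (4 * uP) := by gcongr; linarith
    have h5 : (σ.q - σ.p) / 2 ≤ uP * σ.ld := by linarith
    -- `g' = lc + ld - th`
    have h6 : g' = σ.lc + σ.ld - th := by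
      have := sum_eq σ
      unfold St.la St.lb at this
      linarith
    have h7 : uP * σ.ld ≤ uP * (g' + th) := by
      have := hc.lc0
      gcongr
      linarith
    have h8 : uP * (g' + th) = uP * g' + uP * th := by ring
    linarith
  -- iteration: `x ≥ u3` moves by at most `uP`-expansion
  have key : ∀ n : ℕ, ∀ x : ℝ, σ.C σ.v2 ≤ x →
      (σ.C ^ n) x - σ.C σ.v2 ≤ uP ^ n * (x - σ.C σ.v2 + 2 * th) - 2 * th := by
    intro n
    induction n with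
    | zero => intro x hx; rw [pow_zero_app, pow_zero]; linarith
    | succ n ih =>
      intro x hx
      rw [pow_succ_app']
      have hx2 : σ.v2 ≤ x := by linarith
      have e1 := (hs.2.2.1 σ.v2 x hx2).2
      have e2 : σ.C σ.v2 ≤ σ.C x := σ.C.monotone hx2
      refine (ih (σ.C x) e2).trans ?_
      have e3 : σ.C x - σ.C σ.v2 + 2 * th ≤ uP * (x - σ.C σ.v2 + 2 * th) := by
        have : uP * (x - σ.v2) = uP * (x - σ.C σ.v2) + uP * th := by rw [hth]; ring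
        nlinarith
      have e4 : 0 ≤ uP ^ n := by positivity
      calc uP ^ n * (σ.C x - σ.C σ.v2 + 2 * th) - 2 * th
          ≤ uP ^ n * (uP * (x - σ.C σ.v2 + 2 * th)) - 2 * th := by gcongr
        _ = _ := by ring
  -- conclude
  rw [OrderIso.lt_symm_apply]
  by_contra hcon
  rw [not_lt] at hcon
  -- then `q ≤ C ^ (N + 1) u3`
  have e1 : σ.q ≤ (σ.C ^ (N + 1)) (σ.C σ.v2) := by
    rw [pow_succ_app, ← σ.hq]
    exact σ.C.monotone hcon
  have e2 := key (N + 1) (σ.C σ.v2) le_rfl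
  have e3 : (σ.q - σ.p) / (4 * uP) ≤ uP ^ (N + 1) * (2 * th) := by
    have : uP ^ (N + 1) * (σ.C σ.v2 - σ.C σ.v2 + 2 * th) = uP ^ (N + 1) * (2 * th) := by ring
    rw [this] at e2
    linarith
  rw [div_le_iff₀ (by positivity)] at e3
  have e4 : uP ^ (N + 1) * (2 * th) * (4 * uP) * 2 = th * (16 * uP ^ (N + 2)) := by ring
  nlinarith

/-! ### the degenerate sides -/

theorem deg_c {M N : ℕ} (ok : OK lN uN lP uP) (g : Good lN uN lP uP M N)
    (hc : Cl σ) (hs : Slopes σ lN uN lP uP) (h : σ.lc = 0) : (renorm M N σ).lb < 0 := by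
  have b := hc.bot hs
  have hL : 0 < σ.q - σ.p := by linarith [hc.h5]
  apply side_i g.hM hc.h2
  have h1 : σ.q - σ.C σ.v2 ≤ 0 := by have := b.C2; rw [h] at this; linarith
  have h2 := hc.small' hs ok
  have h3 := b.D2
  have h4 : σ.v2 = σ.q - σ.ld := by unfold St.lc at h; unfold St.ld; linarith
  have h5 : uN * (σ.q - σ.p) ≤ 1 / 4 * (σ.q - σ.p) := mul_le_mul_of_nonneg_right ok.h3 hL.le
  -- `ld ≥ 3 L / (4 uP)`
  have huP : 0 < uP := by linarith [ok.h4, ok.h5]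
  have h6 : 3 / 4 * (σ.q - σ.p) ≤ uP * σ.ld := by linarith
  have h7 : uN * (σ.q - σ.p) < σ.ld := by
    have : uP * (uN * (σ.q - σ.p)) < uP * σ.ld := by
      calc uP * (uN * (σ.q - σ.p)) = uN * uP * (σ.q - σ.p) := by ring
        _ ≤ 1 / 8 * (σ.q - σ.p) := mul_le_mul_of_nonneg_right ok.h6 hL.le
        _ < 3 / 4 * (σ.q - σ.p) := by linarith
        _ ≤ _ := h6
    exact lt_of_mul_lt_mul_left this huP.le
  linarith

theorem deg_d {M N : ℕ} (ok : OK lN uN lP uP)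
    (hc : Cl σ) (hs : Slopes σ lN uN lP uP) (h : σ.ld = 0) : (renorm M N σ).la < 0 := by
  have b := hc.bot hs
  have hL : 0 < σ.q - σ.p := by linarith [hc.h5]
  apply side_ii hc.h2
  have h1 : σ.B σ.v1 - σ.p ≤ 0 := by have := b.D2; rw [h] at this; linarith
  have h2 := hc.small' hs ok
  have h3 := hc.small hs ok
  have h5 : uN * (σ.q - σ.p) ≤ 1 / 4 * (σ.q - σ.p) := mul_le_mul_of_nonneg_right ok.h3 hL.le
  have h6 : 0 ≤ σ.C σ.v2 - σ.B σ.v2 := le_trans (mul_nonneg ok.h1.le hc.la0) b.A1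
  have h7 := sum_eq σ
  have h8 : σ.v2 - σ.p = σ.la + σ.lb := by unfold St.la St.lb; ring
  linarith

theorem deg_b {M N : ℕ} (ok : OK lN uN lP uP) (g : Good lN uN lP uP M N)
    (hc : Cl σ) (hs : Slopes σ lN uN lP uP) (ha : 0 ≤ (renorm M N σ).la)
    (hb : 0 ≤ (renorm M N σ).lb) (h : σ.lb = 0) : (renorm M N σ).ld < 0 := by
  have hL : 0 < σ.q - σ.p := by linarith [hc.h5]
  apply side_iii ok g hc hs ha hb
  have h3 := hc.small hs ok
  have h7 := sum_eq σ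
  linarith

theorem deg_a {M N : ℕ} (ok : OK lN uN lP uP) (g : Good lN uN lP uP M N)
    (hc : Cl σ) (hs : Slopes σ lN uN lP uP) (ha : 0 ≤ (renorm M N σ).la)
    (hb : 0 ≤ (renorm M N σ).lb) (h : σ.la = 0) : (renorm M N σ).lc < 0 := by
  have hL : 0 < σ.q - σ.p := by linarith [hc.h5]
  have huP : 2 ≤ uP := by linarith [ok.h4, ok.h5]
  apply side_iv ok hc hs ha hb
  rw [h, mul_zero, zero_add]
  have h1 : uN ^ M * uP ^ (N + 2) ≤ 1 / 32 := by
    have hN := ok.h2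
    calc uN ^ M * uP ^ (N + 2) ≤ uN ^ M * uP ^ (2 * (N + 2)) := by
          gcongr
          · linarith
          · omega
      _ ≤ _ := g.h2
  calc uN ^ M * (σ.q - σ.p) * (16 * uP ^ (N + 2))
      = uN ^ M * uP ^ (N + 2) * 16 * (σ.q - σ.p) := by ring
    _ ≤ 1 / 32 * 16 * (σ.q - σ.p) := by gcongr
    _ < _ := by linarith

/-- the two functions cutting out the strip are not both non-positive, except at pinch points -/
theorem pinch {M N : ℕ} (hM : 1 ≤ M) (h12 : σ.v1 ≤ σ.v2) (ha : (renorm M N σ).la ≤ 0)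
    (hb : (renorm M N σ).lb ≤ 0) : (renorm M N σ).la = 0 ∧ (renorm M N σ).lb = 0 := by
  have h1 : ¬ (renorm M N σ).la < 0 := by
    intro h
    rw [la'_neg] at h
    have hb' : ¬ (σ.B ^ M) σ.v1 < σ.v2 := by
      intro h2
      have : 0 ≤ (renorm M N σ).lb := lb'_nonneg.2 h2.le
      have h3 : (renorm M N σ).lb = 0 := le_antisymm hb this
      -- `lb' = 0` means equality
      have h4 : (renorm M N σ).lb = σ.D.symm ((σ.B ^ M).symm σ.v2) - σ.D.symm σ.v1 := by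
        show - σ.D.symm σ.v1 - - σ.D.symm ((σ.B ^ M).symm σ.v2) = _
        ring
      rw [h3] at h4
      have h5 : (σ.B ^ M).symm σ.v2 = σ.v1 := σ.D.symm.injective (by linarith)
      rw [← h5, OrderIso.apply_symm_apply] at h2
      exact lt_irrefl _ h2
    rw [not_lt] at hb'
    have h5 : (σ.B ^ (M + 1)) σ.v1 < (σ.B ^ M) σ.v1 := lt_of_lt_of_le h hb'
    rw [pow_succ_app'] at h5
    have h6 : σ.B σ.v1 < σ.v1 := (σ.B ^ M).lt_iff_lt.1 h5
    obtain ⟨m, rfl⟩ : ∃ m, M = m + 1 := ⟨M - 1, by omega⟩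
    have h7 : (σ.B ^ (m + 1)) σ.v1 ≤ σ.B σ.v1 := by
      rw [pow_succ_app]
      exact σ.B.monotone (pow_le_of_le σ.B h6.le m)
    linarith
  have h2 : (renorm M N σ).la = 0 := le_antisymm ha (not_lt.1 h1)
  refine ⟨h2, le_antisymm hb ?_⟩
  rw [lb'_nonneg]
  by_contra h3
  rw [not_le] at h3
  -- `B^(M+1) v1 = v2 < B^M v1`
  have h4 : (renorm M N σ).la = σ.q - σ.D.symm ((σ.B ^ M).symm σ.v2) := by
    show - σ.D.symm ((σ.B ^ M).symm σ.v2) - - σ.q = _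
    ring
  rw [h2] at h4
  have h5 : (σ.B ^ M).symm σ.v2 = σ.D σ.q := by
    have : σ.D.symm ((σ.B ^ M).symm σ.v2) = σ.q := by linarith
    rw [← this, OrderIso.apply_symm_apply]
  have h6 : σ.v2 = (σ.B ^ (M + 1)) σ.v1 := by
    rw [pow_succ_app', σ.hB, ← h5, OrderIso.apply_symm_apply]
  rw [h6, pow_succ_app'] at h3
  have h7 : σ.B σ.v1 < σ.v1 := (σ.B ^ M).lt_iff_lt.1 h3
  obtain ⟨m, rfl⟩ : ∃ m, M = m + 1 := ⟨M - 1, by omega⟩
  have h8 : (σ.B ^ (m + 1 + 1)) σ.v1 ≤ σ.B σ.v1 := by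
    rw [pow_succ_app]
    exact σ.B.monotone (pow_le_of_le σ.B h7.le _)
  linarith

theorem pinch' {M N : ℕ} (h : σ.p ≤ σ.v1) (hc : (renorm M N σ).lc ≤ 0)
    (hd : (renorm M N σ).ld ≤ 0) : (renorm M N σ).lc = 0 ∧ (renorm M N σ).ld = 0 := by
  have h1 : (renorm M N σ).lc + (renorm M N σ).ld = σ.D.symm σ.v1 - σ.v3 := by
    show - σ.D.symm (σ.A.symm ((σ.C ^ N).symm σ.v3)) - - σ.D.symm σ.v1
      + (- σ.v3 - - σ.D.symm (σ.A.symm ((σ.C ^ N).symm σ.v3))) = _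
    ring
  have h2 : σ.v3 ≤ σ.D.symm σ.v1 := by
    rw [OrderIso.le_symm_apply, σ.hD]; exact h
  constructor <;> linarith

/-- strictly ordered break points -/
structure Str (σ : St) : Prop where
  h1 : σ.p < σ.v1
  h2 : σ.v1 < σ.v2
  h3 : σ.v2 < σ.v3
  h4 : σ.v3 < σ.q

/-- if the next state is weakly ordered then this one is strictly ordered -/
theorem str_of_next {M N : ℕ} (ok : OK lN uN lP uP) (g : Good lN uN lP uP M N)
    (hc : Cl σ) (hs : Slopes σ lN uN lP uP) (ha : 0 ≤ (renorm M N σ).la)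
    (hb : 0 ≤ (renorm M N σ).lb) (hc' : 0 ≤ (renorm M N σ).lc) (hd : 0 ≤ (renorm M N σ).ld) :
    Str σ ∧ Cl (renorm M N σ) := by
  have h1 : σ.la ≠ 0 := fun h => by linarith [deg_a ok g hc hs ha hb h]
  have h2 : σ.lb ≠ 0 := fun h => by linarith [deg_b ok g hc hs ha hb h]
  have h3 : σ.lc ≠ 0 := fun h => by linarith [deg_c ok g hc hs h]
  have h4 : σ.ld ≠ 0 := fun h => by linarith [deg_d (M := M) (N := N) ok hc hs h]
  have g1 := lt_of_le_of_ne hc.la0 h1.symm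
  have g2 := lt_of_le_of_ne hc.lb0 h2.symm
  have g3 := lt_of_le_of_ne hc.lc0 h3.symm
  have g4 := lt_of_le_of_ne hc.ld0 h4.symm
  unfold St.la at g1 ha
  unfold St.lb at g2 hb
  unfold St.lc at g3 hc'
  unfold St.ld at g4 hd
  refine ⟨⟨by linarith, by linarith, by linarith, by linarith⟩, ⟨by linarith, by linarith,
    by linarith, by linarith, ?_⟩⟩
  show - σ.q < - σ.v3
  linarith

end Pool.Agent.TH227.GE
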