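import Pool.Agent.TH227.GE.PM
import Pool.Agent.TH227.GE.Step

set_option autoImplicit false

/-!
Continuous families of states, towers of renormalisations and the existence of parameters for
which all renormalisations are defined.
-/

namespace Pool.Agent.TH227.GE

open Set Filter Topology

section fam

variable {X : Type*} [TopologicalSpace X]

/-- joint continuity of a family of order isomorphisms -/
def CIso (f : X → ℝ ≃o ℝ) : Prop := Continuous fun z : X × ℝ => f z.1 z.2

theorem CIso.symm {f : X → ℝ ≃o ℝ} (h : CIso f) :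
    Continuous fun z : X × ℝ => (f z.1).symm z.2 := by
  rw [continuous_iff_continuousAt]
  rintro ⟨s, y⟩
  show Tendsto _ _ (𝓝 ((f s).symm y))
  rw [tendsto_order]
  constructor
  · intro a ha
    have h1 : f s a < y := by
      rw [OrderIso.lt_symm_apply] at ha; exact ha
    have h2 : Continuous fun z : X × ℝ => f z.1 a :=
      h.comp (continuous_fst.prodMk continuous_const)
    have h3 : ∀ᶠ z : X × ℝ in 𝓝 (s, y), f z.1 a < z.2 :=
      (isOpen_lt h2 continuous_snd).mem_nhds h1
    filter_upwards [h3] with z hz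
    rw [OrderIso.lt_symm_apply]; exact hz
  · intro a ha
    have ha' : (f s).symm y < a := ha
    have h1 : y < f s a := by
      rw [OrderIso.symm_apply_lt] at ha'; exact ha'
    have h2 : Continuous fun z : X × ℝ => f z.1 a :=
      h.comp (continuous_fst.prodMk continuous_const)
    have h3 : ∀ᶠ z : X × ℝ in 𝓝 (s, y), z.2 < f z.1 a :=
      (isOpen_lt continuous_snd h2).mem_nhds h1
    filter_upwards [h3] with z hz
    rw [OrderIso.symm_apply_lt]; exact hz

theorem CIso.app {f : X → ℝ ≃o ℝ} (h : CIso f) {x : X → ℝ} (hx : Continuous x) :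
    Continuous fun s => f s (x s) :=
  h.comp (continuous_id.prodMk hx)

theorem CIso.symm_app {f : X → ℝ ≃o ℝ} (h : CIso f) {x : X → ℝ} (hx : Continuous x) :
    Continuous fun s => (f s).symm (x s) :=
  h.symm.comp (continuous_id.prodMk hx)

theorem CIso.mul {f g : X → ℝ ≃o ℝ} (hf : CIso f) (hg : CIso g) : CIso fun s => f s * g s :=
  Continuous.comp (g := fun z : X × ℝ => f z.1 z.2) (f := fun z : X × ℝ => (z.1, g z.1 z.2))
    hf (continuous_fst.prodMk hg)

theorem CIso.pow {f : X → ℝ ≃o ℝ} (hf : CIso f) (n : ℕ) : CIso fun s => f s ^ n := by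
  induction n with
  | zero => exact continuous_snd
  | succ n ih =>
    have : (fun s => f s ^ (n + 1)) = fun s => f s * f s ^ n := by
      funext s; rw [pow_succ']
    rw [this]
    exact hf.mul ih

theorem CIso.flip {f : X → ℝ ≃o ℝ} (hf : CIso f) : CIso fun s => GE.flip (f s) := by
  show Continuous fun z : X × ℝ => - f z.1 (- z.2)
  exact (hf.comp (continuous_fst.prodMk continuous_snd.neg)).neg

/-- continuous families of states -/
structure CFam (σ : X → St) : Prop where
  p : Continuous fun s => (σ s).p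
  q : Continuous fun s => (σ s).q
  v1 : Continuous fun s => (σ s).v1
  v2 : Continuous fun s => (σ s).v2
  v3 : Continuous fun s => (σ s).v3
  A : CIso fun s => (σ s).A
  B : CIso fun s => (σ s).B
  C : CIso fun s => (σ s).C
  D : CIso fun s => (σ s).D

theorem CFam.renorm {σ : X → St} (h : CFam σ) (M N : ℕ) :
    CFam fun s => GE.renorm M N (σ s) where
  p := h.q.neg
  q := h.v3.neg
  v1 := (h.D.symm_app ((h.B.pow M).symm_app h.v2)).neg
  v2 := (h.D.symm_app h.v1).neg
  v3 := (h.D.symm_app (h.A.symm_app ((h.C.pow N).symm_app h.v3))).neg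
  A := (((h.C.pow (N + 1)).mul (h.B.pow M)).mul h.D).flip
  B := (((h.C.pow (N + 1)).mul (h.B.pow (M + 1))).mul h.D).flip
  C := (((h.C.pow N).mul h.A).mul h.D).flip
  D := (((h.C.pow (N + 1)).mul h.A).mul h.D).flip

theorem CFam.la {σ : X → St} (h : CFam σ) : Continuous fun s => (σ s).la := h.v1.sub h.p
theorem CFam.lb {σ : X → St} (h : CFam σ) : Continuous fun s => (σ s).lb := h.v2.sub h.v1
theorem CFam.lc {σ : X → St} (h : CFam σ) : Continuous fun s => (σ s).lc := h.v3.sub h.v2
theorem CFam.ld {σ : X → St} (h : CFam σ) : Continuous fun s => (σ s).ld := h.q.sub h.v3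

theorem CFam.comp {Y : Type*} [TopologicalSpace Y] {σ : X → St} (h : CFam σ) {g : Y → X}
    (hg : Continuous g) : CFam fun y => σ (g y) where
  p := h.p.comp hg
  q := h.q.comp hg
  v1 := h.v1.comp hg
  v2 := h.v2.comp hg
  v3 := h.v3.comp hg
  A := Continuous.comp (g := fun z : X × ℝ => (σ z.1).A z.2) h.A
    ((hg.comp continuous_fst).prodMk continuous_snd)
  B := Continuous.comp (g := fun z : X × ℝ => (σ z.1).B z.2) h.B
    ((hg.comp continuous_fst).prodMk continuous_snd)
  C := Continuous.comp (g := fun z : X × ℝ => (σ z.1).C z.2) h.C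
    ((hg.comp continuous_fst).prodMk continuous_snd)
  D := Continuous.comp (g := fun z : X × ℝ => (σ z.1).D z.2) h.D
    ((hg.comp continuous_fst).prodMk continuous_snd)

end fam

/-! ### constants and towers -/

/-- admissible slope bounds -/
structure Cst where
  lN : ℝ
  uN : ℝ
  lP : ℝ
  uP : ℝ
  ok : OK lN uN lP uP

namespace Cst

/-- first exponent -/
noncomputable def M (c : Cst) : ℕ := Classical.choose c.ok.exists_good

/-- second exponent -/
noncomputable def N (c : Cst) : ℕ := Classical.choose (Classical.choose_spec c.ok.exists_good)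

theorem good (c : Cst) : Good c.lN c.uN c.lP c.uP c.M c.N :=
  Classical.choose_spec (Classical.choose_spec c.ok.exists_good)

/-- slope bounds for the next level -/
noncomputable def next (c : Cst) : Cst where
  lN := c.lN ^ (c.M + 1)
  uN := c.uP ^ (c.N + 2) * c.uN ^ c.M
  lP := c.lP ^ (c.N + 1) * c.lN
  uP := c.uP ^ (c.N + 2)
  ok := c.ok.next c.good

/-- slope bounds at level `k` -/
noncomputable def iter (c : Cst) : ℕ → Cst
  | 0 => c
  | k + 1 => (c.iter k).next

/-- the state satisfies the slope bounds -/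
def Sl (c : Cst) (σ : St) : Prop := Slopes σ c.lN c.uN c.lP c.uP

/-- renormalisation with the exponents prescribed by the constants -/
noncomputable def ren (c : Cst) (σ : St) : St := renorm c.M c.N σ

theorem Sl.ren {c : Cst} {σ : St} (h : c.Sl σ) : c.next.Sl (c.ren σ) :=
  Slopes.next c.ok h

end Cst

/-- the successive renormalisations -/
noncomputable def tower (c : Cst) (σ : St) : ℕ → St
  | 0 => σ
  | k + 1 => (c.iter k).ren (tower c σ k)

theorem tower_sl {c : Cst} {σ : St} (h : c.Sl σ) (k : ℕ) : (c.iter k).Sl (tower c σ k) := by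
  induction k with
  | zero => exact h
  | succ k ih => exact ih.ren

theorem CFam.tower {X : Type*} [TopologicalSpace X] {σ : X → St} (h : CFam σ) (c : Cst)
    (k : ℕ) : CFam fun s => GE.tower c (σ s) k := by
  induction k with
  | zero => exact h
  | succ k ih => exact ih.renorm _ _

/-- all lengths are non-negative -/
structure Ge (σ : St) : Prop where
  a : 0 ≤ σ.la
  b : 0 ≤ σ.lb
  c : 0 ≤ σ.lc
  d : 0 ≤ σ.ld

/-- all renormalisations have non-negative lengths -/
def All (c : Cst) (σ : St) : Prop := ∀ k, Ge (tower c σ k)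

theorem next_ok {c : Cst} {σ : St} (hc : Cl σ) (hs : c.Sl σ) (h : Ge (c.ren σ)) :
    Str σ ∧ Cl (c.ren σ) :=
  str_of_next c.ok c.good hc hs h.a h.b h.c h.d

theorem All.cl {c : Cst} {σ : St} (hc : Cl σ) (hs : c.Sl σ) (h : All c σ) (k : ℕ) :
    Cl (tower c σ k) := by
  induction k with
  | zero => exact hc
  | succ k ih => exact (next_ok ih (tower_sl hs k) (h (k + 1))).2

theorem All.str {c : Cst} {σ : St} (hc : Cl σ) (hs : c.Sl σ) (h : All c σ) (k : ℕ) :
    Str (tower c σ k) :=
  (next_ok (h.cl hc hs k) (tower_sl hs k) (h (k + 1))).1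

/-! ### existence of parameters -/

section existence

variable {X : Type*}

/-- parameters for which the first `k` renormalisations have non-negative lengths -/
def KK (c : Cst) (σ : X → St) : ℕ → Set X
  | 0 => univ
  | k + 1 => (KK c σ k ∩ {s | 0 ≤ (tower c (σ s) (k + 1)).la ∧ 0 ≤ (tower c (σ s) (k + 1)).lb}) ∩
      {s | 0 ≤ (tower c (σ s) (k + 1)).lc ∧ 0 ≤ (tower c (σ s) (k + 1)).ld}

theorem KK_closed [TopologicalSpace X] {c : Cst} {σ : X → St} (hf : CFam σ) (k : ℕ) : IsClosed (KK c σ k) := by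
  induction k with
  | zero => exact isClosed_univ
  | succ k ih =>
    have h := hf.tower c (k + 1)
    exact (ih.inter ((isClosed_le continuous_const h.la).inter
      (isClosed_le continuous_const h.lb))).inter ((isClosed_le continuous_const h.lc).inter
      (isClosed_le continuous_const h.ld))

theorem KK_succ_subset {c : Cst} {σ : X → St} (k : ℕ) : KK c σ (k + 1) ⊆ KK c σ k :=
  fun _ hx => hx.1.1

theorem KK_cl {c : Cst} {σ : X → St} (hcl : ∀ s, Cl (σ s)) (hsl : ∀ s, c.Sl (σ s)) (k : ℕ) :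
    ∀ s ∈ KK c σ k, Cl (tower c (σ s) k) := by
  induction k with
  | zero => intro s _; exact hcl s
  | succ k ih =>
    intro s hs
    exact (next_ok (ih s hs.1.1) (tower_sl (hsl s) k) ⟨hs.1.2.1, hs.1.2.2, hs.2.1, hs.2.2⟩).2

theorem step_pm [PseudoMetricSpace X] {c : Cst} {σ : X → St} (hf : CFam σ) (hcl : ∀ s, Cl (σ s))
    (hsl : ∀ s, c.Sl (σ s)) (k : ℕ)
    (h : PM (KK c σ k) {s | (tower c (σ s) k).la = 0} {s | (tower c (σ s) k).lb = 0}
      {s | (tower c (σ s) k).lc = 0} {s | (tower c (σ s) k).ld = 0}) :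
    PM (KK c σ (k + 1)) {s | (tower c (σ s) (k + 1)).la = 0}
      {s | (tower c (σ s) (k + 1)).lb = 0}
      {s | (tower c (σ s) (k + 1)).lc = 0} {s | (tower c (σ s) (k + 1)).ld = 0} := by
  have f0 := hf.tower c k
  have f1 := hf.tower c (k + 1)
  have cl := KK_cl hcl hsl k
  have sl := fun s => tower_sl (hsl s) k
  set d := c.iter k with hd
  have s1 := h.split (KK_closed hf k) (isClosed_eq f0.la continuous_const)
    (isClosed_eq f0.lb continuous_const) f1.la f1.lb
    (fun s hs h1 h2 => pinch d.good.hM (cl s hs).h2 h1 h2)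
    (fun s hs h1 => deg_d (M := d.M) (N := d.N) d.ok (cl s hs) (sl s) h1)
    (fun s hs h1 => deg_c d.ok d.good (cl s hs) (sl s) h1)
  have c1 : IsClosed (KK c σ k ∩ {s | 0 ≤ (tower c (σ s) (k + 1)).la ∧
      0 ≤ (tower c (σ s) (k + 1)).lb}) :=
    (KK_closed hf k).inter ((isClosed_le continuous_const f1.la).inter
      (isClosed_le continuous_const f1.lb))
  have s2 := s1.swap.split c1 (isClosed_eq f1.lb continuous_const)
    (isClosed_eq f1.la continuous_const) f1.ld f1.lc
    (fun s hs h1 h2 => (pinch' (cl s hs.1).h1 h2 h1).symm)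
    (fun s hs h1 => deg_b d.ok d.good (cl s hs.1) (sl s) hs.2.1 hs.2.2 h1)
    (fun s hs h1 => deg_a d.ok d.good (cl s hs.1) (sl s) hs.2.1 hs.2.2 h1)
  have e : KK c σ (k + 1) = (KK c σ k ∩ {s | 0 ≤ (tower c (σ s) (k + 1)).la ∧
      0 ≤ (tower c (σ s) (k + 1)).lb}) ∩ {s | 0 ≤ (tower c (σ s) (k + 1)).ld ∧
      0 ≤ (tower c (σ s) (k + 1)).lc} := by
    ext s
    constructor
    · rintro ⟨h1, h2⟩
      exact ⟨h1, h2.2, h2.1⟩
    · rintro ⟨h1, h2⟩
      exact ⟨h1, h2.2, h2.1⟩
  rw [e]
  exact s2.symm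

/-- the first step, from general sides -/
theorem first_pm [PseudoMetricSpace X] {c : Cst} {σ : X → St} {L R B T : Set X} (hf : CFam σ) (hcl : ∀ s, Cl (σ s))
    (_hsl : ∀ s, c.Sl (σ s)) (h : PM univ L R B T) (hL : IsClosed L) (hR : IsClosed R)
    (sB : ∀ s ∈ B, (c.ren (σ s)).la < 0) (sT : ∀ s ∈ T, (c.ren (σ s)).lb < 0)
    (sL : ∀ s ∈ L, 0 ≤ (c.ren (σ s)).la → 0 ≤ (c.ren (σ s)).lb → (c.ren (σ s)).lc < 0)
    (sR : ∀ s ∈ R, 0 ≤ (c.ren (σ s)).la → 0 ≤ (c.ren (σ s)).lb → (c.ren (σ s)).ld < 0) :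
    PM (KK c σ 1) {s | (tower c (σ s) 1).la = 0} {s | (tower c (σ s) 1).lb = 0}
      {s | (tower c (σ s) 1).lc = 0} {s | (tower c (σ s) 1).ld = 0} := by
  have f1 := hf.tower c 1
  have s1 := h.split isClosed_univ hL hR f1.lb f1.la
    (fun s hs h1 h2 => (pinch c.good.hM (hcl s).h2 h2 h1).symm)
    (fun s _ h1 => sT s h1) (fun s _ h1 => sB s h1)
  have c1 : IsClosed ((univ : Set X) ∩ {s | 0 ≤ (tower c (σ s) 1).lb ∧
      0 ≤ (tower c (σ s) 1).la}) :=
    isClosed_univ.inter ((isClosed_le continuous_const f1.lb).inter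
      (isClosed_le continuous_const f1.la))
  have s2 := s1.swap.split c1 (isClosed_eq f1.la continuous_const)
    (isClosed_eq f1.lb continuous_const) f1.ld f1.lc
    (fun s hs h1 h2 => (pinch' (hcl s).h1 h2 h1).symm)
    (fun s hs h1 => sR s h1 hs.2.2 hs.2.1)
    (fun s hs h1 => sL s h1 hs.2.2 hs.2.1)
  have e : KK c σ 1 = ((univ : Set X) ∩ {s | 0 ≤ (tower c (σ s) 1).lb ∧
      0 ≤ (tower c (σ s) 1).la}) ∩ {s | 0 ≤ (tower c (σ s) 1).ld ∧
      0 ≤ (tower c (σ s) 1).lc} := by
    ext s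
    constructor
    · rintro ⟨h1, h2⟩
      exact ⟨⟨mem_univ _, h1.2.2, h1.2.1⟩, h2.2, h2.1⟩
    · rintro ⟨h1, h2⟩
      exact ⟨⟨mem_univ _, h1.2.2, h1.2.1⟩, h2.2, h2.1⟩
  rw [e]
  exact s2

/-- existence of parameters for which all renormalisations have non-negative lengths -/
theorem exists_all [PseudoMetricSpace X] [CompactSpace X] {c : Cst} {σ : X → St} {L R B T : Set X} (hf : CFam σ)
    (hcl : ∀ s, Cl (σ s))
    (hsl : ∀ s, c.Sl (σ s)) (h : PM univ L R B T) (hL : IsClosed L) (hR : IsClosed R)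
    (sB : ∀ s ∈ B, (c.ren (σ s)).la < 0) (sT : ∀ s ∈ T, (c.ren (σ s)).lb < 0)
    (sL : ∀ s ∈ L, 0 ≤ (c.ren (σ s)).la → 0 ≤ (c.ren (σ s)).lb → (c.ren (σ s)).lc < 0)
    (sR : ∀ s ∈ R, 0 ≤ (c.ren (σ s)).la → 0 ≤ (c.ren (σ s)).lb → (c.ren (σ s)).ld < 0) :
    ∃ s, All c (σ s) := by
  have pm : ∀ k, PM (KK c σ (k + 1)) {s | (tower c (σ s) (k + 1)).la = 0}
      {s | (tower c (σ s) (k + 1)).lb = 0}
      {s | (tower c (σ s) (k + 1)).lc = 0} {s | (tower c (σ s) (k + 1)).ld = 0} := by
    intro k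
    induction k with
    | zero => exact first_pm hf hcl hsl h hL hR sB sT sL sR
    | succ k ih => exact step_pm hf hcl hsl (k + 1) ih
  have ne : ∀ k, (KK c σ k).Nonempty := by
    intro k
    exact (pm k).nonempty.mono (KK_succ_subset k)
  obtain ⟨s, hs⟩ := IsCompact.nonempty_iInter_of_sequence_nonempty_isCompact_isClosed
    (KK c σ) KK_succ_subset ne (KK_closed hf 0).isCompact (KK_closed hf)
  refine ⟨s, fun k => ?_⟩
  have h1 := KK_cl hcl hsl k s (mem_iInter.1 hs k)
  exact ⟨h1.la0, h1.lb0, h1.lc0, h1.ld0⟩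

end existence

end Pool.Agent.TH227.GE
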