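import Pool.Agent.TH227.GE.Defs
import Pool.Agent.TH227.GE.Fam

set_option autoImplicit false

/-!
Extension of the branches of generalised interval exchange maps to the line.
-/

namespace Pool.Agent.TH227.GE

open Set Filter Topology

/-! ### the clamp -/

/-- clamp to the unit interval -/
noncomputable def cl (x : ℝ) : ℝ := (projIcc (0 : ℝ) 1 zero_le_one x : ℝ)

theorem cl_eq (x : ℝ) : cl x = max 0 (min 1 x) := coe_projIcc _ _ _ _

theorem cl_mem (x : ℝ) : cl x ∈ Icc (0 : ℝ) 1 := (projIcc (0 : ℝ) 1 zero_le_one x).2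

theorem cl_of_mem {x : ℝ} (h : x ∈ Icc (0 : ℝ) 1) : cl x = x := by
  unfold cl
  rw [projIcc_of_mem _ h]

theorem cl_mono {x y : ℝ} (h : x ≤ y) : cl x ≤ cl y := monotone_projIcc zero_le_one h

theorem cl_lip {x y : ℝ} (h : x ≤ y) : cl y - cl x ≤ y - x := by
  rw [cl_eq, cl_eq]
  rcases le_total 1 x with h1 | h1 <;> rcases le_total 1 y with h2 | h2 <;>
  rcases le_total 0 x with h3 | h3 <;> rcases le_total 0 y with h4 | h4 <;>
  simp [h1, h2, h3, h4] <;> linarith

theorem continuous_cl : Continuous cl :=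
  continuous_subtype_val.comp (continuous_projIcc (h := zero_le_one))

/-! ### diffeomorphisms of the unit interval -/

section diffeo

variable {r : ℕ} (φ : UnitDiffeo r)

/-- the extension of the diffeomorphism by constants -/
noncomputable def exC (x : ℝ) : ℝ := IccExtend (zero_le_one (α := ℝ)) φ.toFun x

theorem exC_cl (x : ℝ) : exC φ (cl x) = exC φ x := by
  unfold exC cl
  rw [IccExtend_val]; rfl

theorem exC_zero : exC φ 0 = 0 := by
  have h : (0 : ℝ) ∈ Icc (0 : ℝ) 1 := ⟨le_rfl, zero_le_one⟩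
  unfold exC
  rw [IccExtend_of_mem _ _ h]
  exact φ.map_zero

theorem exC_one : exC φ 1 = 1 := by
  have h : (1 : ℝ) ∈ Icc (0 : ℝ) 1 := ⟨zero_le_one, le_rfl⟩
  unfold exC
  rw [IccExtend_of_mem _ _ h]
  exact φ.map_one

theorem exC_diff : DifferentiableOn ℝ (exC φ) (Icc 0 1) := by
  intro x hx
  exact differentiableWithinAt_of_derivWithin_ne_zero (φ.deriv_pos x hx).ne'

theorem exC_cont : ContinuousOn (exC φ) (Icc 0 1) := (exC_diff φ).continuousOn

theorem exC_deriv {x : ℝ} (hx : x ∈ Ioo (0 : ℝ) 1) :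
    deriv (exC φ) x = derivWithin (exC φ) (Icc 0 1) x :=
  (derivWithin_of_mem_nhds (Icc_mem_nhds hx.1 hx.2)).symm

theorem exC_strictMono : StrictMonoOn (exC φ) (Icc 0 1) := by
  apply strictMonoOn_of_deriv_pos (convex_Icc 0 1) (exC_cont φ)
  intro x hx
  rw [interior_Icc] at hx
  rw [exC_deriv φ hx]
  exact φ.deriv_pos x (Ioo_subset_Icc_self hx)

theorem exC_continuous : Continuous (exC φ) := by
  have h : exC φ = fun x => exC φ (cl x) := by
    funext x; rw [exC_cl]
  rw [h]
  exact (exC_cont φ).comp_continuous continuous_cl cl_mem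

theorem exC_bounds {lo hi : ℝ}
    (h : ∀ x ∈ Ioo (0 : ℝ) 1, lo ≤ derivWithin (exC φ) (Icc 0 1) x ∧
      derivWithin (exC φ) (Icc 0 1) x ≤ hi) {x y : ℝ} (hx : x ∈ Icc (0 : ℝ) 1)
    (hy : y ∈ Icc (0 : ℝ) 1) (hxy : x ≤ y) :
    lo * (y - x) ≤ exC φ y - exC φ x ∧ exC φ y - exC φ x ≤ hi * (y - x) := by
  have hd : DifferentiableOn ℝ (exC φ) (interior (Icc 0 1)) :=
    (exC_diff φ).mono interior_subset
  constructor
  · refine Convex.mul_sub_le_image_sub_of_le_deriv (convex_Icc 0 1) (exC_cont φ) hd ?_ x hx y hy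
      hxy
    intro z hz
    rw [interior_Icc] at hz
    rw [exC_deriv φ hz]
    exact (h z hz).1
  · refine Convex.image_sub_le_mul_sub_of_deriv_le (convex_Icc 0 1) (exC_cont φ) hd ?_ x hx y hy
      hxy
    intro z hz
    rw [interior_Icc] at hz
    rw [exC_deriv φ hz]
    exact (h z hz).2

end diffeo

/-! ### the extended branch -/

/-- extension of a branch to the line, with slope `s` outside of its interval -/
noncomputable def extFun {r : ℕ} (φ : UnitDiffeo r) (a b a' b' s x : ℝ) : ℝ :=
  a' + (b' - a') * exC φ ((x - a) / (b - a)) + s * (x - a - (b - a) * cl ((x - a) / (b - a)))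

section ext

variable {r : ℕ} (φ : UnitDiffeo r) {a b a' b' s : ℝ}

theorem extFun_of_mem (hab : a < b) {x : ℝ} (hx : x ∈ Icc a b) :
    extFun φ a b a' b' s x = a' + (b' - a') * exC φ ((x - a) / (b - a)) := by
  have hb : 0 < b - a := by linarith
  have hm : (x - a) / (b - a) ∈ Icc (0 : ℝ) 1 := by
    constructor
    · exact div_nonneg (by linarith [hx.1]) hb.le
    · rw [div_le_one hb]; linarith [hx.2]
  unfold extFun
  rw [cl_of_mem hm, mul_div_cancel₀ _ hb.ne', sub_self, mul_zero, add_zero]

theorem extFun_left (hab : a < b) : extFun φ a b a' b' s a = a' := by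
  rw [extFun_of_mem φ hab ⟨le_rfl, hab.le⟩, sub_self, zero_div, exC_zero, mul_zero, add_zero]

theorem extFun_right (hab : a < b) : extFun φ a b a' b' s b = b' := by
  have hb : b - a ≠ 0 := by linarith
  rw [extFun_of_mem φ hab ⟨hab.le, le_rfl⟩, div_self hb, exC_one]
  ring

theorem extFun_ge (hab : a < b) {x : ℝ} (hx : b ≤ x) :
    extFun φ a b a' b' s x = b' + s * (x - b) := by
  have hb : 0 < b - a := by linarith
  have h1 : 1 ≤ (x - a) / (b - a) := by rw [le_div_iff₀ hb]; linarith
  have h2 : cl ((x - a) / (b - a)) = 1 := by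
    rw [cl_eq, min_eq_left h1, max_eq_right zero_le_one]
  unfold extFun
  rw [← exC_cl, h2, exC_one]
  ring

theorem extFun_le (hab : a < b) {x : ℝ} (hx : x ≤ a) :
    extFun φ a b a' b' s x = a' + s * (x - a) := by
  have hb : 0 < b - a := by linarith
  have h1 : (x - a) / (b - a) ≤ 0 := div_nonpos_of_nonpos_of_nonneg (by linarith) hb.le
  have h2 : cl ((x - a) / (b - a)) = 0 := by
    rw [cl_eq, min_eq_right (by linarith), max_eq_left h1]
  unfold extFun
  rw [← exC_cl, h2, exC_zero]
  ring

theorem extFun_continuous : Continuous (extFun φ a b a' b' s) := by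
  unfold extFun
  have h1 : Continuous fun x : ℝ => (x - a) / (b - a) :=
    (continuous_id.sub continuous_const).div_const _
  have h2 := (exC_continuous φ).comp h1
  have h3 := continuous_cl.comp h1
  exact (continuous_const.add (continuous_const.mul h2)).add
    (continuous_const.mul ((continuous_id.sub continuous_const).sub (continuous_const.mul h3)))

/-- decomposition of an increment -/
theorem extFun_sub (x y : ℝ) :
    extFun φ a b a' b' s y - extFun φ a b a' b' s x =
      (b' - a') * (exC φ (cl ((y - a) / (b - a))) - exC φ (cl ((x - a) / (b - a)))) +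
      s * ((y - x) - (b - a) * (cl ((y - a) / (b - a)) - cl ((x - a) / (b - a)))) := by
  unfold extFun
  rw [exC_cl, exC_cl]
  ring

theorem incr (hab : a < b) {x y : ℝ} (hxy : x ≤ y) :
    cl ((x - a) / (b - a)) ≤ cl ((y - a) / (b - a)) ∧
      (b - a) * (cl ((y - a) / (b - a)) - cl ((x - a) / (b - a))) ≤ y - x := by
  have hb : 0 < b - a := by linarith
  have h1 : (x - a) / (b - a) ≤ (y - a) / (b - a) := by
    rw [div_le_div_iff_of_pos_right hb]; linarith
  refine ⟨cl_mono h1, ?_⟩
  have h2 := cl_lip h1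
  have h3 : (y - a) / (b - a) - (x - a) / (b - a) = (y - x) / (b - a) := by
    rw [← sub_div]; congr 1; ring
  rw [h3] at h2
  calc (b - a) * (cl ((y - a) / (b - a)) - cl ((x - a) / (b - a)))
      ≤ (b - a) * ((y - x) / (b - a)) := mul_le_mul_of_nonneg_left h2 hb.le
    _ = y - x := mul_div_cancel₀ _ hb.ne'

theorem extFun_strictMono (hab : a < b) (hab' : a' < b') (hs : 0 < s) :
    StrictMono (extFun φ a b a' b' s) := by
  intro x y hxy
  rw [← sub_pos, extFun_sub]
  obtain ⟨h1, h2⟩ := incr hab hxy.le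
  have hb' : 0 < b' - a' := by linarith
  rcases h1.eq_or_lt with h3 | h3
  · rw [h3, sub_self, sub_self, mul_zero, mul_zero, sub_zero, zero_add]
    exact mul_pos hs (by linarith)
  · have h4 := exC_strictMono φ (cl_mem _) (cl_mem _) h3
    have h5 : 0 < (b' - a') *
        (exC φ (cl ((y - a) / (b - a))) - exC φ (cl ((x - a) / (b - a)))) :=
      mul_pos hb' (by linarith)
    have h6 : 0 ≤ s * ((y - x) - (b - a) * (cl ((y - a) / (b - a)) - cl ((x - a) / (b - a)))) :=
      mul_nonneg hs.le (by linarith)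
    linarith

theorem extFun_surjective (hab : a < b) (hs : 0 < s) :
    Function.Surjective (extFun φ a b a' b' s) := by
  have hc : Continuous (extFun φ a b a' b' s) := extFun_continuous φ
  intro y
  -- two points around
  set M := b + |y - b'| / s with hM
  set m := a - |y - a'| / s with hm
  have hMb : b ≤ M := by
    have : 0 ≤ |y - b'| / s := by positivity
    linarith
  have hma : m ≤ a := by
    have : 0 ≤ |y - a'| / s := by positivity
    linarith
  have h1 : y ≤ extFun φ a b a' b' s M := by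
    rw [extFun_ge φ hab hMb]
    have : s * (M - b) = |y - b'| := by
      rw [hM, add_sub_cancel_left, mul_div_cancel₀ _ hs.ne']
    rw [this]
    linarith [le_abs_self (y - b')]
  have h2 : extFun φ a b a' b' s m ≤ y := by
    rw [extFun_le φ hab hma]
    have : s * (m - a) = -|y - a'| := by
      rw [hm, sub_sub_cancel_left, mul_neg, mul_div_cancel₀ _ hs.ne']
    rw [this]
    linarith [neg_abs_le (y - a')]
  obtain ⟨x, -, hx⟩ := intermediate_value_Icc (by linarith : m ≤ M) hc.continuousOn ⟨h2, h1⟩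
  exact ⟨x, hx⟩

/-- the extended branch as an order isomorphism -/
noncomputable def extIso (hab : a < b) (hab' : a' < b') (hs : 0 < s) : ℝ ≃o ℝ :=
  StrictMono.orderIsoOfSurjective (extFun φ a b a' b' s) (extFun_strictMono φ hab hab' hs)
    (extFun_surjective φ hab hs)

theorem extIso_apply (hab : a < b) (hab' : a' < b') (hs : 0 < s) (x : ℝ) :
    extIso φ hab hab' hs x = extFun φ a b a' b' s x := rfl

theorem extIso_slope (hab : a < b) (hab' : a' < b') (hs : 0 < s) {lo hi : ℝ}
    (h : ∀ x ∈ Ioo (0 : ℝ) 1,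
      lo ≤ (b' - a') / (b - a) * derivWithin (exC φ) (Icc 0 1) x ∧
      (b' - a') / (b - a) * derivWithin (exC φ) (Icc 0 1) x ≤ hi)
    (h1 : lo ≤ s) (h2 : s ≤ hi) : Slope (extIso φ hab hab' hs) lo hi := by
  have hb : 0 < b - a := by linarith
  have hb' : 0 < b' - a' := by linarith
  intro x y hxy
  rw [extIso_apply, extIso_apply, extFun_sub]
  obtain ⟨i1, i2⟩ := incr hab hxy
  set u := cl ((x - a) / (b - a)) with hu
  set v := cl ((y - a) / (b - a)) with hv
  have hq : ∀ z ∈ Ioo (0 : ℝ) 1, lo * (b - a) / (b' - a') ≤ derivWithin (exC φ) (Icc 0 1) z ∧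
      derivWithin (exC φ) (Icc 0 1) z ≤ hi * (b - a) / (b' - a') := by
    intro z hz
    obtain ⟨e1, e2⟩ := h z hz
    constructor
    · rw [div_le_iff₀ hb']
      have := mul_le_mul_of_nonneg_right e1 hb.le
      rw [div_mul_eq_mul_div, div_mul_cancel₀ _ hb.ne'] at this
      linarith
    · rw [le_div_iff₀ hb']
      have := mul_le_mul_of_nonneg_right e2 hb.le
      rw [div_mul_eq_mul_div, div_mul_cancel₀ _ hb.ne'] at this
      linarith
  obtain ⟨j1, j2⟩ := exC_bounds φ hq (cl_mem _) (cl_mem _) i1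
  rw [← hu, ← hv] at j1 j2
  have k1 : lo * ((b - a) * (v - u)) ≤ (b' - a') * (exC φ v - exC φ u) := by
    have := mul_le_mul_of_nonneg_left j1 hb'.le
    refine le_trans (le_of_eq ?_) this
    field_simp
  have k2 : (b' - a') * (exC φ v - exC φ u) ≤ hi * ((b - a) * (v - u)) := by
    have := mul_le_mul_of_nonneg_left j2 hb'.le
    refine this.trans (le_of_eq ?_)
    field_simp
  have hw : 0 ≤ (y - x) - (b - a) * (v - u) := by linarith
  have m1 := mul_le_mul_of_nonneg_right h1 hw
  have m2 := mul_le_mul_of_nonneg_right h2 hw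
  constructor
  · linarith
  · linarith

end ext

end Pool.Agent.TH227.GE
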