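import Pool.Agent.TH227.GE.Geom

set_option autoImplicit false

/-!
The combinatorial data with top line `A B C D` and bottom line `D B A C`, and the states attached
to generalised interval exchange maps with these data.
-/

namespace Pool.Agent.TH227.GE

open Set Filter Topology

/-- positions of the letters `A B C D` in the bottom line `D B A C` -/
def botPerm : Equiv.Perm (Fin 4) where
  toFun := ![2, 1, 3, 0]
  invFun := ![3, 1, 0, 2]
  left_inv := by decide
  right_inv := by decide

/-- top line `A B C D`, bottom line `D B A C` -/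
def dataKeane : CombData 4 := ⟨Equiv.refl _, botPerm⟩

theorem dataKeane_irreducible : dataKeane.Irreducible := by
  intro k h0 h4 h
  interval_cases k
  · have : (0 : Fin 4) ∈ {a : Fin 4 | (dataKeane.bot a : ℕ) < 1} := by
      rw [← h]; decide
    exact absurd this (by decide)
  · have : (0 : Fin 4) ∈ {a : Fin 4 | (dataKeane.bot a : ℕ) < 2} := by
      rw [← h]; decide
    exact absurd this (by decide)
  · have : (2 : Fin 4) ∈ {a : Fin 4 | (dataKeane.bot a : ℕ) < 3} := by
      rw [← h]; decide
    exact absurd this (by decide)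

section maps

variable {r : ℕ}

/-- generalised interval exchange maps with the data `dataKeane` -/
abbrev GK (r : ℕ) : Type := GIEM dataKeane r

theorem GIEM.topL_lt_topR {d : ℕ} {π : CombData d} (T : GIEM π r) (a : Fin d) :
    T.topL a < T.topR a := T.t_mono (Fin.castSucc_lt_succ)

theorem GIEM.botL_lt_botR {d : ℕ} {π : CombData d} (T : GIEM π r) (a : Fin d) :
    T.botL a < T.botR a := T.b_mono (Fin.castSucc_lt_succ)

/-- the extended branch of the letter `a` -/
noncomputable def brIso {d : ℕ} {π : CombData d} (T : GIEM π r) (a : Fin d) {s : ℝ}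
    (hs : 0 < s) : ℝ ≃o ℝ :=
  extIso (T.φ a) (T.topL_lt_topR a) (T.botL_lt_botR a) hs

theorem brIso_eq {d : ℕ} {π : CombData d} (T : GIEM π r) (a : Fin d) {s : ℝ} (hs : 0 < s)
    {x : ℝ} (hx : x ∈ Icc (T.topL a) (T.topR a)) : brIso T a hs x = T.branch a x :=
  extFun_of_mem (T.φ a) (T.topL_lt_topR a) hx

theorem brIso_left {d : ℕ} {π : CombData d} (T : GIEM π r) (a : Fin d) {s : ℝ} (hs : 0 < s) :
    brIso T a hs (T.topL a) = T.botL a :=
  extFun_left (T.φ a) (T.topL_lt_topR a)

theorem brIso_right {d : ℕ} {π : CombData d} (T : GIEM π r) (a : Fin d) {s : ℝ} (hs : 0 < s) :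
    brIso T a hs (T.topR a) = T.botR a :=
  extFun_right (T.φ a) (T.topL_lt_topR a)

theorem posN : (0 : ℝ) < 1 / 256 := by norm_num
theorem posP : (0 : ℝ) < 4 := by norm_num

/-- the state attached to a generalised interval exchange map -/
noncomputable def stOf (T : GK r) : St where
  p := 0
  q := 1
  v1 := T.t 1
  v2 := T.t 2
  v3 := T.t 3
  A := brIso T 0 posN
  B := brIso T 1 posN
  C := brIso T 2 posP
  D := brIso T 3 posP
  hD := by
    have h1 := brIso_left T 3 posP
    have h2 : T.topL 3 = T.t 3 := rfl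
    have h3 : T.botL 3 = T.b 0 := rfl
    rw [h2, h3, T.b_zero] at h1
    exact h1
  hA := by
    have h1 := brIso_left T 0 posN
    have h2 : T.topL 0 = T.t 0 := rfl
    have h3 : T.botL 0 = T.b 2 := rfl
    have h4 := brIso_right T 1 posN
    have h5 : T.topR 1 = T.t 2 := rfl
    have h6 : T.botR 1 = T.b 2 := rfl
    rw [h2, h3, T.t_zero] at h1
    rw [h5, h6] at h4
    rw [h1, h4]
  hB := by
    have h1 := brIso_left T 1 posN
    have h2 : T.topL 1 = T.t 1 := rfl
    have h3 : T.botL 1 = T.b 1 := rfl
    have h4 := brIso_right T 3 posP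
    have h5 : T.topR 3 = T.t (Fin.last 4) := rfl
    have h6 : T.botR 3 = T.b 1 := rfl
    rw [h2, h3] at h1
    rw [h5, h6, T.t_last] at h4
    rw [h1, h4]
  hC := by
    have h1 := brIso_left T 2 posP
    have h2 : T.topL 2 = T.t 2 := rfl
    have h3 : T.botL 2 = T.b 3 := rfl
    have h4 := brIso_right T 0 posN
    have h5 : T.topR 0 = T.t 1 := rfl
    have h6 : T.botR 0 = T.b 3 := rfl
    rw [h2, h3] at h1
    rw [h5, h6] at h4
    rw [h1, h4]
  hq := by
    have h4 := brIso_right T 2 posP
    have h5 : T.topR 2 = T.t 3 := rfl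
    have h6 : T.botR 2 = T.b (Fin.last 4) := rfl
    rw [h5, h6, T.b_last] at h4
    exact h4

theorem stOf_str (T : GK r) : Str (stOf T) := by
  refine ⟨?_, ?_, ?_, ?_⟩
  · show 0 < T.t 1
    rw [← T.t_zero]; exact T.t_mono (by decide)
  · exact T.t_mono (by decide)
  · exact T.t_mono (by decide)
  · show T.t 3 < 1
    rw [← T.t_last]; exact T.t_mono (by decide)

theorem stOf_cl (T : GK r) : Cl (stOf T) := by
  obtain ⟨h1, h2, h3, h4⟩ := stOf_str T
  exact ⟨h1.le, h2.le, h3.le, h4.le, zero_lt_one⟩

/-! ### continuity -/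

variable {d : ℕ} {π : CombData d}

theorem continuous_code : Continuous (GIEM.code : GIEM π r → _) := continuous_induced_dom

theorem continuous_t (i : Fin (d + 1)) : Continuous fun T : GIEM π r => T.t i :=
  (continuous_apply i).comp (continuous_fst.comp continuous_code)

theorem continuous_b (i : Fin (d + 1)) : Continuous fun T : GIEM π r => T.b i :=
  (continuous_apply i).comp (continuous_fst.comp (continuous_snd.comp continuous_code))

theorem continuous_jet (a : Fin d) (j : Fin (r + 1)) :
    Continuous fun T : GIEM π r => (T.φ a).jet j :=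
  (continuous_apply j).comp ((continuous_apply a).comp
    (continuous_snd.comp (continuous_snd.comp continuous_code)))

theorem exC_jet (φ : UnitDiffeo r) (x : ℝ) :
    exC φ x = φ.jet 0 (projIcc 0 1 zero_le_one x) := by
  rw [UnitDiffeo.jet_zero]; rfl

theorem continuous_exC (a : Fin d) :
    Continuous fun z : GIEM π r × ℝ => exC (z.1.φ a) z.2 := by
  have h1 : Continuous fun z : GIEM π r × ℝ =>
      ((z.1.φ a).jet 0, projIcc (0 : ℝ) 1 zero_le_one z.2) :=
    ((continuous_jet a 0).comp continuous_fst).prodMk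
      ((continuous_projIcc (h := zero_le_one)).comp continuous_snd)
  have h2 : Continuous fun z : C(unitInterval, ℝ) × unitInterval => z.1 z.2 :=
    continuous_eval
  have h3 := h2.comp h1
  refine h3.congr ?_
  intro z
  rw [exC_jet]; rfl

theorem cIso_brIso (a : Fin d) {s : ℝ} (hs : 0 < s) :
    CIso fun T : GIEM π r => brIso T a hs := by
  show Continuous fun z : GIEM π r × ℝ => extFun (z.1.φ a) (z.1.topL a) (z.1.topR a)
    (z.1.botL a) (z.1.botR a) s z.2
  have c1 : Continuous fun z : GIEM π r × ℝ => z.1.topL a :=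
    (continuous_t _).comp continuous_fst
  have c2 : Continuous fun z : GIEM π r × ℝ => z.1.topR a :=
    (continuous_t _).comp continuous_fst
  have c3 : Continuous fun z : GIEM π r × ℝ => z.1.botL a :=
    (continuous_b _).comp continuous_fst
  have c4 : Continuous fun z : GIEM π r × ℝ => z.1.botR a :=
    (continuous_b _).comp continuous_fst
  have c5 : Continuous fun z : GIEM π r × ℝ =>
      (z.2 - z.1.topL a) / (z.1.topR a - z.1.topL a) :=
    (continuous_snd.sub c1).div (c2.sub c1) (fun z => (sub_pos.2 (z.1.topL_lt_topR a)).ne')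
  have c6 : Continuous fun z : GIEM π r × ℝ =>
      exC (z.1.φ a) ((z.2 - z.1.topL a) / (z.1.topR a - z.1.topL a)) :=
    (continuous_exC a).comp (continuous_fst.prodMk c5)
  unfold extFun
  exact (c3.add ((c4.sub c3).mul c6)).add (continuous_const.mul
    ((continuous_snd.sub c1).sub ((c2.sub c1).mul (continuous_cl.comp c5))))

theorem cfam_stOf : CFam (stOf : GK r → St) where
  p := continuous_const
  q := continuous_const
  v1 := continuous_t 1
  v2 := continuous_t 2
  v3 := continuous_t 3
  A := cIso_brIso 0 posN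
  B := cIso_brIso 1 posN
  C := cIso_brIso 2 posP
  D := cIso_brIso 3 posP

/-! ### the slopes -/

/-- the slopes of the branch of `a` are between `lo` and `hi`, strictly -/
def SlopeIn (a : Fin d) (hr : 1 ≤ r) (lo hi : ℝ) (T : GIEM π r) : Prop :=
  ∀ x : unitInterval, (T.botR a - T.botL a) / (T.topR a - T.topL a) *
    (T.φ a).jet ⟨1, by omega⟩ x ∈ Ioo lo hi

theorem isOpen_slopeIn (a : Fin d) (hr : 1 ≤ r) (lo hi : ℝ) :
    IsOpen {T : GIEM π r | SlopeIn a hr lo hi T} := by
  have c1 : Continuous fun T : GIEM π r =>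
      (T.botR a - T.botL a) / (T.topR a - T.topL a) :=
    ((continuous_b _).sub (continuous_b _)).div ((continuous_t _).sub (continuous_t _))
      (fun T => (sub_pos.2 (T.topL_lt_topR a)).ne')
  have c2 : Continuous fun T : GIEM π r =>
      ((T.botR a - T.botL a) / (T.topR a - T.topL a)) • (T.φ a).jet ⟨1, by omega⟩ :=
    c1.smul (continuous_jet a _)
  have h := (ContinuousMap.isOpen_setOfPred_mapsTo (X := unitInterval) (Y := ℝ)
    isCompact_univ (isOpen_Ioo (a := lo) (b := hi))).preimage c2
  convert h using 1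
  ext T
  constructor
  · intro hT x _
    exact hT x
  · intro hT x
    exact hT (mem_univ x)

theorem jet_one (φ : UnitDiffeo r) (hr : 1 < r + 1) (x : unitInterval) :
    φ.jet ⟨1, hr⟩ x = derivWithin (exC φ) (Icc 0 1) x := by
  show iteratedDerivWithin 1 (IccExtend (zero_le_one (α := ℝ)) φ.toFun) (Icc 0 1) x = _
  rw [iteratedDerivWithin_one]
  rfl

theorem SlopeIn.slope {a : Fin d} {hr : 1 ≤ r} {lo hi : ℝ} {T : GIEM π r}
    (h : SlopeIn a hr lo hi T) {s : ℝ} (hs : 0 < s) (h1 : lo ≤ s) (h2 : s ≤ hi) :
    Slope (brIso T a hs) lo hi := by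
  refine extIso_slope (T.φ a) _ _ hs ?_ h1 h2
  intro x hx
  have hm : x ∈ Icc (0 : ℝ) 1 := Ioo_subset_Icc_self hx
  have h3 := h ⟨x, hm⟩
  rw [jet_one] at h3
  exact ⟨h3.1.le, h3.2.le⟩

end maps

end Pool.Agent.TH227.GE
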