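import Pool.Agent.Helper627.PM

set_option autoImplicit false

/-!
A covering form of the Poincare Miranda property, and a splitting lemma.
-/

namespace Pool.Agent.TH227.GE

open Set

/-- covering form of the Poincare Miranda property for a set `K` with four distinguished sides:
two pairs of closed sets covering `K` and compatible with the sides have a common point -/
def PM {X : Type*} [TopologicalSpace X] (K L R B T : Set X) : Prop :=
  ∀ F1 F2 G1 G2 : Set X, IsClosed F1 → IsClosed F2 → IsClosed G1 → IsClosed G2 →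
    K ⊆ F1 ∪ F2 → K ⊆ G1 ∪ G2 → K ∩ L ⊆ F1 → K ∩ R ⊆ F2 → K ∩ B ⊆ G1 → K ∩ T ⊆ G2 →
    (K ∩ (F1 ∩ F2) ∩ (G1 ∩ G2)).Nonempty

namespace PM

section basic

variable {X : Type*} [TopologicalSpace X] {K L R B T : Set X}

theorem swap (h : PM K L R B T) : PM K B T L R := by
  intro F1 F2 G1 G2 h1 h2 h3 h4 h5 h6 h7 h8 h9 h10
  have := h G1 G2 F1 F2 h3 h4 h1 h2 h6 h5 h9 h10 h7 h8
  refine this.mono ?_
  intro x hx
  exact ⟨⟨hx.1.1, hx.2⟩, hx.1.2⟩

theorem symm (h : PM K L R B T) : PM K R L B T := by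
  intro F1 F2 G1 G2 h1 h2 h3 h4 h5 h6 h7 h8 h9 h10
  have := h F2 F1 G1 G2 h2 h1 h3 h4 (by rw [union_comm]; exact h5) h6 h8 h7 h9 h10
  refine this.mono ?_
  intro x hx
  exact ⟨⟨hx.1.1, hx.1.2.2, hx.1.2.1⟩, hx.2⟩

theorem nonempty (h : PM K L R B T) : K.Nonempty := by
  have := h univ univ univ univ isClosed_univ isClosed_univ isClosed_univ isClosed_univ
    (by simp) (by simp) (by simp) (by simp) (by simp) (by simp)
  refine this.mono ?_
  intro x hx
  exact hx.1.1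

/-- change of sides -/
theorem mono {L' R' B' T' : Set X} (h : PM K L R B T) (hL : K ∩ L ⊆ L') (hR : K ∩ R ⊆ R')
    (hB : K ∩ B ⊆ B') (hT : K ∩ T ⊆ T') : PM K L' R' B' T' := by
  intro F1 F2 G1 G2 h1 h2 h3 h4 h5 h6 h7 h8 h9 h10
  exact h F1 F2 G1 G2 h1 h2 h3 h4 h5 h6
    (fun x hx => h7 ⟨hx.1, hL hx⟩) (fun x hx => h8 ⟨hx.1, hR hx⟩)
    (fun x hx => h9 ⟨hx.1, hB hx⟩) (fun x hx => h10 ⟨hx.1, hT hx⟩)

end basic

section metric

variable {X : Type*} [PseudoMetricSpace X] {K L R B T : Set X}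

/-- extension of a closed cover of a closed subset -/
theorem extend_cover {K' L R F1 F2 : Set X} (hK' : IsClosed K') (hL : IsClosed L)
    (hR : IsClosed R) (h1 : IsClosed F1) (h2 : IsClosed F2) (hcov : K' ⊆ F1 ∪ F2)
    (hl : K' ∩ L ⊆ F1) (hr : K' ∩ R ⊆ F2) :
    ∃ E1 E2 : Set X, IsClosed E1 ∧ IsClosed E2 ∧ E1 ∪ E2 = univ ∧ L ⊆ E1 ∧ R ⊆ E2 ∧
      K' ∩ E1 ⊆ F1 ∧ K' ∩ E2 ⊆ F2 := by
  set A1 : Set X := (F1 ∩ K') ∪ L with hA1
  set A2 : Set X := (F2 ∩ K') ∪ R with hA2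
  have cA1 : IsClosed A1 := (h1.inter hK').union hL
  have cA2 : IsClosed A2 := (h2.inter hK').union hR
  refine ⟨{x | Metric.infEDist x A1 ≤ Metric.infEDist x A2},
    {x | Metric.infEDist x A2 ≤ Metric.infEDist x A1},
    isClosed_le Metric.continuous_infEDist Metric.continuous_infEDist,
    isClosed_le Metric.continuous_infEDist Metric.continuous_infEDist, ?_, ?_, ?_, ?_, ?_⟩
  · ext x
    simp only [mem_union, mem_ofPred_eq, mem_univ, iff_true]
    exact le_total _ _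
  · intro x hx
    have : Metric.infEDist x A1 = 0 := Metric.infEDist_zero_of_mem (Or.inr hx)
    simp [this]
  · intro x hx
    have : Metric.infEDist x A2 = 0 := Metric.infEDist_zero_of_mem (Or.inr hx)
    simp [this]
  · rintro x ⟨hxK, hx⟩
    rcases hcov hxK with h | h
    · exact h
    · have e : Metric.infEDist x A2 = 0 := Metric.infEDist_zero_of_mem (Or.inl ⟨h, hxK⟩)
      have hx' : Metric.infEDist x A1 ≤ Metric.infEDist x A2 := hx
      rw [e, nonpos_iff_eq_zero] at hx'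
      rcases (Metric.mem_iff_infEDist_zero_of_closed cA1).2 hx' with h' | h'
      · exact h'.1
      · exact hl ⟨hxK, h'⟩
  · rintro x ⟨hxK, hx⟩
    rcases hcov hxK with h | h
    · have e : Metric.infEDist x A1 = 0 := Metric.infEDist_zero_of_mem (Or.inl ⟨h, hxK⟩)
      have hx' : Metric.infEDist x A2 ≤ Metric.infEDist x A1 := hx
      rw [e, nonpos_iff_eq_zero] at hx'
      rcases (Metric.mem_iff_infEDist_zero_of_closed cA2).2 hx' with h' | h'
      · exact h'.1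
      · exact hr ⟨hxK, h'⟩
    · exact h

/-- splitting lemma: cutting off the parts near the sides `T` and `B` -/
theorem split (h : PM K L R B T) (hK : IsClosed K) (hL : IsClosed L) (hR : IsClosed R)
    {g1 g2 : X → ℝ} (c1 : Continuous g1) (c2 : Continuous g2)
    (h0 : ∀ x ∈ K, g1 x ≤ 0 → g2 x ≤ 0 → g1 x = 0 ∧ g2 x = 0)
    (hT : ∀ x ∈ K, x ∈ T → g1 x < 0) (hB : ∀ x ∈ K, x ∈ B → g2 x < 0) :
    PM (K ∩ {x | 0 ≤ g1 x ∧ 0 ≤ g2 x}) L R {x | g2 x = 0} {x | g1 x = 0} := by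
  intro F1 F2 G1 G2 f1 f2 f3 f4 h5 h6 h7 h8 h9 h10
  set K' := K ∩ {x | 0 ≤ g1 x ∧ 0 ≤ g2 x} with hK'
  have cK' : IsClosed K' :=
    hK.inter ((isClosed_le continuous_const c1).inter (isClosed_le continuous_const c2))
  obtain ⟨E1, E2, e1, e2, e3, e4, e5, e6, e7⟩ := extend_cover cK' hL hR f1 f2 h5 h7 h8
  have k1 : IsClosed (K ∩ {x | g1 x ≤ 0}) := hK.inter (isClosed_le c1 continuous_const)
  have k2 : IsClosed (K ∩ {x | g2 x ≤ 0}) := hK.inter (isClosed_le c2 continuous_const)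
  obtain ⟨x, ⟨hxK, hx1, hx2⟩, hx3, hx4⟩ := h E1 E2 ((G1 ∩ K') ∪ (K ∩ {x | g2 x ≤ 0}))
    ((G2 ∩ K') ∪ (K ∩ {x | g1 x ≤ 0})) e1 e2 ((f3.inter cK').union k2) ((f4.inter cK').union k1)
    (by rw [e3]; exact subset_univ _)
    (by
      intro x hx
      by_cases hg1 : g1 x ≤ 0
      · exact Or.inr (Or.inr ⟨hx, hg1⟩)
      by_cases hg2 : g2 x ≤ 0
      · exact Or.inl (Or.inr ⟨hx, hg2⟩)
      have hx' : x ∈ K' := ⟨hx, (not_le.1 hg1).le, (not_le.1 hg2).le⟩
      rcases h6 hx' with h | h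
      · exact Or.inl (Or.inl ⟨h, hx'⟩)
      · exact Or.inr (Or.inl ⟨h, hx'⟩))
    (fun x hx => e4 hx.2) (fun x hx => e5 hx.2)
    (fun x hx => Or.inr ⟨hx.1, (hB x hx.1 hx.2).le⟩)
    (fun x hx => Or.inr ⟨hx.1, (hT x hx.1 hx.2).le⟩)
  have main : x ∈ K' ∧ x ∈ G1 ∧ x ∈ G2 := by
    rcases hx3 with ⟨a1, a2⟩ | ⟨a1, a2⟩
    · refine ⟨a2, a1, ?_⟩
      rcases hx4 with ⟨b1, b2⟩ | ⟨b1, b2⟩
      · exact b1
      · exact h10 ⟨a2, le_antisymm b2 a2.2.1⟩
    · rcases hx4 with ⟨b1, b2⟩ | ⟨b1, b2⟩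
      · exact ⟨b2, h9 ⟨b2, le_antisymm a2 b2.2.2⟩, b1⟩
      · obtain ⟨z1, z2⟩ := h0 x hxK b2 a2
        have hx' : x ∈ K' := ⟨hxK, z1.ge, z2.ge⟩
        exact ⟨hx', h9 ⟨hx', z2⟩, h10 ⟨hx', z1⟩⟩
  exact ⟨x, ⟨main.1, e6 ⟨main.1, hx1⟩, e7 ⟨main.1, hx2⟩⟩, main.2⟩

end metric

/-! ### the square -/

theorem square : PM (univ : Set (unitInterval × unitInterval)) {s | s.1 = 0} {s | s.1 = 1}
    {s | s.2 = 0} {s | s.2 = 1} := by
  intro F1 F2 G1 G2 f1 f2 f3 f4 h5 h6 h7 h8 h9 h10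
  have mF1 : ((0, 0) : unitInterval × unitInterval) ∈ F1 := h7 ⟨mem_univ _, rfl⟩
  have mF2 : ((1, 0) : unitInterval × unitInterval) ∈ F2 := h8 ⟨mem_univ _, rfl⟩
  have mG1 : ((0, 0) : unitInterval × unitInterval) ∈ G1 := h9 ⟨mem_univ _, rfl⟩
  have mG2 : ((0, 1) : unitInterval × unitInterval) ∈ G2 := h10 ⟨mem_univ _, rfl⟩
  let P : ℝ × ℝ → unitInterval × unitInterval := fun z =>
    (projIcc 0 1 zero_le_one z.1, projIcc 0 1 zero_le_one z.2)
  have hP : Continuous P :=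
    ((continuous_projIcc (h := zero_le_one)).comp continuous_fst).prodMk
      ((continuous_projIcc (h := zero_le_one)).comp continuous_snd)
  let a : unitInterval × unitInterval → ℝ := fun s => Metric.infDist s F1 - Metric.infDist s F2
  let b : unitInterval × unitInterval → ℝ := fun s => Metric.infDist s G1 - Metric.infDist s G2
  have ca : Continuous a := (Metric.continuous_infDist_pt _).sub (Metric.continuous_infDist_pt _)
  have cb : Continuous b := (Metric.continuous_infDist_pt _).sub (Metric.continuous_infDist_pt _)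
  let c : ℝ → ℝ := fun x => (projIcc (0 : ℝ) 1 zero_le_one x : ℝ)
  have cc : Continuous c := continuous_subtype_val.comp (continuous_projIcc (h := zero_le_one))
  have aF1 : ∀ s ∈ F1, a s ≤ 0 := by
    intro s hs
    have h1 : Metric.infDist s F1 = 0 := Metric.infDist_zero_of_mem hs
    have h2 : 0 ≤ Metric.infDist s F2 := Metric.infDist_nonneg
    show Metric.infDist s F1 - Metric.infDist s F2 ≤ 0
    linarith
  have aF2 : ∀ s ∈ F2, 0 ≤ a s := by
    intro s hs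
    have h1 : Metric.infDist s F2 = 0 := Metric.infDist_zero_of_mem hs
    have h2 : 0 ≤ Metric.infDist s F1 := Metric.infDist_nonneg
    show 0 ≤ Metric.infDist s F1 - Metric.infDist s F2
    linarith
  have bG1 : ∀ s ∈ G1, b s ≤ 0 := by
    intro s hs
    have h1 : Metric.infDist s G1 = 0 := Metric.infDist_zero_of_mem hs
    have h2 : 0 ≤ Metric.infDist s G2 := Metric.infDist_nonneg
    show Metric.infDist s G1 - Metric.infDist s G2 ≤ 0
    linarith
  have bG2 : ∀ s ∈ G2, 0 ≤ b s := by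
    intro s hs
    have h1 : Metric.infDist s G2 = 0 := Metric.infDist_zero_of_mem hs
    have h2 : 0 ≤ Metric.infDist s G1 := Metric.infDist_nonneg
    show 0 ≤ Metric.infDist s G1 - Metric.infDist s G2
    linarith
  have az : ∀ s, a s = 0 → s ∈ F1 ∩ F2 := by
    intro s hs
    have hs' : Metric.infDist s F1 = Metric.infDist s F2 := sub_eq_zero.1 hs
    rcases h5 (mem_univ s) with h | h
    · refine ⟨h, (f2.mem_iff_infDist_zero ⟨_, mF2⟩).2 ?_⟩
      rw [← hs']; exact Metric.infDist_zero_of_mem h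
    · refine ⟨(f1.mem_iff_infDist_zero ⟨_, mF1⟩).2 ?_, h⟩
      rw [hs']; exact Metric.infDist_zero_of_mem h
  have bz : ∀ s, b s = 0 → s ∈ G1 ∩ G2 := by
    intro s hs
    have hs' : Metric.infDist s G1 = Metric.infDist s G2 := sub_eq_zero.1 hs
    rcases h6 (mem_univ s) with h | h
    · refine ⟨h, (f4.mem_iff_infDist_zero ⟨_, mG2⟩).2 ?_⟩
      rw [← hs']; exact Metric.infDist_zero_of_mem h
    · refine ⟨(f3.mem_iff_infDist_zero ⟨_, mG1⟩).2 ?_, h⟩
      rw [hs']; exact Metric.infDist_zero_of_mem h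
  -- facts on the clamp
  have c0 : ∀ x : ℝ, x ≤ 0 → projIcc (0 : ℝ) 1 zero_le_one x = 0 := fun x hx =>
    projIcc_of_le_left _ hx
  have c1 : ∀ x : ℝ, 1 ≤ x → projIcc (0 : ℝ) 1 zero_le_one x = 1 := fun x hx =>
    projIcc_of_right_le _ hx
  let ψ : ℝ × ℝ → ℝ := fun z => a (P z) + (z.1 - c z.1)
  let φ : ℝ × ℝ → ℝ := fun z => b (P z) + (z.2 - c z.2)
  have cψ : Continuous ψ := (ca.comp hP).add (continuous_fst.sub (cc.comp continuous_fst))
  have cφ : Continuous φ := (cb.comp hP).add (continuous_snd.sub (cc.comp continuous_snd))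
  have left : ∀ z : ℝ × ℝ, z.1 < 0 → ψ z < 0 := by
    intro z hz
    have h1 := c0 z.1 hz.le
    have h2 : a (P z) ≤ 0 := aF1 _ (h7 ⟨mem_univ _, h1⟩)
    have h3 : c z.1 = 0 := by show (projIcc (0 : ℝ) 1 zero_le_one z.1 : ℝ) = 0; rw [h1]; rfl
    show a (P z) + (z.1 - c z.1) < 0
    rw [h3]; linarith
  have right : ∀ z : ℝ × ℝ, 1 < z.1 → 0 < ψ z := by
    intro z hz
    have h1 := c1 z.1 hz.le
    have h2 : 0 ≤ a (P z) := aF2 _ (h8 ⟨mem_univ _, h1⟩)
    have h3 : c z.1 = 1 := by show (projIcc (0 : ℝ) 1 zero_le_one z.1 : ℝ) = 1; rw [h1]; rfl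
    show 0 < a (P z) + (z.1 - c z.1)
    rw [h3]; linarith
  have bot : ∀ z : ℝ × ℝ, z.2 < 0 → φ z < 0 := by
    intro z hz
    have h1 := c0 z.2 hz.le
    have h2 : b (P z) ≤ 0 := bG1 _ (h9 ⟨mem_univ _, h1⟩)
    have h3 : c z.2 = 0 := by show (projIcc (0 : ℝ) 1 zero_le_one z.2 : ℝ) = 0; rw [h1]; rfl
    show b (P z) + (z.2 - c z.2) < 0
    rw [h3]; linarith
  have top : ∀ z : ℝ × ℝ, 1 < z.2 → 0 < φ z := by
    intro z hz
    have h1 := c1 z.2 hz.le
    have h2 : 0 ≤ b (P z) := bG2 _ (h10 ⟨mem_univ _, h1⟩)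
    have h3 : c z.2 = 1 := by show (projIcc (0 : ℝ) 1 zero_le_one z.2 : ℝ) = 1; rw [h1]; rfl
    show 0 < b (P z) + (z.2 - c z.2)
    rw [h3]; linarith
  obtain ⟨x, hx, y, hy, hφ0, hψ0⟩ := Pool.Agent.Helper627.PM.poincare_miranda (-1) 2 (-1) 2
    (by norm_num) (by norm_num) φ ψ cφ.continuousOn cψ.continuousOn
    (fun y _ => left _ (by norm_num)) (fun y _ => right _ (by norm_num))
    (fun x _ => bot _ (by norm_num)) (fun x _ => top _ (by norm_num))
  have hx0 : 0 ≤ x := by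
    by_contra h
    have := left (x, y) (not_le.1 h)
    linarith
  have hx1 : x ≤ 1 := by
    by_contra h
    have := right (x, y) (not_le.1 h)
    linarith
  have hy0 : 0 ≤ y := by
    by_contra h
    have := bot (x, y) (not_le.1 h)
    linarith
  have hy1 : y ≤ 1 := by
    by_contra h
    have := top (x, y) (not_le.1 h)
    linarith
  have hcx : c x = x := by
    show (projIcc (0 : ℝ) 1 zero_le_one x : ℝ) = x
    rw [projIcc_of_mem _ ⟨hx0, hx1⟩]
  have hcy : c y = y := by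
    show (projIcc (0 : ℝ) 1 zero_le_one y : ℝ) = y
    rw [projIcc_of_mem _ ⟨hy0, hy1⟩]
  have ha0 : a (P (x, y)) = 0 := by
    have : a (P (x, y)) + (x - c x) = 0 := hψ0
    rw [hcx] at this; linarith
  have hb0 : b (P (x, y)) = 0 := by
    have : b (P (x, y)) + (y - c y) = 0 := hφ0
    rw [hcy] at this; linarith
  exact ⟨P (x, y), ⟨mem_univ _, az _ ha0⟩, bz _ hb0⟩

end PM

end Pool.Agent.TH227.GE
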