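import Mathlib

set_option autoImplicit false

/-!
Existence of an infinite sequence of positive length vectors related by the Keane matrices.
-/

namespace Pool.Agent.TH227.GE

open Set Filter Topology

/-- four lengths -/
abbrev Vec : Type := ℝ × ℝ × ℝ × ℝ

/-- total length -/
def tot (v : Vec) : ℝ := v.1 + v.2.1 + v.2.2.1 + v.2.2.2

/-- lengths of a level from the lengths of the next level -/
def KM (M N : ℕ) (v : Vec) : Vec :=
  (v.2.2.1 + v.2.2.2, M * (v.1 + v.2.1) + v.2.1,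
    N * (v.1 + v.2.1 + v.2.2.1 + v.2.2.2) + (v.1 + v.2.1 + v.2.2.2),
    v.1 + v.2.1 + v.2.2.1 + v.2.2.2)

theorem tot_smul (t : ℝ) (v : Vec) : tot (t • v) = t * tot v := by
  simp only [tot, Prod.smul_fst, Prod.smul_snd, smul_eq_mul]; ring

theorem KM_smul (M N : ℕ) (t : ℝ) (v : Vec) : KM M N (t • v) = t • KM M N v := by
  simp only [KM, Prod.smul_fst, Prod.smul_snd, smul_eq_mul, Prod.smul_mk, Prod.mk.injEq]
  refine ⟨by ring, by ring, by ring, by ring⟩

theorem continuous_tot : Continuous tot := by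
  unfold tot; fun_prop

theorem continuous_KM (M N : ℕ) : Continuous (KM M N) := by
  unfold KM; fun_prop

/-- non-negative entries -/
def NN (v : Vec) : Prop := 0 ≤ v.1 ∧ 0 ≤ v.2.1 ∧ 0 ≤ v.2.2.1 ∧ 0 ≤ v.2.2.2

theorem NN.KM {v : Vec} (h : NN v) (M N : ℕ) : NN (KM M N v) := by
  obtain ⟨h1, h2, h3, h4⟩ := h
  refine ⟨?_, ?_, ?_, ?_⟩ <;> simp only [GE.KM] <;> positivity

theorem tot_le {v : Vec} (h : NN v) (M N : ℕ) : tot v ≤ tot (KM M N v) := by
  obtain ⟨h1, h2, h3, h4⟩ := h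
  have e1 : 0 ≤ (M : ℝ) * (v.1 + v.2.1) + v.2.1 := by positivity
  have e2 : 0 ≤ (N : ℝ) * (v.1 + v.2.1 + v.2.2.1 + v.2.2.2) + (v.1 + v.2.1 + v.2.2.2) := by
    positivity
  simp only [tot, KM]
  linarith

theorem finite_seq (n : ℕ) : ∀ M N : ℕ → ℕ, ∃ x : ℕ → Vec, (∀ k, NN (x k)) ∧
    (∀ k, x k ≤ 1) ∧ tot (x 0) = 1 ∧ ∀ k < n, x k = KM (M k) (N k) (x (k + 1)) := by
  induction n with
  | zero =>
    intro M N
    refine ⟨fun _ => (1, 0, 0, 0), fun _ => ?_, fun _ => ?_, ?_, fun k hk => by omega⟩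
    · simp [NN]
    · simp [Prod.le_def]
    · simp [tot]
  | succ n ih =>
    intro M N
    obtain ⟨x, h1, h2, h3, h4⟩ := ih (fun k => M (k + 1)) (fun k => N (k + 1))
    set t := tot (KM (M 0) (N 0) (x 0)) with ht
    have ht1 : 1 ≤ t := by rw [← h3]; exact tot_le (h1 0) _ _
    have ht0 : 0 < t := by linarith
    have hinv : 0 < t⁻¹ := inv_pos.2 ht0
    have hinv1 : t⁻¹ ≤ 1 := inv_le_one_of_one_le₀ ht1
    have nn : ∀ v : Vec, NN v → NN (t⁻¹ • v) := by
      intro v hv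
      obtain ⟨a1, a2, a3, a4⟩ := hv
      simp only [NN, Prod.smul_fst, Prod.smul_snd, smul_eq_mul]
      refine ⟨?_, ?_, ?_, ?_⟩ <;> positivity
    refine ⟨fun k => match k with
      | 0 => t⁻¹ • KM (M 0) (N 0) (x 0)
      | k + 1 => t⁻¹ • x k, ?_, ?_, ?_, ?_⟩
    · intro k
      cases k with
      | zero => exact nn _ ((h1 0).KM _ _)
      | succ k => exact nn _ (h1 k)
    · intro k
      cases k with
      | zero =>
        have hn := nn _ ((h1 0).KM (M 0) (N 0))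
        have htt : tot (t⁻¹ • KM (M 0) (N 0) (x 0)) = 1 := by
          rw [tot_smul, ← ht, inv_mul_cancel₀ ht0.ne']
        show t⁻¹ • KM (M 0) (N 0) (x 0) ≤ 1
        generalize t⁻¹ • KM (M 0) (N 0) (x 0) = v at hn htt
        obtain ⟨a1, a2, a3, a4⟩ := hn
        unfold tot at htt
        refine ⟨?_, ?_, ?_, ?_⟩
        · show v.1 ≤ 1; linarith
        · show v.2.1 ≤ 1; linarith
        · show v.2.2.1 ≤ 1; linarith
        · show v.2.2.2 ≤ 1; linarith
      | succ k =>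
        show t⁻¹ • x k ≤ 1
        obtain ⟨b1, b2, b3, b4⟩ := h2 k
        obtain ⟨a1, a2, a3, a4⟩ := h1 k
        have b1' : (x k).1 ≤ 1 := b1
        have b2' : (x k).2.1 ≤ 1 := b2
        have b3' : (x k).2.2.1 ≤ 1 := b3
        have b4' : (x k).2.2.2 ≤ 1 := b4
        refine ⟨?_, ?_, ?_, ?_⟩
        · show t⁻¹ * (x k).1 ≤ 1
          exact mul_le_one₀ hinv1 a1 b1'
        · show t⁻¹ * (x k).2.1 ≤ 1
          exact mul_le_one₀ hinv1 a2 b2'
        · show t⁻¹ * (x k).2.2.1 ≤ 1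
          exact mul_le_one₀ hinv1 a3 b3'
        · show t⁻¹ * (x k).2.2.2 ≤ 1
          exact mul_le_one₀ hinv1 a4 b4'
    · show tot (t⁻¹ • KM (M 0) (N 0) (x 0)) = 1
      rw [tot_smul, ← ht, inv_mul_cancel₀ ht0.ne']
    · intro k hk
      cases k with
      | zero =>
        show t⁻¹ • KM (M 0) (N 0) (x 0) = KM (M 0) (N 0) (t⁻¹ • x 0)
        rw [KM_smul]
      | succ k =>
        show t⁻¹ • x k = KM (M (k + 1)) (N (k + 1)) (t⁻¹ • x (k + 1))
        rw [KM_smul, ← h4 k (by omega)]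

/-- strictly positive entries -/
structure Pos (v : Vec) : Prop where
  a : 0 < v.1
  b : 0 < v.2.1
  c : 0 < v.2.2.1
  d : 0 < v.2.2.2

theorem exists_seq (M N : ℕ → ℕ) (hM : ∀ k, 1 ≤ M k) (hN : ∀ k, 1 ≤ N k) :
    ∃ x : ℕ → Vec, (∀ k, x k = KM (M k) (N k) (x (k + 1))) ∧ (∀ k, Pos (x k)) ∧
      tot (x 0) = 1 := by
  let S : ℕ → Set (ℕ → Vec) := fun n =>
    {x | x ∈ Icc 0 1 ∧ tot (x 0) = 1 ∧ ∀ k < n, x k = KM (M k) (N k) (x (k + 1))}
  have hclosed : ∀ n, IsClosed (S n) := by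
    intro n
    have h1 : IsClosed {x : ℕ → Vec | x ∈ Icc 0 1} := isClosed_Icc
    have h2 : IsClosed {x : ℕ → Vec | tot (x 0) = 1} :=
      isClosed_eq (continuous_tot.comp (continuous_apply 0)) continuous_const
    have h3 : IsClosed {x : ℕ → Vec | ∀ k < n, x k = KM (M k) (N k) (x (k + 1))} := by
      have : {x : ℕ → Vec | ∀ k < n, x k = KM (M k) (N k) (x (k + 1))} =
          ⋂ k, ⋂ (_ : k < n), {x : ℕ → Vec | x k = KM (M k) (N k) (x (k + 1))} := by
        ext x; simp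
      rw [this]
      refine isClosed_iInter fun k => isClosed_iInter fun _ => ?_
      exact isClosed_eq (continuous_apply k) ((continuous_KM _ _).comp (continuous_apply _))
    exact h1.inter (h2.inter h3)
  have hne : ∀ n, (S n).Nonempty := by
    intro n
    obtain ⟨x, h1, h2, h3, h4⟩ := finite_seq n M N
    refine ⟨x, ⟨?_, fun k => h2 k⟩, h3, h4⟩
    intro k
    obtain ⟨a1, a2, a3, a4⟩ := h1 k
    exact ⟨a1, a2, a3, a4⟩
  have hcomp : IsCompact (S 0) :=
    isCompact_Icc.of_isClosed_subset (hclosed 0) (fun x hx => hx.1)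
  obtain ⟨x, hx⟩ := IsCompact.nonempty_iInter_of_sequence_nonempty_isCompact_isClosed S
    (fun n x hx => ⟨hx.1, hx.2.1, fun k hk => hx.2.2 k (by omega)⟩) hne hcomp hclosed
  have hx' : ∀ n, x ∈ S n := fun n => mem_iInter.1 hx n
  have hrec : ∀ k, x k = KM (M k) (N k) (x (k + 1)) := fun k => (hx' (k + 1)).2.2 k (by omega)
  have hnn : ∀ k, NN (x k) := fun k => by
    have := (hx' 0).1.1 k
    exact ⟨this.1, this.2.1, this.2.2.1, this.2.2.2⟩
  have htot : ∀ k, 0 < tot (x k) := by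
    intro k
    induction k with
    | zero => rw [(hx' 0).2.1]; exact one_pos
    | succ k ih =>
      by_contra hcon
      obtain ⟨a1, a2, a3, a4⟩ := hnn (k + 1)
      have h0 : tot (x (k + 1)) ≤ 0 := not_lt.1 hcon
      unfold tot at h0
      have e1 : (x (k + 1)).1 = 0 := by linarith
      have e2 : (x (k + 1)).2.1 = 0 := by linarith
      have e3 : (x (k + 1)).2.2.1 = 0 := by linarith
      have e4 : (x (k + 1)).2.2.2 = 0 := by linarith
      rw [hrec k] at ih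
      simp [tot, KM, e1, e2, e3, e4] at ih
  have hd : ∀ k, 0 < (x k).2.2.2 := by
    intro k
    rw [hrec k]
    exact htot (k + 1)
  refine ⟨x, hrec, ?_, (hx' 0).2.1⟩
  intro k
  obtain ⟨a1, a2, a3, a4⟩ := hnn (k + 1)
  have hpos := htot (k + 1)
  have hd1 := hd (k + 1)
  have ha1 : 0 < (x (k + 1)).1 := by
    rw [hrec (k + 1)]
    have := hd (k + 2)
    have h3 := (hnn (k + 2)).2.2.1
    show 0 < (x (k + 2)).2.2.1 + (x (k + 2)).2.2.2
    linarith
  have hM1 : (1 : ℝ) ≤ M k := by exact_mod_cast hM k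
  have hN1 : (1 : ℝ) ≤ N k := by exact_mod_cast hN k
  rw [hrec k]
  refine ⟨?_, ?_, ?_, ?_⟩
  · show 0 < (x (k + 1)).2.2.1 + (x (k + 1)).2.2.2
    linarith
  · show 0 < (M k : ℝ) * ((x (k + 1)).1 + (x (k + 1)).2.1) + (x (k + 1)).2.1
    positivity
  · show 0 < (N k : ℝ) * ((x (k + 1)).1 + (x (k + 1)).2.1 + (x (k + 1)).2.2.1 +
      (x (k + 1)).2.2.2) + ((x (k + 1)).1 + (x (k + 1)).2.1 + (x (k + 1)).2.2.2)
    positivity
  · exact hpos

end Pool.Agent.TH227.GE
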