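import Pool.Agent.TH227.GE.Fam

set_option autoImplicit false

/-!
Spreading a monotone map from the interval of the next level to the interval of a given level.
-/

namespace Pool.Agent.TH227.GE

open Set Filter Topology

/-- monotone and continuous on a closed interval -/
structure MC (H : ℝ → ℝ) (a b : ℝ) : Prop where
  mono : MonotoneOn H (Icc a b)
  cont : ContinuousOn H (Icc a b)

theorem MC.glue {H K : ℝ → ℝ} {a b c : ℝ} (hab : a ≤ b) (hbc : b ≤ c) (h1 : MC H a b)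
    (h2 : MC K b c) (e : H b = K b) : MC (fun x => if x ≤ b then H x else K x) a c := by
  have e1 : EqOn (fun x => if x ≤ b then H x else K x) H (Icc a b) := by
    intro x hx
    simp [hx.2]
  have e2 : EqOn (fun x => if x ≤ b then H x else K x) K (Icc b c) := by
    intro x hx
    rcases hx.1.eq_or_lt with h | h
    · subst h; simp [e]
    · simp [not_le.2 h]
  constructor
  · intro x hx y hy hxy
    rcases le_total y b with h | h
    · rw [e1 ⟨hx.1, hxy.trans h⟩, e1 ⟨hy.1, h⟩]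
      exact h1.mono ⟨hx.1, hxy.trans h⟩ ⟨hy.1, h⟩ hxy
    · rcases le_total x b with h' | h'
      · rw [e1 ⟨hx.1, h'⟩, e2 ⟨h, hy.2⟩]
        calc H x ≤ H b := h1.mono ⟨hx.1, h'⟩ ⟨hab, le_rfl⟩ h'
          _ = K b := e
          _ ≤ K y := h2.mono ⟨le_rfl, hbc⟩ ⟨h, hy.2⟩ h
      · rw [e2 ⟨h', hx.2⟩, e2 ⟨h, hy.2⟩]
        exact h2.mono ⟨h', hx.2⟩ ⟨h, hy.2⟩ hxy
  · have c1 := h1.cont.congr e1
    have c2 := h2.cont.congr e2
    have := c1.union_of_isClosed c2 isClosed_Icc isClosed_Icc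
    rwa [Icc_union_Icc_eq_Icc hab hbc] at this

theorem MC.conj {h : ℝ → ℝ} {a b : ℝ} (g g0 : ℝ ≃o ℝ) (hh : MC h a b) :
    MC (fun x => g0 (h (g.symm x))) (g a) (g b) := by
  have hmem : ∀ x ∈ Icc (g a) (g b), g.symm x ∈ Icc a b := fun x hx =>
    ⟨(OrderIso.le_symm_apply g).2 hx.1, (OrderIso.symm_apply_le g).2 hx.2⟩
  constructor
  · intro x hx y hy hxy
    exact g0.monotone (hh.mono (hmem x hx) (hmem y hy) (g.symm.monotone hxy))
  · exact g0.continuous.comp_continuousOn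
      (hh.cont.comp g.symm.continuous.continuousOn hmem)

theorem MC.sub {H : ℝ → ℝ} {a b a' b' : ℝ} (h : MC H a b) (h1 : a ≤ a') (h2 : b' ≤ b) :
    MC H a' b' :=
  ⟨h.mono.mono (Icc_subset_Icc h1 h2), h.cont.mono (Icc_subset_Icc h1 h2)⟩

theorem ext_step {g g0 : ℝ ≃o ℝ} {H : ℝ → ℝ} {p b b' : ℝ} (hpb : p ≤ b) (hbb : b ≤ b')
    (hz : p ≤ g.symm b) (hb' : g.symm b' ≤ b) (h : MC H p b)
    (e : g0 (H (g.symm b)) = H b) :
    ∃ H' : ℝ → ℝ, MC H' p b' ∧ (∀ x ≤ b, H' x = H x) ∧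
      ∀ x ∈ Icc (g.symm b) (g.symm b'), H' (g x) = g0 (H' x) := by
  have h2 : MC (fun x => g0 (H (g.symm x))) b b' := by
    have := (h.sub hz hb').conj g g0
    rwa [OrderIso.apply_symm_apply, OrderIso.apply_symm_apply] at this
  refine ⟨fun x => if x ≤ b then H x else g0 (H (g.symm x)), h.glue hpb hbb h2 e.symm, ?_, ?_⟩
  · intro x hx
    simp [hx]
  · intro x hx
    have h3 : x ≤ b := hx.2.trans hb'
    have h4 : b ≤ g x := (OrderIso.symm_apply_le g).1 hx.1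
    rcases h4.eq_or_lt with h5 | h5
    · have h6 : x = g.symm b := by rw [h5, OrderIso.symm_apply_apply]
      simp only [h3, ← h5, le_refl, if_true]
      rw [h6, e]
    · simp only [h3, not_le.2 h5, if_true, if_false, OrderIso.symm_apply_apply]

theorem ext_many {g g0 : ℝ ≃o ℝ} {p c : ℝ} (n : ℕ) : ∀ (b : ℝ) (H : ℝ → ℝ), p ≤ g.symm b →
    g.symm b ≤ b → b ≤ c → c ≤ (g ^ n) b → MC H p b → g0 (H (g.symm b)) = H b →
    ∃ H' : ℝ → ℝ, MC H' p c ∧ (∀ x ≤ b, H' x = H x) ∧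
      ∀ x ∈ Icc (g.symm b) (g.symm c), H' (g x) = g0 (H' x) := by
  induction n with
  | zero =>
    intro b H h1 h2 h3 h4 h5 h6
    have hcb : c = b := le_antisymm h4 h3
    subst hcb
    refine ⟨H, h5, fun x _ => rfl, ?_⟩
    intro x hx
    have : x = g.symm c := le_antisymm hx.2 hx.1
    rw [this, OrderIso.apply_symm_apply, h6]
  | succ n ih =>
    intro b H h1 h2 h3 h4 h5 h6
    rcases le_total c (g b) with h | h
    · exact ext_step (h1.trans h2) h3 h1 ((OrderIso.symm_apply_le g).2 h) h5 h6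
    · have hbg : b ≤ g b := (OrderIso.symm_apply_le g).1 h2
      obtain ⟨H1, a1, a2, a3⟩ := ext_step (b' := g b) (h1.trans h2) hbg h1
        (by rw [OrderIso.symm_apply_apply]) h5 h6
      rw [OrderIso.symm_apply_apply] at a3
      obtain ⟨H2, b1, b2, b3⟩ := ih (g b) H1 (by rw [OrderIso.symm_apply_apply]; linarith)
        (by rw [OrderIso.symm_apply_apply]; exact hbg) h (by rwa [← pow_succ_app']) a1
        (by rw [OrderIso.symm_apply_apply]; exact (a3 b ⟨h2, le_rfl⟩).symm)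
      rw [OrderIso.symm_apply_apply] at b3
      refine ⟨H2, b1, fun x hx => ?_, fun x hx => ?_⟩
      · rw [b2 x (hx.trans hbg), a2 x hx]
      · rcases le_total x b with h' | h'
        · rw [b2 (g x) (g.monotone h'), b2 x (h'.trans hbg), a3 x ⟨hx.1, h'⟩]
        · exact b3 x ⟨h', hx.2⟩

theorem rel_pow {g g0 : ℝ ≃o ℝ} {H : ℝ → ℝ} {a b : ℝ}
    (hrel : ∀ x ∈ Icc a b, H (g x) = g0 (H x)) {x : ℝ} (hax : a ≤ x) (hx : x ≤ g x) {j : ℕ}
    (hj : (g ^ j) x ≤ g b) : H ((g ^ j) x) = (g0 ^ j) (H x) := by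
  induction j with
  | zero => rfl
  | succ j ih =>
    have h1 : (g ^ j) x ≤ b := by rw [pow_succ_app] at hj; exact g.le_iff_le.1 hj
    have h2 : x ≤ (g ^ j) x := le_pow_of_le g hx j
    have h3 : (g ^ j) x ≤ (g ^ (j + 1)) x := pow_mono_of_le g hx (Nat.le_succ j)
    rw [pow_succ_app, pow_succ_app, hrel _ ⟨hax.trans h2, h1⟩, ih (h3.trans hj)]

theorem up_of_mem {g : ℝ ≃o ℝ} {a x : ℝ} {n : ℕ} (ha : a ≤ g a) (h1 : a ≤ x)
    (h2 : x ≤ (g ^ n) a) : x ≤ g x := by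
  by_contra h
  rw [not_le] at h
  cases n with
  | zero =>
    have : x = a := le_antisymm h2 h1
    rw [this] at h
    linarith
  | succ n =>
    have h3 : (g ^ (n + 1)) a ≤ (g ^ (n + 1)) x := (g ^ (n + 1)).monotone h1
    have h4 : (g ^ (n + 1)) x ≤ g x := by
      rw [pow_succ_app]
      exact g.monotone (pow_le_of_le g h.le n)
    linarith

/-- a state which is strictly ordered together with its renormalisation -/
structure Fac (M N : ℕ) (σ : St) : Prop where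
  hM : 1 ≤ M
  hN : 1 ≤ N
  s : Str σ
  s' : Str (renorm M N σ)

namespace Fac

variable {M N : ℕ} {σ : St} (f : Fac M N σ)

include f

theorem b1 : (σ.B ^ M) σ.v1 < σ.v2 := by
  have h : - σ.D.symm ((σ.B ^ M).symm σ.v2) < - σ.D.symm σ.v1 := f.s'.h2
  have h' := σ.D.symm.lt_iff_lt.1 (neg_lt_neg_iff.1 h)
  rwa [OrderIso.lt_symm_apply] at h'

theorem b2 : σ.v2 < (σ.B ^ (M + 1)) σ.v1 := by
  have h : - σ.q < - σ.D.symm ((σ.B ^ M).symm σ.v2) := f.s'.h1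
  have h' := neg_lt_neg_iff.1 h
  rwa [OrderIso.symm_apply_lt, ← σ.hB, OrderIso.symm_apply_lt, ← pow_succ_app'] at h'

theorem c1 : σ.B σ.v2 < (σ.C ^ N).symm σ.v3 := by
  have h : - σ.D.symm (σ.A.symm ((σ.C ^ N).symm σ.v3)) < - σ.v3 := f.s'.h4
  have h' := neg_lt_neg_iff.1 h
  rwa [OrderIso.lt_symm_apply, σ.hD, OrderIso.lt_symm_apply, σ.hA] at h'

theorem c2 : (σ.C ^ N).symm σ.v3 < σ.C σ.v2 := by
  have h : - σ.D.symm σ.v1 < - σ.D.symm (σ.A.symm ((σ.C ^ N).symm σ.v3)) := f.s'.h3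
  have h' := σ.D.symm.lt_iff_lt.1 (neg_lt_neg_iff.1 h)
  rwa [OrderIso.symm_apply_lt, ← σ.hC] at h'

theorem v1u1 : σ.v1 < σ.B σ.v1 :=
  lt_of_pow_lt_pow_succ σ.B (f.b1.trans f.b2)

theorem u1v2 : σ.B σ.v1 < σ.v2 := by
  have := pow_mono_of_le σ.B f.v1u1.le f.hM
  rw [pow_one_app] at this
  exact lt_of_le_of_lt this f.b1

theorem v2u2 : σ.v2 < σ.B σ.v2 := by
  have h1 := f.b2
  rw [pow_succ_app] at h1
  exact h1.trans (σ.B.lt_iff_lt.2 f.b1)

theorem u2u3 : σ.B σ.v2 < σ.C σ.v2 := f.c1.trans f.c2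

theorem v2u3 : σ.v2 < σ.C σ.v2 := f.v2u2.trans f.u2u3

theorem v3c : σ.v3 < (σ.C ^ (N + 1)) σ.v2 := by
  have h := f.c2
  rwa [OrderIso.symm_apply_lt, ← pow_succ_app'] at h

theorem u3v3 : σ.C σ.v2 < σ.v3 := by
  have h1 : σ.v2 < (σ.C ^ N).symm σ.v3 := f.v2u2.trans f.c1
  rw [OrderIso.lt_symm_apply] at h1
  have := pow_mono_of_le σ.C f.v2u3.le f.hN
  rw [pow_one_app] at this
  exact lt_of_le_of_lt this h1

theorem upB {x : ℝ} (h1 : σ.v1 ≤ x) (h2 : x ≤ σ.v2) : x ≤ σ.B x :=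
  up_of_mem f.v1u1.le h1 (h2.trans f.b2.le)

theorem upC {x : ℝ} (h1 : σ.v2 ≤ x) (h2 : x ≤ σ.v3) : x ≤ σ.C x :=
  up_of_mem f.v2u3.le h1 (h2.trans f.v3c.le)

/-- the point `w1 = - v1'` -/
theorem w1_mem : (σ.B ^ M).symm σ.v2 ∈ Ioo σ.v1 (σ.B σ.v1) := by
  constructor
  · rw [OrderIso.lt_symm_apply]; exact f.b1
  · rw [OrderIso.symm_apply_lt, ← pow_succ_app']; exact f.b2

end Fac

/-- the conditions on a semi-conjugacy not involving the dynamics -/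
structure Sem (σ σ0 : St) (H : ℝ → ℝ) : Prop where
  mc : MC H σ.p σ.q
  p : H σ.p = σ0.p
  v1 : H σ.v1 = σ0.v1
  v2 : H σ.v2 = σ0.v2
  v3 : H σ.v3 = σ0.v3
  q : H σ.q = σ0.q

/-- equivariance outside of the part of the interval of `C` which returns immediately -/
structure Rel (σ σ0 : St) (H : ℝ → ℝ) : Prop where
  D : ∀ x ∈ Icc σ.v3 σ.q, H (σ.D x) = σ0.D (H x)
  A : ∀ x ∈ Icc σ.p σ.v1, H (σ.A x) = σ0.A (H x)
  B : ∀ x ∈ Icc σ.v1 σ.v2, H (σ.B x) = σ0.B (H x)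
  C : ∀ x ∈ Icc σ.v2 (σ.C.symm σ.v3), H (σ.C x) = σ0.C (H x)

theorem spread {M N : ℕ} {σ σ0 : St} (f : Fac M N σ) {H' : ℝ → ℝ}
    (hH : Sem (renorm M N σ) (renorm M N σ0) H') :
    ∃ H : ℝ → ℝ, Sem σ σ0 H ∧ Rel σ σ0 H ∧ ∀ x ∈ Icc σ.v3 σ.q, H x = - H' (-x) := by
  obtain ⟨h, hh⟩ : ∃ h : ℝ → ℝ, ∀ x, h x = - H' (-x) := ⟨fun x => - H' (-x), fun _ => rfl⟩
  have hmem : ∀ x ∈ Icc σ.v3 σ.q, -x ∈ Icc (renorm M N σ).p (renorm M N σ).q := fun x hx =>
    ⟨neg_le_neg hx.2, neg_le_neg hx.1⟩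
  have mh : MC h σ.v3 σ.q := by
    have hfun : h = fun x => - H' (-x) := funext hh
    rw [hfun]
    constructor
    · intro x hx y hy hxy
      exact neg_le_neg (hH.mc.mono (hmem y hy) (hmem x hx) (neg_le_neg hxy))
    · exact (hH.mc.cont.comp continuous_neg.continuousOn hmem).neg
  have h_v3 : h σ.v3 = σ0.v3 := by
    rw [hh]
    have : H' (-σ.v3) = - σ0.v3 := hH.q
    rw [this, neg_neg]
  have h_q : h σ.q = σ0.q := by
    rw [hh]
    have : H' (-σ.q) = - σ0.q := hH.p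
    rw [this, neg_neg]
  have h_w1 : h (σ.D.symm ((σ.B ^ M).symm σ.v2)) = σ0.D.symm ((σ0.B ^ M).symm σ0.v2) := by
    rw [hh]
    have : H' (-σ.D.symm ((σ.B ^ M).symm σ.v2)) = - σ0.D.symm ((σ0.B ^ M).symm σ0.v2) := hH.v1
    rw [this, neg_neg]
  have h_w2 : h (σ.D.symm σ.v1) = σ0.D.symm σ0.v1 := by
    rw [hh]
    have : H' (-σ.D.symm σ.v1) = - σ0.D.symm σ0.v1 := hH.v2
    rw [this, neg_neg]
  have h_w3 : h (σ.D.symm (σ.A.symm ((σ.C ^ N).symm σ.v3))) =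
      σ0.D.symm (σ0.A.symm ((σ0.C ^ N).symm σ0.v3)) := by
    rw [hh]
    have : H' (-σ.D.symm (σ.A.symm ((σ.C ^ N).symm σ.v3))) =
      - σ0.D.symm (σ0.A.symm ((σ0.C ^ N).symm σ0.v3)) := hH.v3
    rw [this, neg_neg]
  have iD : σ.D.symm σ.p = σ.v3 := by rw [← σ.hD, OrderIso.symm_apply_apply]
  have o1 := f.s.h1
  have o2 := f.s.h2
  have o3 := f.s.h3
  have o4 := f.s.h4
  have o5 := f.v1u1
  have o6 := f.u1v2
  have o7 := f.v2u2
  have o8 := f.u2u3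
  have o9 := f.u3v3
  -- first piece
  obtain ⟨H1, hH1⟩ : ∃ H1 : ℝ → ℝ, ∀ x, H1 x = σ0.D (h (σ.D.symm x)) :=
    ⟨fun x => σ0.D (h (σ.D.symm x)), fun _ => rfl⟩
  have m1 : MC H1 σ.p (σ.B σ.v1) := by
    have hfun : H1 = fun x => σ0.D (h (σ.D.symm x)) := funext hH1
    have := mh.conj σ.D σ0.D
    rw [σ.hD, ← σ.hB] at this
    rw [hfun]; exact this
  have H1p : H1 σ.p = σ0.p := by rw [hH1, iD, h_v3, σ0.hD]
  have H1u1 : H1 (σ.B σ.v1) = σ0.B σ0.v1 := by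
    rw [hH1, σ.hB, OrderIso.symm_apply_apply, h_q, σ0.hB]
  have H1v1 : H1 σ.v1 = σ0.v1 := by rw [hH1, h_w2, OrderIso.apply_symm_apply]
  have H1w1 : H1 ((σ.B ^ M).symm σ.v2) = (σ0.B ^ M).symm σ0.v2 := by
    rw [hH1, h_w1, OrderIso.apply_symm_apply]
  -- second piece
  obtain ⟨H2, m2, H21, r2⟩ := ext_many (g := σ.B) (g0 := σ0.B) (p := σ.p) (c := σ.B σ.v2)
    (M + 1) (σ.B σ.v1) H1 (by rw [OrderIso.symm_apply_apply]; exact o1.le)
    (by rw [OrderIso.symm_apply_apply]; exact o5.le) (σ.B.monotone o2.le)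
    (by
      rw [← pow_succ_app', pow_succ_app]
      exact σ.B.monotone f.b2.le) m1 (by rw [OrderIso.symm_apply_apply, H1v1, H1u1])
  rw [OrderIso.symm_apply_apply, OrderIso.symm_apply_apply] at r2
  have w1m := f.w1_mem
  have H2v2 : H2 σ.v2 = σ0.v2 := by
    have h1 := rel_pow r2 (x := (σ.B ^ M).symm σ.v2) (j := M) w1m.1.le
      (f.upB w1m.1.le (w1m.2.le.trans o6.le)) (by rw [OrderIso.apply_symm_apply]; exact o7.le)
    rw [OrderIso.apply_symm_apply, H21 _ w1m.2.le, H1w1, OrderIso.apply_symm_apply] at h1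
    exact h1
  have H2u2 : H2 (σ.B σ.v2) = σ0.B σ0.v2 := by
    rw [r2 _ ⟨o2.le, le_rfl⟩, H2v2]
  have H2p : H2 σ.p = σ0.p := by rw [H21 _ (by linarith), H1p]
  -- third piece
  have iA1 : σ.A.symm (σ.B σ.v2) = σ.p := by rw [← σ.hA, OrderIso.symm_apply_apply]
  have iA2 : σ.A.symm (σ.C σ.v2) = σ.v1 := by rw [σ.hC, OrderIso.symm_apply_apply]
  obtain ⟨H3, m3, H32, r3⟩ := ext_step (g := σ.A) (g0 := σ0.A) (b := σ.B σ.v2)
    (b' := σ.C σ.v2) (by linarith) o8.le (by rw [iA1]) (by rw [iA2]; linarith) m2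
    (by rw [iA1, H2p, H2u2, σ0.hA])
  rw [iA1, iA2] at r3
  have H3v2 : H3 σ.v2 = σ0.v2 := by rw [H32 _ o7.le, H2v2]
  have H3v1 : H3 σ.v1 = σ0.v1 := by rw [H32 _ (by linarith), H21 _ o5.le, H1v1]
  have H3u3 : H3 (σ.C σ.v2) = σ0.C σ0.v2 := by
    rw [σ.hC, r3 _ ⟨o1.le, le_rfl⟩, H3v1, σ0.hC]
  -- fourth piece
  obtain ⟨H4, m4, H43, r4⟩ := ext_many (g := σ.C) (g0 := σ0.C) (p := σ.p) (c := σ.v3)
    N (σ.C σ.v2) H3 (by rw [OrderIso.symm_apply_apply]; linarith)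
    (by rw [OrderIso.symm_apply_apply]; linarith) o9.le
    (by
      rw [← pow_succ_app']
      exact f.v3c.le) m3 (by rw [OrderIso.symm_apply_apply, H3v2, H3u3])
  rw [OrderIso.symm_apply_apply] at r4
  have zm1 := f.c1
  have zm2 := f.c2
  have H4v3 : H4 σ.v3 = σ0.v3 := by
    have h1 := rel_pow r4 (x := (σ.C ^ N).symm σ.v3) (j := N) (by linarith)
      (f.upC (by linarith) (by linarith)) (by simp only [OrderIso.apply_symm_apply, le_refl])
    have h2 : σ.A.symm ((σ.C ^ N).symm σ.v3) ∈ Icc σ.p σ.v1 := by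
      constructor
      · rw [OrderIso.le_symm_apply, σ.hA]; exact zm1.le
      · rw [OrderIso.symm_apply_le, ← σ.hC]; exact zm2.le
    have h3 := r3 _ h2
    rw [OrderIso.apply_symm_apply] at h3
    rw [OrderIso.apply_symm_apply, H43 _ zm2.le, h3, H32 _ (by linarith [h2.2]),
      H21 _ (by linarith [h2.2]), hH1, h_w3, OrderIso.apply_symm_apply,
      OrderIso.apply_symm_apply, OrderIso.apply_symm_apply] at h1
    exact h1
  -- gluing with the data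
  have mG := m4.glue (by linarith) o4.le mh (by rw [H4v3, h_v3])
  obtain ⟨H, hHdef⟩ : ∃ H : ℝ → ℝ, H = fun x => if x ≤ σ.v3 then H4 x else h x := ⟨_, rfl⟩
  rw [← hHdef] at mG
  have HH4 : ∀ x ≤ σ.v3, H x = H4 x := by
    intro x hx
    rw [hHdef]; simp [hx]
  have HJ : ∀ x ∈ Icc σ.v3 σ.q, H x = h x := by
    intro x hx
    rcases hx.1.eq_or_lt with h' | h'
    · rw [← h', HH4 _ le_rfl, H4v3, h_v3]
    · rw [hHdef]; simp [not_le.2 h']
  have HH3 : ∀ x ≤ σ.C σ.v2, H x = H3 x := fun x hx => by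
    rw [HH4 x (by linarith), H43 x hx]
  have HH2 : ∀ x ≤ σ.B σ.v2, H x = H2 x := fun x hx => by
    rw [HH3 x (by linarith), H32 x hx]
  have HH1 : ∀ x ≤ σ.B σ.v1, H x = H1 x := fun x hx => by
    rw [HH2 x (by linarith), H21 x hx]
  refine ⟨H, ⟨mG, ?_, ?_, ?_, ?_, ?_⟩, ⟨?_, ?_, ?_, ?_⟩, fun x hx => by rw [HJ x hx, hh]⟩
  · rw [HH1 _ (by linarith), H1p]
  · rw [HH1 _ o5.le, H1v1]
  · rw [HH2 _ o7.le, H2v2]
  · rw [HH4 _ le_rfl, H4v3]
  · rw [HJ _ ⟨o4.le, le_rfl⟩, h_q]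
  · intro x hx
    have h1 : σ.D x ≤ σ.B σ.v1 := by rw [σ.hB]; exact σ.D.monotone hx.2
    rw [HH1 _ h1, hH1, OrderIso.symm_apply_apply, HJ x hx]
  · intro x hx
    have h1 : σ.A x ≤ σ.C σ.v2 := by rw [σ.hC]; exact σ.A.monotone hx.2
    rw [HH3 _ h1, r3 x hx, HH3 x (by linarith [hx.2])]
  · intro x hx
    have h1 : σ.B x ≤ σ.B σ.v2 := σ.B.monotone hx.2
    rw [HH2 _ h1, r2 x hx, HH2 x (by linarith [hx.2])]
  · intro x hx
    have h1 : σ.C x ≤ σ.v3 := (OrderIso.le_symm_apply σ.C).1 hx.2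
    have h2 : σ.C.symm σ.v3 ≤ σ.v3 := by
      rw [OrderIso.symm_apply_le, σ.hq]; exact o4.le
    rw [HH4 _ h1, r4 x hx, HH4 x (hx.2.trans h2)]

/-- induction along the towers -/
theorem tower_ind {M N : ℕ} {σ : St} (f : Fac M N σ) {P : ℝ → Prop}
    (hJ : ∀ x ∈ Icc σ.v3 σ.q, P x) (hD : ∀ x ∈ Icc σ.v3 σ.q, P x → P (σ.D x))
    (hA : ∀ x ∈ Icc σ.p σ.v1, P x → P (σ.A x)) (hB : ∀ x ∈ Icc σ.v1 σ.v2, P x → P (σ.B x))
    (hC : ∀ x ∈ Icc σ.v2 (σ.C.symm σ.v3), P x → P (σ.C x)) : ∀ x ∈ Icc σ.p σ.q, P x := by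
  have o1 := f.s.h1
  have o2 := f.s.h2
  have o3 := f.s.h3
  have o4 := f.s.h4
  have o5 := f.v1u1
  have o6 := f.u1v2
  have o7 := f.v2u2
  have o8 := f.u2u3
  have o9 := f.u3v3
  have s1 : ∀ x, σ.p ≤ x → x ≤ σ.B σ.v1 → P x := by
    intro x h1 h2
    have hm : σ.D.symm x ∈ Icc σ.v3 σ.q := by
      constructor
      · rw [OrderIso.le_symm_apply, σ.hD]; exact h1
      · rw [OrderIso.symm_apply_le, ← σ.hB]; exact h2
    have := hD _ hm (hJ _ hm)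
    rwa [OrderIso.apply_symm_apply] at this
  have s2 : ∀ n : ℕ, ∀ x, σ.p ≤ x → x ≤ (σ.B ^ (n + 1)) σ.v1 → x ≤ σ.B σ.v2 → P x := by
    intro n
    induction n with
    | zero =>
      intro x h1 h2 _
      rw [pow_one_app] at h2
      exact s1 x h1 h2
    | succ n ih =>
      intro x h1 h2 h3
      rcases le_total x (σ.B σ.v1) with h | h
      · exact s1 x h1 h
      · have hm : σ.B.symm x ∈ Icc σ.v1 σ.v2 :=
          ⟨(OrderIso.le_symm_apply σ.B).2 h, (OrderIso.symm_apply_le σ.B).2 h3⟩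
        have hle : σ.B.symm x ≤ (σ.B ^ (n + 1)) σ.v1 := by
          rw [OrderIso.symm_apply_le, ← pow_succ_app]; exact h2
        have := hB _ hm (ih _ (by linarith [hm.1]) hle (by linarith [hm.2]))
        rwa [OrderIso.apply_symm_apply] at this
  have s2' : ∀ x, σ.p ≤ x → x ≤ σ.B σ.v2 → P x := by
    intro x h1 h2
    refine s2 (M + 1) x h1 (h2.trans ?_) h2
    rw [pow_succ_app]
    exact σ.B.monotone f.b2.le
  have s3 : ∀ x, σ.p ≤ x → x ≤ σ.C σ.v2 → P x := by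
    intro x h1 h2
    rcases le_total x (σ.B σ.v2) with h | h
    · exact s2' x h1 h
    · have hm : σ.A.symm x ∈ Icc σ.p σ.v1 := by
        constructor
        · rw [OrderIso.le_symm_apply, σ.hA]; exact h
        · rw [OrderIso.symm_apply_le, ← σ.hC]; exact h2
      have := hA _ hm (s2' _ hm.1 (by linarith [hm.2]))
      rwa [OrderIso.apply_symm_apply] at this
  have s4 : ∀ n : ℕ, ∀ x, σ.p ≤ x → x ≤ (σ.C ^ (n + 1)) σ.v2 → x ≤ σ.v3 → P x := by
    intro n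
    induction n with
    | zero =>
      intro x h1 h2 _
      rw [pow_one_app] at h2
      exact s3 x h1 h2
    | succ n ih =>
      intro x h1 h2 h3
      rcases le_total x (σ.C σ.v2) with h | h
      · exact s3 x h1 h
      · have hm : σ.C.symm x ∈ Icc σ.v2 (σ.C.symm σ.v3) :=
          ⟨(OrderIso.le_symm_apply σ.C).2 h, σ.C.symm.monotone h3⟩
        have hle : σ.C.symm x ≤ (σ.C ^ (n + 1)) σ.v2 := by
          rw [OrderIso.symm_apply_le, ← pow_succ_app]; exact h2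
        have h2 : σ.C.symm σ.v3 ≤ σ.v3 := by
          rw [OrderIso.symm_apply_le, σ.hq]; exact o4.le
        have := hC _ hm (ih _ (by linarith [hm.1]) hle (by linarith [hm.2]))
        rwa [OrderIso.apply_symm_apply] at this
  intro x hx
  rcases le_total x σ.v3 with h | h
  · exact s4 N x hx.1 (h.trans f.v3c.le) h
  · exact hJ x ⟨h, hx.2⟩

end Pool.Agent.TH227.GE
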