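import Mathlib

set_option autoImplicit false

/-!
Keane type renormalisation of generalised interval exchange maps on four intervals, with top order
`A B C D` and bottom order `D B A C`.  The branches are extended to order isomorphisms of the line.
-/

namespace Pool.Agent.TH227.GE

/-- conjugation by `x ↦ -x` -/
def flip (f : ℝ ≃o ℝ) : ℝ ≃o ℝ where
  toFun x := - f (-x)
  invFun x := - f.symm (-x)
  left_inv x := by simp
  right_inv x := by simp
  map_rel_iff' := by intro a b; simp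

theorem flip_apply (f : ℝ ≃o ℝ) (x : ℝ) : flip f x = - f (-x) := rfl

theorem mul_app (f g : ℝ ≃o ℝ) (x : ℝ) : (f * g) x = f (g x) := rfl

theorem pow_zero_app (f : ℝ ≃o ℝ) (x : ℝ) : (f ^ 0) x = x := rfl

theorem pow_succ_app (f : ℝ ≃o ℝ) (n : ℕ) (x : ℝ) : (f ^ (n + 1)) x = f ((f ^ n) x) := by
  rw [pow_succ']; rfl

theorem pow_succ_app' (f : ℝ ≃o ℝ) (n : ℕ) (x : ℝ) : (f ^ (n + 1)) x = (f ^ n) (f x) := by
  rw [pow_succ]; rfl

theorem pow_one_app (f : ℝ ≃o ℝ) (x : ℝ) : (f ^ 1) x = f x := by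
  rw [pow_one]

/-- the data of a generalised interval exchange map with top order `A B C D` and bottom order
`D B A C` on the interval from `p` to `q`, with discontinuities `v1, v2, v3` -/
structure St where
  p : ℝ
  q : ℝ
  v1 : ℝ
  v2 : ℝ
  v3 : ℝ
  A : ℝ ≃o ℝ
  B : ℝ ≃o ℝ
  C : ℝ ≃o ℝ
  D : ℝ ≃o ℝ
  hD : D v3 = p
  hA : A p = B v2
  hB : B v1 = D q
  hC : C v2 = A v1
  hq : C v3 = q

/-- one step of the renormalisation: first return map to the interval from `v3` to `q`, followed by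
the reflection `x ↦ -x` -/
def renorm (M N : ℕ) (σ : St) : St where
  p := - σ.q
  q := - σ.v3
  v1 := - σ.D.symm ((σ.B ^ M).symm σ.v2)
  v2 := - σ.D.symm σ.v1
  v3 := - σ.D.symm (σ.A.symm ((σ.C ^ N).symm σ.v3))
  A := flip (σ.C ^ (N + 1) * σ.B ^ M * σ.D)
  B := flip (σ.C ^ (N + 1) * σ.B ^ (M + 1) * σ.D)
  C := flip (σ.C ^ N * σ.A * σ.D)
  D := flip (σ.C ^ (N + 1) * σ.A * σ.D)
  hD := by
    simp only [flip_apply, mul_app, neg_neg, OrderIso.apply_symm_apply, pow_succ_app, σ.hq]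
  hA := by
    simp only [flip_apply, mul_app, neg_neg, OrderIso.apply_symm_apply]
    rw [pow_succ_app' σ.B M σ.v1, σ.hB]
  hB := by
    simp only [flip_apply, mul_app, neg_neg, OrderIso.apply_symm_apply]
    rw [pow_succ_app σ.B M, OrderIso.apply_symm_apply, σ.hD, σ.hA]
  hC := by
    simp only [flip_apply, mul_app, neg_neg, OrderIso.apply_symm_apply]
    rw [pow_succ_app' σ.C N σ.v2, σ.hC]
  hq := by
    simp only [flip_apply, mul_app, neg_neg, OrderIso.apply_symm_apply]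

namespace St

variable (σ : St)

/-- top lengths -/
def la : ℝ := σ.v1 - σ.p
def lb : ℝ := σ.v2 - σ.v1
def lc : ℝ := σ.v3 - σ.v2
def ld : ℝ := σ.q - σ.v3

end St

/-- two-sided bounds for difference quotients -/
def Slope (f : ℝ ≃o ℝ) (lo hi : ℝ) : Prop :=
  ∀ x y : ℝ, x ≤ y → lo * (y - x) ≤ f y - f x ∧ f y - f x ≤ hi * (y - x)

theorem Slope.one : Slope 1 1 1 := by
  intro x y _
  constructor <;> simp [RelIso.one_apply]

theorem Slope.mul {f g : ℝ ≃o ℝ} {a b c d : ℝ} (ha : 0 ≤ a) (hb : 0 ≤ b)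
    (hf : Slope f a b) (hg : Slope g c d) : Slope (f * g) (a * c) (b * d) := by
  intro x y hxy
  obtain ⟨h1, h2⟩ := hg x y hxy
  obtain ⟨h3, h4⟩ := hf (g x) (g y) (g.monotone hxy)
  rw [mul_app, mul_app]
  constructor
  · calc a * c * (y - x) = a * (c * (y - x)) := by ring
      _ ≤ a * (g y - g x) := by gcongr
      _ ≤ _ := h3
  · calc f (g y) - f (g x) ≤ b * (g y - g x) := h4
      _ ≤ b * (d * (y - x)) := by gcongr
      _ = _ := by ring

theorem Slope.pow {f : ℝ ≃o ℝ} {a b : ℝ} (ha : 0 ≤ a) (hb : 0 ≤ b)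
    (hf : Slope f a b) (n : ℕ) : Slope (f ^ n) (a ^ n) (b ^ n) := by
  induction n with
  | zero => simpa using Slope.one
  | succ n ih =>
    rw [pow_succ', pow_succ', pow_succ']
    exact Slope.mul ha hb hf ih

theorem Slope.flip {f : ℝ ≃o ℝ} {a b : ℝ} (hf : Slope f a b) : Slope (GE.flip f) a b := by
  intro x y hxy
  obtain ⟨h1, h2⟩ := hf (-y) (-x) (by linarith)
  rw [flip_apply, flip_apply]
  constructor
  · linarith
  · linarith

theorem Slope.mono {f : ℝ ≃o ℝ} {a b c d : ℝ} (hf : Slope f a b) (h1 : c ≤ a) (h2 : b ≤ d) :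
    Slope f c d := by
  intro x y hxy
  obtain ⟨h3, h4⟩ := hf x y hxy
  have : 0 ≤ y - x := by linarith
  constructor
  · exact le_trans (by gcongr) h3
  · exact le_trans h4 (by gcongr)

/-- slope bounds for the four branches -/
def Slopes (σ : St) (lN uN lP uP : ℝ) : Prop :=
  Slope σ.A lN uN ∧ Slope σ.B lN uN ∧ Slope σ.C lP uP ∧ Slope σ.D lP uP

/-- conditions on the slope bounds -/
structure OK (lN uN lP uP : ℝ) : Prop where
  h1 : 0 < lN
  h1' : lN ≤ 1
  h2 : 0 < uN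
  h3 : uN ≤ 1 / 4
  h4 : 2 ≤ lP
  h5 : lP ≤ uP
  h6 : uN * uP ≤ 1 / 8

/-- conditions on the exponents -/
structure Good (lN uN lP uP : ℝ) (M N : ℕ) : Prop where
  hM : 1 ≤ M
  hN : 1 ≤ N
  h1 : 4 ≤ lP ^ N * lN
  h2 : uN ^ M * uP ^ (2 * (N + 2)) ≤ 1 / 32

theorem OK.exists_good {lN uN lP uP : ℝ} (h : OK lN uN lP uP) : ∃ M N, Good lN uN lP uP M N := by
  have hlN := h.h1
  have huN := h.h2
  obtain ⟨N, hN⟩ : ∃ N : ℕ, 4 / lN < (2 : ℝ) ^ N := pow_unbounded_of_one_lt _ (by norm_num)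
  have huP : 0 < uP := by linarith [h.h4, h.h5]
  have hpos : 0 < uP ^ (2 * (N + 1 + 2)) := by positivity
  obtain ⟨M, hM⟩ : ∃ M : ℕ, (1 / 4 : ℝ) ^ M < 1 / 32 / uP ^ (2 * (N + 1 + 2)) :=
    exists_pow_lt_of_lt_one (by positivity) (by norm_num)
  refine ⟨M + 1, N + 1, ⟨by omega, by omega, ?_, ?_⟩⟩
  · have h1 : (2 : ℝ) ^ N ≤ lP ^ (N + 1) := by
      calc (2 : ℝ) ^ N ≤ 2 ^ (N + 1) := pow_le_pow_right₀ (by norm_num) (by omega)
        _ ≤ lP ^ (N + 1) := pow_le_pow_left₀ (by norm_num) h.h4 _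
    have h2 : 4 / lN < lP ^ (N + 1) := lt_of_lt_of_le hN h1
    rw [div_lt_iff₀ hlN] at h2
    exact h2.le
  · have h1 : uN ^ (M + 1) ≤ (1 / 4 : ℝ) ^ M := by
      calc uN ^ (M + 1) ≤ uN ^ M :=
            pow_le_pow_of_le_one huN.le (by linarith [h.h3]) (by omega)
        _ ≤ (1 / 4 : ℝ) ^ M := pow_le_pow_left₀ huN.le h.h3 _
    have h2 : uN ^ (M + 1) < 1 / 32 / uP ^ (2 * (N + 1 + 2)) := lt_of_le_of_lt h1 hM
    rw [lt_div_iff₀ hpos] at h2
    exact h2.le

/-- the new slope bounds are again admissible -/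
theorem OK.next {lN uN lP uP : ℝ} (h : OK lN uN lP uP) {M N : ℕ} (g : Good lN uN lP uP M N) :
    OK (lN ^ (M + 1)) (uP ^ (N + 2) * uN ^ M) (lP ^ (N + 1) * lN) (uP ^ (N + 2)) := by
  have hlN := h.h1
  have huN := h.h2
  have huP : 2 ≤ uP := by linarith [h.h4, h.h5]
  have h32 : uP ^ (N + 2) * uN ^ M * uP ^ (N + 2) ≤ 1 / 32 := by
    have : uP ^ (N + 2) * uN ^ M * uP ^ (N + 2) = uN ^ M * uP ^ (2 * (N + 2)) := by ring
    rw [this]; exact g.h2
  have hge1 : 1 ≤ uP ^ (N + 2) := one_le_pow₀ (by linarith)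
  have hpos : 0 < uP ^ (N + 2) * uN ^ M := by positivity
  refine ⟨by positivity, pow_le_one₀ hlN.le h.h1', hpos, ?_, ?_, ?_, by linarith⟩
  · nlinarith
  · have h1 : lP ^ (N + 1) * lN = lP * (lP ^ N * lN) := by ring
    rw [h1]
    nlinarith [g.h1, h.h4]
  · have h1 : lP ^ (N + 1) * lN ≤ lP ^ (N + 1) := by
      have : 0 ≤ lP ^ (N + 1) := by
        have := h.h4; positivity
      nlinarith [h.h1']
    have hlP : 0 ≤ lP := by linarith [h.h4]
    calc lP ^ (N + 1) * lN ≤ lP ^ (N + 1) := h1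
      _ ≤ uP ^ (N + 1) := pow_le_pow_left₀ hlP h.h5 _
      _ ≤ uP ^ (N + 2) := pow_le_pow_right₀ (by linarith) (by omega)

theorem Slopes.next {σ : St} {lN uN lP uP : ℝ} (h : OK lN uN lP uP) {M N : ℕ}
    (hs : Slopes σ lN uN lP uP) :
    Slopes (renorm M N σ) (lN ^ (M + 1)) (uP ^ (N + 2) * uN ^ M) (lP ^ (N + 1) * lN)
      (uP ^ (N + 2)) := by
  have hlN := h.h1
  have huN := h.h2
  have hlP : 2 ≤ lP := h.h4
  have huP : 2 ≤ uP := by linarith [h.h4, h.h5]
  obtain ⟨sA, sB, sC, sD⟩ := hs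
  have p1 : ∀ n : ℕ, 0 ≤ lP ^ n := fun n => by positivity
  have p2 : ∀ n : ℕ, 0 ≤ uP ^ n := fun n => by positivity
  have cN1 := sC.pow (by linarith) (by linarith) (N + 1)
  have cN := sC.pow (by linarith) (by linarith) N
  have bM := sB.pow hlN.le huN.le M
  have bM1 := sB.pow hlN.le huN.le (M + 1)
  have one_le : ∀ n : ℕ, 1 ≤ lP ^ n := fun n => one_le_pow₀ (by linarith)
  refine ⟨?_, ?_, ?_, ?_⟩
  · refine (((cN1.mul (p1 _) (p2 _) bM).mul (by positivity) (by positivity) sD).flip).mono ?_ ?_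
    · calc lN ^ (M + 1) ≤ lN ^ M := pow_le_pow_of_le_one hlN.le h.h1' (by omega)
        _ = 1 * lN ^ M * 1 := by ring
        _ ≤ lP ^ (N + 1) * lN ^ M * lP := by
          have h1 := one_le (N + 1)
          have h2 : 0 ≤ lN ^ M := by positivity
          gcongr
          linarith
    · apply le_of_eq; ring
  · refine (((cN1.mul (p1 _) (p2 _) bM1).mul (by positivity) (by positivity) sD).flip).mono ?_ ?_
    · calc lN ^ (M + 1) = 1 * lN ^ (M + 1) * 1 := by ring
        _ ≤ lP ^ (N + 1) * lN ^ (M + 1) * lP := by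
          have h1 := one_le (N + 1)
          have h2 : 0 ≤ lN ^ (M + 1) := by positivity
          gcongr
          linarith
    · calc uP ^ (N + 1) * uN ^ (M + 1) * uP = uP ^ (N + 2) * uN ^ (M + 1) := by ring
        _ ≤ uP ^ (N + 2) * uN ^ M := by
          have := pow_le_pow_of_le_one huN.le (by linarith [h.h3] : uN ≤ 1) (Nat.le_succ M)
          have h2 := p2 (N + 2)
          gcongr
  · refine (((cN.mul (p1 _) (p2 _) sA).mul (by positivity) (by positivity) sD).flip).mono ?_ ?_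
    · apply le_of_eq; ring
    · calc uP ^ N * uN * uP ≤ uP ^ N * 1 * uP := by
            have h2 := p2 N
            have := h.h3
            gcongr
            linarith
        _ = uP ^ (N + 1) := by ring
        _ ≤ uP ^ (N + 2) := pow_le_pow_right₀ (by linarith) (by omega)
  · refine (((cN1.mul (p1 _) (p2 _) sA).mul (by positivity) (by positivity) sD).flip).mono ?_ ?_
    · calc lP ^ (N + 1) * lN = lP ^ (N + 1) * lN * 1 := by ring
        _ ≤ lP ^ (N + 1) * lN * lP := by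
          gcongr
          linarith
    · calc uP ^ (N + 1) * uN * uP ≤ uP ^ (N + 1) * 1 * uP := by
            have h2 := p2 (N + 1)
            have := h.h3
            gcongr
            linarith
        _ = uP ^ (N + 2) := by ring

end Pool.Agent.TH227.GE
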